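import Pool.Agent.Lib.MP_af3d17_nt_h98.Defs

/-!
# MP_af3d17_nt: the exponents `α` and `θ`, and the exceptional zeros
-/

set_option autoImplicit false

namespace Pool.Agent.ZP

open Filter Topology

/-- `γ 0 ≤ γ 1 ≤ γ 2 ≤ ⋯` are the ordinates of the nontrivial zeros with positive ordinate, each
repeated according to multiplicity: every real number `t` occurs in the sequence as many times as
there are pairs `(ρ, k)` with `ρ` such a zero of ordinate `t` and `k` smaller than its order.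
(`γ n` is the number `γ_{n+1}` of the problem.) -/
structure IsOrdinateSeq (γ : ℕ → ℝ) : Prop where
  mono : Monotone γ
  count : ∀ t : ℝ, {n | γ n = t}.encard = {p : ℂ × ℕ | IsUpperZero p.1 ∧ p.1.im = t ∧
    (p.2 : ℕ∞) < analyticOrderAt riemannZeta p.1}.encard

/-- `log (γ_{n+2} - γ_{n+1}) / log (n + 1)`, with `log 0 = -∞`. -/
noncomputable def gapExponent (γ : ℕ → ℝ) (n : ℕ) : EReal :=
  if γ (n + 1) = γ n then ⊥ else ((Real.log (γ (n + 1) - γ n) / Real.log (n + 1) : ℝ) : EReal)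

/-- The exponent `α`. -/
noncomputable def alpha (γ : ℕ → ℝ) : EReal := liminf (gapExponent γ) atTop

/-- `log (β' - 1/2) / log γ'` at `β' + iγ'`, `-∞` if `β' ≤ 1/2`. -/
noncomputable def derivExponent (ρ : ℂ) : EReal :=
  if ρ.re ≤ 1 / 2 then ⊥ else ((Real.log (ρ.re - 1 / 2) / Real.log ρ.im : ℝ) : EReal)

/-- The liminf of `log (β' - 1/2) / log γ'` over the zeros `β' + iγ'` of `ζ'`, as `γ' → ∞`. -/
noncomputable def theta : EReal :=
  liminf derivExponent (comap Complex.im atTop ⊓ 𝓟 {ρ | deriv riemannZeta ρ = 0})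

lemma analyticAt_zeta {ρ : ℂ} (h : IsUpperZero ρ) : AnalyticAt ℂ riemannZeta ρ := by
  have h1 : ρ ≠ 1 := by
    rintro rfl
    have := h.2.2.1
    simp at this
  have h2 : DifferentiableOn ℂ riemannZeta {1}ᶜ := fun s hs =>
    (differentiableAt_riemannZeta hs).differentiableWithinAt
  exact h2.analyticAt (isOpen_compl_singleton.mem_nhds h1)

lemma order_pos {ρ : ℂ} (h : IsUpperZero ρ) : 1 ≤ analyticOrderAt riemannZeta ρ := by
  rw [Order.one_le_iff_ne_zero]
  exact (analyticAt_zeta h).analyticOrderAt_ne_zero.2 h.1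

/-- the mirror image of a zero is a zero with the same ordinate -/
lemma mirror {ρ : ℂ} (h : IsUpperZero ρ) :
    IsUpperZero (1 - (starRingEnd ℂ) ρ) ∧ (1 - (starRingEnd ℂ) ρ).im = ρ.im := by
  have him : (1 - (starRingEnd ℂ) ρ).im = ρ.im := by simp
  have hre : (1 - (starRingEnd ℂ) ρ).re = 1 - ρ.re := by simp
  refine ⟨⟨?_, ?_, ?_, ?_⟩, him⟩
  · have hne : ∀ n : ℕ, ρ ≠ -n := by
      intro n hn
      have := h.2.1
      rw [hn] at this
      simp at this
      have h0 : (0 : ℝ) ≤ n := Nat.cast_nonneg n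
      linarith
    have h1 : ρ ≠ 1 := by
      rintro rfl
      have := h.2.2.1
      simp at this
    have h2 := riemannZeta_one_sub hne h1
    rw [h.1, mul_zero] at h2
    have h3 : (1 - (starRingEnd ℂ) ρ) = (starRingEnd ℂ) (1 - ρ) := by simp
    rw [h3, riemannZeta_conj, h2, map_zero]
  · rw [hre]; linarith [h.2.2.1]
  · rw [hre]; linarith [h.2.1]
  · rw [him]; exact h.2.2.2

variable {γ : ℕ → ℝ}

/-- an ordinate belonging to an exceptional zero occurs twice in a row -/
lemma exists_gap_zero (hγ : IsOrdinateSeq γ) {ρ : ℂ} (h : IsUpperZero ρ)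
    (hbad : ρ.re ≠ 1 / 2 ∨ analyticOrderAt riemannZeta ρ ≠ 1) :
    ∃ n, γ n = ρ.im ∧ γ (n + 1) = γ n := by
  have h2 : 1 < {p : ℂ × ℕ | IsUpperZero p.1 ∧ p.1.im = ρ.im ∧
      (p.2 : ℕ∞) < analyticOrderAt riemannZeta p.1}.encard := by
    rw [Set.one_lt_encard_iff]
    have hpos : ∀ {s : ℂ}, IsUpperZero s → ((0 : ℕ) : ℕ∞) < analyticOrderAt riemannZeta s :=
      fun hs => lt_of_lt_of_le (by norm_num) (order_pos hs)
    rcases hbad with hre | hord
    · obtain ⟨h3, h4⟩ := mirror h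
      refine ⟨(ρ, 0), (1 - (starRingEnd ℂ) ρ, 0), ⟨h, rfl, hpos h⟩, ⟨h3, h4, hpos h3⟩, ?_⟩
      intro heq
      have h5 := congrArg (fun p : ℂ × ℕ => p.1.re) heq
      simp only [Complex.sub_re, Complex.one_re, Complex.conj_re] at h5
      apply hre
      linarith
    · refine ⟨(ρ, 0), (ρ, 1), ⟨h, rfl, hpos h⟩, ⟨h, rfl, ?_⟩, ?_⟩
      · have := order_pos h
        rw [Nat.cast_one]
        exact lt_of_le_of_ne this (Ne.symm hord)
      · intro heq
        have h5 := congrArg (fun p : ℂ × ℕ => p.2) heq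
        simp at h5
  rw [← hγ.count, Set.one_lt_encard_iff] at h2
  obtain ⟨a, b, ha, hb, hab⟩ := h2
  have key : ∀ {a b : ℕ}, γ a = ρ.im → γ b = ρ.im → a < b →
      ∃ n, γ n = ρ.im ∧ γ (n + 1) = γ n := by
    intro a b ha hb hlt
    refine ⟨a, ha, le_antisymm ?_ (hγ.mono (Nat.le_succ a))⟩
    rw [ha, ← hb]
    exact hγ.mono hlt
  rcases lt_or_gt_of_ne hab with hlt | hlt
  · exact key ha hb hlt
  · exact key hb ha hlt

/-- if `α > -∞` only finitely many gaps are zero -/
lemma finite_gap_zero (hα : alpha γ ≠ ⊥) : {n | γ (n + 1) = γ n}.Finite := by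
  by_contra hinf
  apply hα
  have h1 : ∃ᶠ n in atTop, gapExponent γ n ≤ ⊥ := by
    refine (Nat.frequently_atTop_iff_infinite.2 hinf).mono fun n hn => ?_
    rw [gapExponent, if_pos hn]
  exact le_bot_iff.1 (liminf_le_of_frequently_le h1)

/-- a simple zero has a nonzero derivative -/
lemma deriv_ne_zero_of_order {ρ : ℂ} (h : IsUpperZero ρ) (h1 : analyticOrderAt riemannZeta ρ = 1) :
    deriv riemannZeta ρ ≠ 0 := by
  have h2 := (analyticAt_zeta h).analyticOrderAt_deriv_add_one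
  have h3 : (fun z => riemannZeta z - riemannZeta ρ) = riemannZeta := by
    funext z
    rw [h.1, sub_zero]
  rw [h3, h1] at h2
  have h4 : analyticOrderAt (deriv riemannZeta) ρ = 0 := by
    have h5 : analyticOrderAt (deriv riemannZeta) ρ + 1 = 0 + 1 := by rw [h2, zero_add]
    exact (ENat.add_left_injective_of_ne_top ENat.one_ne_top) h5
  exact (analyticAt_zeta h).deriv.analyticOrderAt_eq_zero.1 h4

/-- the order of a zero with nonvanishing derivative is one -/
lemma order_of_deriv_ne_zero {ρ : ℂ} (h : IsUpperZero ρ) (h1 : deriv riemannZeta ρ ≠ 0) :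
    analyticOrderAt riemannZeta ρ = 1 :=
  (analyticAt_zeta h).analyticOrderAt_eq_one_of_zero_deriv_ne_zero h.1 h1

/-- if `α > -∞` then RH and simplicity hold from some height on -/
lemma rh_of_alpha (hγ : IsOrdinateSeq γ) (hα : alpha γ ≠ ⊥) : ∃ T0 : ℝ, RH T0 := by
  have hZ := finite_gap_zero hα
  obtain ⟨B, hB⟩ := (hZ.image γ).bddAbove
  refine ⟨B, fun ρ hρ hT => ?_⟩
  by_contra hcon
  rw [not_and_or] at hcon
  have hbad : ρ.re ≠ 1 / 2 ∨ analyticOrderAt riemannZeta ρ ≠ 1 := by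
    refine hcon.imp id fun h h' => h (deriv_ne_zero_of_order hρ h')
  obtain ⟨n, hn, hn'⟩ := exists_gap_zero hγ hρ hbad
  have := hB ⟨n, hn', rfl⟩
  rw [hn] at this
  linarith

end Pool.Agent.ZP
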