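import Pool.Agent.Lib.MP_af3d17_nt_h98.Defs
import Pool.Agent.Lib.MP_f9aece_nt.EM

/-!
Growth of `ζ` in the right half of the critical strip, and bounds for `ζ`, `ζ'`, `ζ''`, `ζ'/ζ`
in half planes of absolute convergence.
-/

set_option autoImplicit false

namespace Pool.Agent.ZP

open Filter Topology Metric

theorem zeta_growth : ∃ C : ℝ, 0 < C ∧ ∀ s : ℂ, 1 / 10 ≤ s.re → s.re ≤ 20 → 1 ≤ s.im →
    ‖riemannZeta s‖ ≤ C * s.im ^ 2 := by
  refine ⟨464, by norm_num, fun s h1 h2 h3 => ?_⟩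
  have hq : s ∈ Pool.Agent.Lib.MP_f9aece_nt.quad := ⟨by linarith, by linarith⟩
  have hs1 := Pool.Agent.Lib.MP_f9aece_nt.quad_ne_one hq
  rw [Pool.Agent.Lib.MP_f9aece_nt.zeta_eq_quad hq]
  have e0 : ‖(1 / 2 : ℂ)‖ ≤ 1 := by norm_num
  have e1 : ‖1 / (s - 1)‖ ≤ 1 := by
    have h : 1 ≤ ‖s - 1‖ := by
      refine le_trans ?_ (Complex.abs_im_le_norm (s - 1))
      simp only [Complex.sub_im, Complex.one_im, sub_zero]
      exact le_trans h3 (le_abs_self _)
    rw [norm_div, norm_one, div_le_one (by linarith)]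
    exact h
  have e2 : ‖∑' n : ℕ, Pool.Agent.Lib.MP_f9aece_nt.trap (n + 1) s‖
      ≤ ‖s‖ * ‖s + 1‖ / 2 * (∑' n : ℕ, 1 / ((n + 1 : ℕ) : ℝ) ^ 2) := by
    rw [← tsum_mul_left]
    refine tsum_of_norm_bounded (Summable.hasSum ?_) fun n => ?_
    · exact ((summable_nat_add_iff 1).mpr
        (Real.summable_one_div_nat_pow.mpr (by norm_num : 1 < 2))).mul_left _
    · exact Pool.Agent.Lib.MP_f9aece_nt.trap_bound' (by omega) (by linarith) hs1
  have e3 : (∑' n : ℕ, 1 / ((n + 1 : ℕ) : ℝ) ^ 2) ≤ 2 := by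
    have := Pool.Agent.Lib.MP_f9aece_nt.tail_sum_sq 1 le_rfl
    simpa using this
  have e4 : ‖s‖ ≤ 21 * s.im := by
    have := Complex.norm_le_abs_re_add_abs_im s
    rw [abs_of_nonneg (by linarith), abs_of_nonneg (by linarith : (0:ℝ) ≤ s.im)] at this
    linarith
  have e5 : ‖s + 1‖ ≤ 22 * s.im := by
    have := norm_add_le s 1
    rw [norm_one] at this
    linarith
  have e6 : ‖s‖ * ‖s + 1‖ / 2 * (∑' n : ℕ, 1 / ((n + 1 : ℕ) : ℝ) ^ 2) ≤ 462 * s.im ^ 2 := by
    have h0 : 0 ≤ (∑' n : ℕ, 1 / ((n + 1 : ℕ) : ℝ) ^ 2) := tsum_nonneg fun n => by positivity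
    calc ‖s‖ * ‖s + 1‖ / 2 * (∑' n : ℕ, 1 / ((n + 1 : ℕ) : ℝ) ^ 2)
        ≤ (21 * s.im) * (22 * s.im) / 2 * 2 := by gcongr
      _ = 462 * s.im ^ 2 := by ring
  have e7 : (1 : ℝ) ≤ s.im ^ 2 := by nlinarith
  calc ‖1 / 2 + 1 / (s - 1) + ∑' n : ℕ, Pool.Agent.Lib.MP_f9aece_nt.trap (n + 1) s‖
      ≤ ‖(1 / 2 : ℂ)‖ + ‖1 / (s - 1)‖
        + ‖∑' n : ℕ, Pool.Agent.Lib.MP_f9aece_nt.trap (n + 1) s‖ := norm_add₃_le
    _ ≤ 1 + 1 + 462 * s.im ^ 2 := by gcongr; exact e2.trans e6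
    _ ≤ 464 * s.im ^ 2 := by linarith

/-- bound for an `L`-series to the right of a point of absolute convergence -/
lemma norm_LSeries_le {f : ℕ → ℂ} {x : ℝ} (hf : LSeriesSummable f x) {s : ℂ} (hs : x ≤ s.re) :
    ‖LSeries f s‖ ≤ ∑' n, ‖LSeries.term f x n‖ := by
  refine tsum_of_norm_bounded hf.norm.hasSum fun n => ?_
  exact LSeries.norm_term_le_of_re_le_re f (by simpa using hs) n

theorem logDeriv_bound : ∃ C : ℝ, 0 < C ∧ ∀ s : ℂ, 3 / 2 ≤ s.re →
    ‖logDeriv riemannZeta s‖ ≤ C := by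
  have hsum : LSeriesSummable (fun n => (ArithmeticFunction.vonMangoldt n : ℂ)) ((3 / 2 : ℝ) : ℂ) :=
    ArithmeticFunction.LSeriesSummable_vonMangoldt (by norm_num)
  refine ⟨(∑' n, ‖LSeries.term (fun n => (ArithmeticFunction.vonMangoldt n : ℂ))
    ((3 / 2 : ℝ) : ℂ) n‖) + 1, ?_, fun s hs => ?_⟩
  · have : 0 ≤ (∑' n, ‖LSeries.term (fun n => (ArithmeticFunction.vonMangoldt n : ℂ))
      ((3 / 2 : ℝ) : ℂ) n‖) := tsum_nonneg fun _ => norm_nonneg _
    linarith
  · have h1 := ArithmeticFunction.LSeries_vonMangoldt_eq_deriv_riemannZeta_div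
      (s := s) (by linarith)
    have h2 := norm_LSeries_le hsum hs
    have h3 : ‖logDeriv riemannZeta s‖
        = ‖LSeries (fun n => (ArithmeticFunction.vonMangoldt n : ℂ)) s‖ := by
      rw [h1, logDeriv_apply, neg_div, norm_neg]
    rw [h3]
    linarith

theorem zeta_lower : ∃ c : ℝ, 0 < c ∧ ∀ s : ℂ, 2 ≤ s.re → c ≤ ‖riemannZeta s‖ := by
  refine ⟨1 / 4, by norm_num, fun s hs => ?_⟩
  have hz := zeta_eq_tsum_one_div_nat_add_one_cpow (s := s) (by linarith)
  have hsumm : Summable fun n : ℕ => 1 / ((n + 1 : ℕ) : ℝ) ^ 2 :=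
    (summable_nat_add_iff 1).mpr (Real.summable_one_div_nat_pow.mpr (by norm_num : 1 < 2))
  have hterm : ∀ n : ℕ, ‖1 / ((n : ℂ) + 1) ^ s‖ ≤ 1 / ((n + 1 : ℕ) : ℝ) ^ 2 := by
    intro n
    have hn : (0 : ℝ) < ((n + 1 : ℕ) : ℝ) := by positivity
    have e : ((n : ℂ) + 1) = (((n + 1 : ℕ) : ℝ) : ℂ) := by push_cast; ring
    rw [norm_div, norm_one, e, Complex.norm_cpow_eq_rpow_re_of_pos hn]
    have h1 : (1 : ℝ) ≤ ((n + 1 : ℕ) : ℝ) := by push_cast; linarith [n.cast_nonneg (α := ℝ)]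
    have : ((n + 1 : ℕ) : ℝ) ^ (2 : ℕ) ≤ ((n + 1 : ℕ) : ℝ) ^ s.re := by
      rw [← Real.rpow_natCast]
      exact Real.rpow_le_rpow_of_exponent_le h1 (by push_cast; exact hs)
    exact one_div_le_one_div_of_le (by positivity) this
  have hS : Summable fun n : ℕ => 1 / ((n : ℂ) + 1) ^ s :=
    Summable.of_norm_bounded hsumm hterm
  have h0 := hS.tsum_eq_zero_add
  have h1 : ‖∑' n : ℕ, 1 / (((n + 1 : ℕ) : ℂ) + 1) ^ s‖ ≤ ∑' n : ℕ, 1 / ((n + 2 : ℕ) : ℝ) ^ 2 := by
    refine tsum_of_norm_bounded ((summable_nat_add_iff 2).mpr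
      (Real.summable_one_div_nat_pow.mpr (by norm_num : 1 < 2))).hasSum fun n => ?_
    exact hterm (n + 1)
  have h2 : (∑' n : ℕ, 1 / ((n + 2 : ℕ) : ℝ) ^ 2) ≤ 3 / 4 := by
    have hz2 : HasSum (fun n : ℕ => 1 / (n : ℝ) ^ 2) (Real.pi ^ 2 / 6) := hasSum_zeta_two
    have h3 := hz2.summable.sum_add_tsum_nat_add 2
    rw [hz2.tsum_eq] at h3
    simp only [Finset.sum_range_succ, Finset.sum_range_zero] at h3
    have hpi : Real.pi ^ 2 < 10 := by
      have := Real.pi_lt_d2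
      have h0 := Real.pi_pos
      nlinarith
    norm_num at h3 ⊢
    linarith
  rw [hz, h0]
  have h3 : ‖1 / (((0 : ℕ) : ℂ) + 1) ^ s‖ = 1 := by simp
  have h4 := norm_sub_le_norm_add (1 / (((0 : ℕ) : ℂ) + 1) ^ s)
    (∑' n : ℕ, 1 / (((n + 1 : ℕ) : ℂ) + 1) ^ s)
  rw [h3] at h4
  linarith

lemma zeta_upper {s : ℂ} (hs : 2 ≤ s.re) : ‖riemannZeta s‖ ≤ 2 := by
  have hz := zeta_eq_tsum_one_div_nat_add_one_cpow (s := s) (by linarith)
  have hterm : ∀ n : ℕ, ‖1 / ((n : ℂ) + 1) ^ s‖ ≤ 1 / ((n + 1 : ℕ) : ℝ) ^ 2 := by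
    intro n
    have hn : (0 : ℝ) < ((n + 1 : ℕ) : ℝ) := by positivity
    have e : ((n : ℂ) + 1) = (((n + 1 : ℕ) : ℝ) : ℂ) := by push_cast; ring
    rw [norm_div, norm_one, e, Complex.norm_cpow_eq_rpow_re_of_pos hn]
    have h1 : (1 : ℝ) ≤ ((n + 1 : ℕ) : ℝ) := by push_cast; linarith [n.cast_nonneg (α := ℝ)]
    have : ((n + 1 : ℕ) : ℝ) ^ (2 : ℕ) ≤ ((n + 1 : ℕ) : ℝ) ^ s.re := by
      rw [← Real.rpow_natCast]
      exact Real.rpow_le_rpow_of_exponent_le h1 (by push_cast; exact hs)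
    exact one_div_le_one_div_of_le (by positivity) this
  rw [hz]
  refine (tsum_of_norm_bounded ((summable_nat_add_iff 1).mpr
    (Real.summable_one_div_nat_pow.mpr (by norm_num : 1 < 2))).hasSum hterm).trans ?_
  have := Pool.Agent.Lib.MP_f9aece_nt.tail_sum_sq 1 le_rfl
  simpa using this

lemma deriv_zeta_eq {s : ℂ} (hs : 1 < s.re) :
    deriv riemannZeta s = - LSeries (LSeries.logMul 1) s := by
  have h1 : deriv riemannZeta s = deriv (LSeries 1) s := by
    refine Filter.EventuallyEq.deriv_eq <| Filter.eventuallyEq_iff_exists_mem.mpr ?_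
    exact ⟨{z | 1 < z.re}, (isOpen_lt continuous_const Complex.continuous_re).mem_nhds hs,
      fun _ h => (LSeries_one_eq_riemannZeta h).symm⟩
  rw [h1, LSeries_deriv]
  rw [LSeries.abscissaOfAbsConv_one]
  exact_mod_cast hs

theorem deriv_lower : ∃ c C : ℝ, 0 < c ∧ 0 < C ∧ ∀ s : ℂ, 9 ≤ s.re → s.re ≤ 11 →
    c ≤ ‖deriv riemannZeta s‖ ∧ ‖deriv (deriv riemannZeta) s‖ ≤ C := by
  refine ⟨2 ^ (-(11 : ℝ)) / 4, 4, by positivity, by norm_num, fun s h1 h2 => ⟨?_, ?_⟩⟩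
  · rw [deriv_zeta_eq (by linarith), norm_neg]
    have hab : LSeries.abscissaOfAbsConv 1 < s.re := by
      rw [LSeries.abscissaOfAbsConv_one]
      exact_mod_cast (by linarith : (1 : ℝ) < s.re)
    have hS : Summable fun n => LSeries.term (LSeries.logMul 1) s n :=
      LSeriesSummable_logMul_of_lt_re hab
    have h3 := hS.sum_add_tsum_nat_add 3
    have hL : LSeries (LSeries.logMul 1) s = ∑' n, LSeries.term (LSeries.logMul 1) s n := rfl
    have t0 : LSeries.term (LSeries.logMul 1) s 0 = 0 := by simp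
    have t1 : LSeries.term (LSeries.logMul 1) s 1 = 0 := by simp [LSeries.term, LSeries.logMul]
    have t2 : ‖LSeries.term (LSeries.logMul 1) s 2‖ = Real.log 2 * 2 ^ (-s.re) := by
      rw [LSeries.norm_term_eq]
      have e : Complex.log 2 = (Real.log 2 : ℂ) := by
        rw [Complex.ofReal_log (by norm_num)]; norm_num
      simp only [LSeries.logMul, Pi.one_apply, mul_one, Nat.cast_ofNat, e, Complex.norm_real]
      rw [if_neg (by norm_num), Real.norm_of_nonneg (Real.log_nonneg (by norm_num)),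
        Real.rpow_neg (by norm_num)]
      rfl
    have t3 : ‖∑' n : ℕ, LSeries.term (LSeries.logMul 1) s (n + 3)‖
        ≤ (512 / 729 * 2 ^ (-s.re)) * ∑' n : ℕ, 1 / ((n + 3 : ℕ) : ℝ) ^ 2 := by
      rw [← tsum_mul_left]
      refine tsum_of_norm_bounded (((summable_nat_add_iff 3).mpr
        (Real.summable_one_div_nat_pow.mpr (by norm_num : 1 < 2))).mul_left _).hasSum fun n => ?_
      rw [LSeries.norm_term_eq, if_neg (by omega)]
      have hm : (3 : ℝ) ≤ ((n + 3 : ℕ) : ℝ) := by push_cast; linarith [n.cast_nonneg (α := ℝ)]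
      generalize hmm : n + 3 = m at *
      have hm0 : (0 : ℝ) < m := by linarith
      have e : Complex.log (m : ℂ) = (Real.log m : ℂ) := by
        rw [Complex.ofReal_log hm0.le]; norm_num
      have hlog : Real.log m ≤ m := (Real.log_le_sub_one_of_pos hm0).trans (by linarith)
      have hlog0 : 0 ≤ Real.log m := Real.log_nonneg (by linarith)
      simp only [LSeries.logMul, Pi.one_apply, mul_one, e, Complex.norm_real]
      rw [Real.norm_of_nonneg hlog0]
      have k1 : (m : ℝ) ^ s.re = (m : ℝ) ^ (9 : ℕ) * (m : ℝ) ^ (s.re - 9) := by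
        rw [← Real.rpow_natCast, ← Real.rpow_add hm0]; norm_num
      have k2 : (2 : ℝ) ^ (s.re - 9) ≤ (m : ℝ) ^ (s.re - 9) :=
        Real.rpow_le_rpow (by norm_num) (by linarith) (by linarith)
      have k3 : (2 : ℝ) ^ (-s.re) = 1 / (512 * 2 ^ (s.re - 9)) := by
        rw [Real.rpow_neg (by norm_num), one_div]
        congr 1
        have : (512 : ℝ) = 2 ^ (9 : ℝ) := by norm_num
        rw [this, ← Real.rpow_add (by norm_num)]; norm_num
      have k4 : (0 : ℝ) < 2 ^ (s.re - 9) := by positivity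
      have k5 : (729 : ℝ) ≤ (m : ℝ) ^ 6 := by
        calc (729 : ℝ) = 3 ^ 6 := by norm_num
          _ ≤ (m : ℝ) ^ 6 := by gcongr
      rw [k1, k3]
      calc Real.log m / ((m : ℝ) ^ 9 * (m : ℝ) ^ (s.re - 9))
          ≤ m / ((m : ℝ) ^ 9 * 2 ^ (s.re - 9)) := by gcongr
        _ = 1 / (2 ^ (s.re - 9) * (m : ℝ) ^ 2) * (1 / (m : ℝ) ^ 6) := by
          field_simp
        _ ≤ 1 / (2 ^ (s.re - 9) * (m : ℝ) ^ 2) * (1 / 729) := by gcongr
        _ = 512 / 729 * (1 / (512 * 2 ^ (s.re - 9))) * (1 / (m : ℝ) ^ 2) := by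
          field_simp
    have t4 : (∑' n : ℕ, 1 / ((n + 3 : ℕ) : ℝ) ^ 2) ≤ 5 / 12 := by
      have hz2 : HasSum (fun n : ℕ => 1 / (n : ℝ) ^ 2) (Real.pi ^ 2 / 6) := hasSum_zeta_two
      have h3 := hz2.summable.sum_add_tsum_nat_add 3
      rw [hz2.tsum_eq] at h3
      simp only [Finset.sum_range_succ, Finset.sum_range_zero] at h3
      have hpi : Real.pi ^ 2 < 10 := by
        have := Real.pi_lt_d2
        have h0 := Real.pi_pos
        nlinarith
      norm_num at h3 ⊢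
      linarith
    rw [hL, ← h3]
    simp only [Finset.sum_range_succ, Finset.sum_range_zero, t0, t1, zero_add]
    have h4 := norm_sub_le_norm_add (LSeries.term (LSeries.logMul 1) s 2)
      (∑' n : ℕ, LSeries.term (LSeries.logMul 1) s (n + 3))
    have h5 : (2 : ℝ) ^ (-(11 : ℝ)) ≤ 2 ^ (-s.re) :=
      Real.rpow_le_rpow_of_exponent_le (by norm_num) (by linarith)
    have h6 : (0 : ℝ) < 2 ^ (-s.re) := by positivity
    have h7 := Real.log_two_gt_d9
    have h8 : (512 / 729 * 2 ^ (-s.re)) * (∑' n : ℕ, 1 / ((n + 3 : ℕ) : ℝ) ^ 2)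
        ≤ (512 / 729 * 2 ^ (-s.re)) * (5 / 12) := by gcongr
    have h9 : (0.69 : ℝ) * 2 ^ (-s.re) ≤ Real.log 2 * 2 ^ (-s.re) := by
      gcongr; linarith
    rw [t2] at h4
    have h10 := t3.trans h8
    refine le_trans ?_ h4
    generalize (2 : ℝ) ^ (-(11 : ℝ)) = B at *
    generalize (2 : ℝ) ^ (-s.re) = A at *
    linarith
  · have hd : DiffContOnCl ℂ riemannZeta (ball s 1) := by
      apply DifferentiableOn.diffContOnCl
      intro w hw
      have hw' : ‖w - s‖ ≤ 1 := by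
        have := closure_ball_subset_closedBall hw
        simpa [dist_eq_norm] using this
      have : |w.re - s.re| ≤ 1 := by
        have := (Complex.abs_re_le_norm (w - s)).trans hw'
        simpa using this
      have hw1 : w ≠ 1 := by
        rintro rfl
        have := abs_le.mp this
        simp at this
        linarith
      exact (differentiableAt_riemannZeta hw1).differentiableWithinAt
    have hb : ∀ z ∈ sphere s 1, ‖riemannZeta z‖ ≤ 2 := by
      intro z hz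
      apply zeta_upper
      have hz' : ‖z - s‖ = 1 := by simpa [dist_eq_norm] using hz
      have : |z.re - s.re| ≤ 1 := by
        have := (Complex.abs_re_le_norm (z - s)).trans hz'.le
        simpa using this
      have := abs_le.mp this
      linarith
    have := Complex.norm_iteratedDeriv_le_of_forall_mem_sphere_norm_le 2 one_pos hd hb
    rw [iteratedDeriv_succ, iteratedDeriv_one] at this
    norm_num at this
    exact this

end Pool.Agent.ZP
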