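import Pool.Agent.Lib.MP_af3d17_nt_h98.Defs

set_option autoImplicit false
set_option linter.unusedVariables false

namespace Pool.Agent.ZP

open Filter Topology Metric

namespace Psi

/-! ### the digamma function on the positive reals -/

lemma ne_neg_of_re {s : ℂ} (hs : 0 < s.re) (m : ℕ) : s ≠ -(m : ℂ) := by
  intro h
  rw [h] at hs
  simp at hs
  have : (0 : ℝ) ≤ m := Nat.cast_nonneg m
  linarith

lemma ne_neg_of_im {s : ℂ} (hs : s.im ≠ 0) (m : ℕ) : s ≠ -(m : ℂ) := by
  intro h
  apply hs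
  rw [h]
  simp

lemma digamma_real {x : ℝ} (hx : 0 < x) : ∃ d : ℝ, Complex.digamma x = (d : ℂ) ∧
    HasDerivAt (Real.log ∘ Real.Gamma) d x := by
  have hG : DifferentiableAt ℝ Real.Gamma x := Real.differentiableAt_Gamma (fun m h => by
    rw [h] at hx; have : (0 : ℝ) ≤ m := Nat.cast_nonneg m; linarith)
  have hne : Real.Gamma x ≠ 0 := (Real.Gamma_pos_of_pos hx).ne'
  refine ⟨deriv Real.Gamma x / Real.Gamma x, ?_, ?_⟩
  · have hC : DifferentiableAt ℂ Complex.Gamma (x : ℂ) :=
      Complex.differentiableAt_Gamma _ (ne_neg_of_re (by simpa using hx))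
    have h1 : HasDerivAt (fun y : ℝ => Complex.Gamma y) (deriv Complex.Gamma x) x :=
      hC.hasDerivAt.comp_ofReal
    have h2 : HasDerivAt (fun y : ℝ => ((Real.Gamma y : ℝ) : ℂ))
        ((deriv Real.Gamma x : ℝ) : ℂ) x := hG.hasDerivAt.ofReal_comp
    have h3 : (fun y : ℝ => Complex.Gamma y) = fun y : ℝ => ((Real.Gamma y : ℝ) : ℂ) := by
      funext y; exact Complex.Gamma_ofReal y
    rw [h3] at h1
    rw [Complex.digamma_def, logDeriv_apply, h1.unique h2, Complex.Gamma_ofReal]
    push_cast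
    rfl
  · exact hG.hasDerivAt.log hne

lemma digamma_real_bound {x : ℝ} (hx : 1 < x) :
    ‖Complex.digamma x - (Real.log x : ℂ)‖ ≤ 1 / (x - 1) := by
  have hx0 : 0 < x := by linarith
  obtain ⟨d, hd, hder⟩ := digamma_real hx0
  rw [hd, ← Complex.ofReal_sub, Complex.norm_real, Real.norm_eq_abs]
  have hlog : ∀ y : ℝ, 0 < y → Real.log (Real.Gamma (y + 1)) = Real.log y + Real.log (Real.Gamma y) := by
    intro y hy
    rw [Real.Gamma_add_one hy.ne', Real.log_mul hy.ne' (Real.Gamma_pos_of_pos hy).ne']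
  have h1 : d ≤ Real.log x := by
    have := Real.convexOn_log_Gamma.le_slope_of_hasDerivAt (x := x) (y := x + 1)
      (Set.mem_Ioi.mpr hx0) (Set.mem_Ioi.mpr (by linarith)) (by linarith) hder
    rw [slope_def_field] at this
    simp only [Function.comp_apply] at this
    rw [hlog x hx0] at this
    have e : (Real.log x + Real.log (Real.Gamma x) - Real.log (Real.Gamma x)) / (x + 1 - x)
        = Real.log x := by field_simp; ring
    linarith
  have h2 : Real.log (x - 1) ≤ d := by
    have := Real.convexOn_log_Gamma.slope_le_of_hasDerivAt (x := x - 1) (y := x)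
      (Set.mem_Ioi.mpr (by linarith)) (Set.mem_Ioi.mpr hx0) (by linarith) hder
    rw [slope_def_field] at this
    simp only [Function.comp_apply] at this
    have h3 := hlog (x - 1) (by linarith)
    rw [sub_add_cancel] at h3
    rw [h3] at this
    have e : (Real.log (x - 1) + Real.log (Real.Gamma (x - 1)) - Real.log (Real.Gamma (x - 1)))
        / (x - (x - 1)) = Real.log (x - 1) := by
      have : x - (x - 1) = 1 := by ring
      rw [this]; ring
    linarith
  have h3 : Real.log x - Real.log (x - 1) ≤ 1 / (x - 1) := by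
    rw [← Real.log_div hx0.ne' (by linarith)]
    have h4 := Real.log_le_sub_one_of_pos (x := x / (x - 1)) (by
      apply div_pos hx0; linarith)
    have h5 : x / (x - 1) - 1 = 1 / (x - 1) := by
      have : x - 1 ≠ 0 := by linarith
      field_simp
      ring
    linarith
  rw [abs_le]
  constructor <;> linarith

/-! ### the increments -/

/-- `log (1 + 1/z) - 1/z` -/
noncomputable def h (z : ℂ) : ℂ := Complex.log (1 + z⁻¹) - z⁻¹

lemma norm_h {z : ℂ} (hz : 2 ≤ ‖z‖) : ‖h z‖ ≤ 1 / ‖z‖ ^ 2 := by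
  have h0 : 0 < ‖z‖ := by linarith
  have h1 : ‖z⁻¹‖ ≤ 1 / 2 := by
    rw [norm_inv, inv_eq_one_div]
    exact one_div_le_one_div_of_le (by norm_num) hz
  refine (Complex.norm_log_one_add_sub_self_le (lt_of_le_of_lt h1 (by norm_num))).trans ?_
  have h2 : (1 - ‖z⁻¹‖)⁻¹ ≤ 2 := by
    rw [inv_le_comm₀ (by linarith) (by norm_num)]
    linarith
  calc ‖z⁻¹‖ ^ 2 * (1 - ‖z⁻¹‖)⁻¹ / 2 ≤ ‖z⁻¹‖ ^ 2 * 2 / 2 := by gcongr
    _ = 1 / ‖z‖ ^ 2 := by rw [norm_inv]; field_simp

/-- `log (z+1) = log z + log (1 + 1/z)` in the closed upper half plane, away from the negative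
real axis -/
lemma log_add_one {z : ℂ} (hz : 0 < z.im ∨ 0 < z.re) :
    Complex.log (z + 1) = Complex.log z + Complex.log (1 + z⁻¹) := by
  have hz0 : z ≠ 0 := by
    rintro rfl
    simp at hz
  have hns : 0 < Complex.normSq z := Complex.normSq_pos.mpr hz0
  have e : z + 1 = z * (1 + z⁻¹) := by field_simp
  have hz1 : 1 + z⁻¹ ≠ 0 := by
    intro h0
    rw [h0, mul_zero] at e
    have hi := congrArg Complex.im e
    have hr := congrArg Complex.re e
    simp at hi hr
    rcases hz with hz | hz <;> linarith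
  rw [e, Complex.log_mul_eq_add_log_iff hz0 hz1]
  rcases hz with hz | hz
  · have h1 : (1 + z⁻¹).im < 0 := by
      rw [Complex.add_im, Complex.one_im, zero_add, Complex.inv_im]
      apply div_neg_of_neg_of_pos (by linarith) hns
    have h2 : Complex.arg (1 + z⁻¹) < 0 := Complex.arg_neg_iff.mpr h1
    have h3 : 0 ≤ Complex.arg z := Complex.arg_nonneg_iff.mpr hz.le
    have h4 := Complex.neg_pi_lt_arg (1 + z⁻¹)
    have h5 := Complex.arg_le_pi z
    constructor <;> linarith
  · have h1 : 0 < (1 + z⁻¹).re := by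
      rw [Complex.add_re, Complex.one_re, Complex.inv_re]
      have := div_pos hz hns
      linarith
    have h2 := abs_lt.mp (Complex.abs_arg_lt_pi_div_two_iff.mpr (Or.inl h1))
    have h3 := abs_lt.mp (Complex.abs_arg_lt_pi_div_two_iff.mpr (Or.inl hz))
    constructor <;> linarith [h2.1, h2.2, h3.1, h3.2]

/-- telescoping -/
lemma digamma_tele {s : ℂ} (hs : 0 < s.im ∨ 0 < s.re) (N : ℕ) :
    Complex.digamma s - Complex.log s = (Complex.digamma (s + N) - Complex.log (s + N))
      + ∑ k ∈ Finset.range N, h (s + k) := by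
  induction N with
  | zero => simp
  | succ N ih =>
    have hsN : 0 < (s + N).im ∨ 0 < (s + N).re := by
      rcases hs with hs | hs
      · left; simpa using hs
      · right
        have : (0 : ℝ) ≤ N := Nat.cast_nonneg N
        simp
        linarith
    have hne : ∀ m : ℕ, s + N ≠ -(m : ℂ) := by
      rcases hsN with h1 | h1
      · exact ne_neg_of_im h1.ne'
      · exact ne_neg_of_re h1
    rw [ih, Finset.sum_range_succ]
    have e1 := Complex.digamma_apply_add_one (s + N) hne
    have e2 := log_add_one hsN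
    push_cast
    rw [← add_assoc s (N : ℂ) 1, e1, e2, h]
    ring

/-! ### sums -/

lemma sum_sq_le (y t : ℝ) (ht : 2 ≤ t) (N : ℕ) :
    ∑ k ∈ Finset.range N, 1 / ((y + k) ^ 2 + t ^ 2) ≤ 2 * Real.pi / t := by
  have ht0 : 0 < t := by linarith
  set A : ℝ → ℝ := fun x => Real.arctan (x / t) / t with hA
  have hder : ∀ x, HasDerivAt A (1 / (x ^ 2 + t ^ 2)) x := by
    intro x
    have hp : 0 < x ^ 2 + t ^ 2 := by positivity
    have h1 : HasDerivAt (fun x : ℝ => x / t) (1 / t) x := (hasDerivAt_id x).div_const t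
    refine ((h1.arctan).div_const t).congr_deriv ?_
    field_simp
    ring
  have hstep : ∀ x : ℝ, 1 / (x ^ 2 + t ^ 2) ≤ 2 * (A (x + 1) - A x) := by
    intro x
    obtain ⟨ξ, hξ, hs⟩ := exists_hasDerivAt_eq_slope A (fun x => 1 / (x ^ 2 + t ^ 2))
      (show x < x + 1 by linarith)
      (fun x _ => (hder x).continuousAt.continuousWithinAt) (fun x _ => hder x)
    have e : A (x + 1) - A x = 1 / (ξ ^ 2 + t ^ 2) := by rw [hs]; ring
    rw [e]
    have h1 : ξ ^ 2 + t ^ 2 ≤ 2 * (x ^ 2 + t ^ 2) := by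
      nlinarith [hξ.1, hξ.2, sq_nonneg (x + (x - ξ)), sq_nonneg (ξ - x), sq_nonneg x]
    have hp : 0 < ξ ^ 2 + t ^ 2 := by positivity
    have hp' : 0 < x ^ 2 + t ^ 2 := by positivity
    rw [div_le_iff₀ hp', mul_assoc, one_div, ← div_eq_inv_mul, ← mul_div_assoc, le_div_iff₀ hp]
    linarith
  have htel : ∑ k ∈ Finset.range N, 1 / ((y + k) ^ 2 + t ^ 2) ≤ 2 * (A (y + N) - A y) := by
    induction N with
    | zero => simp
    | succ N ih =>
      rw [Finset.sum_range_succ]
      have := hstep (y + N)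
      push_cast
      rw [← add_assoc y (N : ℝ) 1]
      linarith
  refine htel.trans ?_
  have h1 := (Real.arctan_lt_pi_div_two ((y + N) / t)).le
  have h2 := (Real.neg_pi_div_two_lt_arctan (y / t)).le
  have e : 2 * (A (y + N) - A y)
      = 2 * (Real.arctan ((y + N) / t) - Real.arctan (y / t)) / t := by
    simp only [hA]; ring
  rw [e]
  gcongr
  linarith

lemma norm_h_le {s : ℂ} (hs : 2 ≤ s.im) (k : ℕ) : ‖h (s + k)‖ ≤ 1 / ((s.re + k) ^ 2 + s.im ^ 2) := by
  have h1 : ‖s + k‖ ^ 2 = (s.re + k) ^ 2 + s.im ^ 2 := by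
    rw [← Complex.normSq_eq_norm_sq, Complex.normSq_apply]
    simp
    ring
  have h2 : 2 ≤ ‖s + k‖ := by
    refine hs.trans ?_
    have := Complex.abs_im_le_norm (s + k)
    simp only [Complex.add_im, Complex.natCast_im, add_zero] at this
    exact (le_abs_self _).trans this
  rw [← h1]
  exact norm_h h2

lemma norm_h_le' {s : ℂ} (hs : 2 < s.re) (k : ℕ) : ‖h (s + k)‖ ≤ 1 / ((k : ℝ) + 1) ^ 2 := by
  have h2 : (k : ℝ) + 2 ≤ ‖s + k‖ := by
    have := Complex.re_le_norm (s + k)
    simp only [Complex.add_re, Complex.natCast_re] at this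
    linarith
  have h3 : (0 : ℝ) ≤ k := Nat.cast_nonneg k
  refine (norm_h (by linarith)).trans ?_
  gcongr
  linarith

lemma summable_u : Summable fun k : ℕ => 1 / ((k : ℝ) + 1) ^ 2 := by
  have := (summable_nat_add_iff 1).mpr (Real.summable_one_div_nat_pow.mpr (le_refl 2) :
    Summable fun k : ℕ => 1 / (k : ℝ) ^ 2)
  simpa using this

/-- the right half plane -/
def U : Set ℂ := {s | 2 < s.re}

lemma U_open : IsOpen U := isOpen_lt continuous_const Complex.continuous_re

lemma U_conn : IsPreconnected U := (convex_halfSpace_re_gt 2).isPreconnected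

lemma diff_h {s : ℂ} (hs : s ∈ U) (k : ℕ) : DifferentiableAt ℂ (fun s => h (s + k)) s := by
  have hs' : 2 < s.re := hs
  have hk : (0 : ℝ) ≤ k := Nat.cast_nonneg k
  have hre : 0 < (s + k).re := by simp; linarith
  have hne : s + k ≠ 0 := by
    intro h0
    rw [h0] at hre
    simp at hre
  have hns : 0 < Complex.normSq (s + k) := Complex.normSq_pos.mpr hne
  have h1 : DifferentiableAt ℂ (fun s : ℂ => (s + k)⁻¹) s :=
    (differentiableAt_id.add_const _).inv hne
  unfold h
  refine ((h1.const_add 1).clog ?_).sub h1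
  rw [Complex.mem_slitPlane_iff]
  left
  rw [Complex.add_re, Complex.one_re, Complex.inv_re]
  have := div_pos hre hns
  linarith

/-- the slit domain -/
def W : Set ℂ := {s | s.im ≠ 0} ∪ {s | 0 < s.re}

lemma W_open : IsOpen W :=
  (isOpen_ne_fun Complex.continuous_im continuous_const).union
    (isOpen_lt continuous_const Complex.continuous_re)

lemma W_ne {s : ℂ} (hs : s ∈ W) (m : ℕ) : s ≠ -(m : ℂ) := by
  rcases hs with hs | hs
  · exact ne_neg_of_im hs m
  · exact ne_neg_of_re hs m

lemma digamma_analytic {s : ℂ} (hs : s ∈ W) : AnalyticAt ℂ Complex.digamma s := by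
  have hG : AnalyticAt ℂ Complex.Gamma s :=
    DifferentiableOn.analyticAt (s := W)
      (fun z hz => (Complex.differentiableAt_Gamma z (W_ne hz)).differentiableWithinAt)
      (W_open.mem_nhds hs)
  rw [Complex.digamma_def]
  exact hG.deriv.div hG (Complex.Gamma_ne_zero (W_ne hs))

lemma U_sub_W {s : ℂ} (hs : s ∈ U) : s ∈ W := by
  right
  have : 2 < s.re := hs
  show 0 < s.re
  linarith

/-- the sum of the increments -/
noncomputable def T (s : ℂ) : ℂ := ∑' k : ℕ, h (s + k)

lemma T_diff : DifferentiableOn ℂ T U := by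
  refine Complex.differentiableOn_tsum_of_summable_norm summable_u
    (fun k s hs => (diff_h hs k).differentiableWithinAt) U_open ?_
  intro k s hs
  exact norm_h_le' hs k

lemma real_case {x : ℝ} (hx : 2 < x) :
    Complex.digamma x = Complex.log x + T x := by
  have hxU : ((x : ℂ)) ∈ U := by show 2 < ((x : ℂ)).re; simpa using hx
  have hsum : Summable fun k : ℕ => h ((x : ℂ) + k) :=
    Summable.of_norm_bounded summable_u (fun k => norm_h_le' hxU k)
  have h1 : Tendsto (fun N : ℕ => (Complex.digamma ((x : ℂ) + N) - Complex.log ((x : ℂ) + N))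
      + ∑ k ∈ Finset.range N, h ((x : ℂ) + k)) atTop (𝓝 (0 + T x)) := by
    refine Tendsto.add ?_ hsum.hasSum.tendsto_sum_nat
    have h2 : Tendsto (fun N : ℕ => 1 / (x + N - 1)) atTop (𝓝 0) := by
      have h3 : Tendsto (fun N : ℕ => x + N - 1) atTop atTop := by
        have := tendsto_atTop_add_const_left atTop (x - 1) tendsto_natCast_atTop_atTop
        refine this.congr fun N => by ring
      exact h3.const_div_atTop 1
    refine squeeze_zero_norm (fun N => ?_) h2
    have hN : (0 : ℝ) ≤ N := Nat.cast_nonneg N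
    have := digamma_real_bound (x := x + N) (by linarith)
    rw [Complex.ofReal_log (by linarith)] at this
    push_cast at this
    exact this
  have h4 : (fun N : ℕ => (Complex.digamma ((x : ℂ) + N) - Complex.log ((x : ℂ) + N))
      + ∑ k ∈ Finset.range N, h ((x : ℂ) + k))
      = fun _ => Complex.digamma x - Complex.log x := by
    funext N
    exact (digamma_tele (Or.inr (by simp; linarith)) N).symm
  rw [h4] at h1
  have := tendsto_nhds_unique tendsto_const_nhds h1
  rw [zero_add] at this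
  rw [← this]
  ring

lemma digamma_eq {s : ℂ} (hs : s ∈ U) : Complex.digamma s = Complex.log s + T s := by
  have hslit : ∀ z ∈ U, z ∈ Complex.slitPlane := by
    intro z hz
    have : 2 < z.re := hz
    rw [Complex.mem_slitPlane_iff]
    left
    linarith
  have ha : AnalyticOnNhd ℂ Complex.digamma U := fun z hz => digamma_analytic (U_sub_W hz)
  have hb : AnalyticOnNhd ℂ (fun z => Complex.log z + T z) U := by
    refine DifferentiableOn.analyticOnNhd ?_ U_open
    exact (DifferentiableOn.clog differentiableOn_id hslit).add T_diff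
  have h3 : (3 : ℂ) ∈ U := by show 2 < (3 : ℂ).re; norm_num
  refine ha.eqOn_of_preconnected_of_frequently_eq hb U_conn h3 ?_ hs
  have ht : Tendsto (fun x : ℝ => (x : ℂ)) (𝓝[≠] (3 : ℝ)) (𝓝[≠] (3 : ℂ)) := by
    refine tendsto_nhdsWithin_of_tendsto_nhds_of_eventually_within _ ?_ ?_
    · have := (Complex.continuous_ofReal.tendsto 3).mono_left
        (nhdsWithin_le_nhds (s := {(3 : ℝ)}ᶜ))
      simpa using this
    · filter_upwards [self_mem_nhdsWithin] with x hx
      intro h0
      apply hx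
      have h0' : (x : ℂ) = 3 := h0
      exact_mod_cast h0'
  refine ht.frequently (Eventually.frequently ?_)
  have : ∀ᶠ x : ℝ in 𝓝[≠] (3 : ℝ), 2 < x :=
    nhdsWithin_le_nhds ((isOpen_lt continuous_const continuous_id).mem_nhds (by norm_num))
  filter_upwards [this] with x hx
  exact real_case hx

/-- asymptotics of the digamma function in the upper half plane -/
theorem digamma_bound {s : ℂ} (hs : 2 ≤ s.im) :
    ‖Complex.digamma s - Complex.log s‖ ≤ 2 * Real.pi / s.im := by
  have hlim : Tendsto (fun N : ℕ => Complex.digamma (s + N) - Complex.log (s + N)) atTop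
      (𝓝 0) := by
    have h1 : Tendsto (fun N : ℕ => ∑' k : ℕ, h (s + ((k + N : ℕ) : ℂ))) atTop (𝓝 0) :=
      tendsto_sum_nat_add (fun k : ℕ => h (s + (k : ℂ)))
    refine h1.congr' ?_
    obtain ⟨N0, hN0⟩ := exists_nat_gt (2 - s.re)
    filter_upwards [eventually_ge_atTop N0] with N hN
    have hU : s + N ∈ U := by
      show 2 < (s + N).re
      have : (N0 : ℝ) ≤ N := by exact_mod_cast hN
      simp
      linarith
    rw [digamma_eq hU, T, add_sub_cancel_left]
    refine tsum_congr fun k => ?_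
    congr 1
    push_cast
    ring
  have hle : ∀ N : ℕ, ‖Complex.digamma s - Complex.log s‖ ≤
      ‖Complex.digamma (s + N) - Complex.log (s + N)‖ + 2 * Real.pi / s.im := by
    intro N
    rw [digamma_tele (Or.inl (by linarith)) N]
    refine (norm_add_le _ _).trans (add_le_add le_rfl ?_)
    refine (norm_sum_le _ _).trans ?_
    refine (Finset.sum_le_sum fun k _ => norm_h_le hs k).trans ?_
    exact sum_sq_le s.re s.im hs N
  have h2 := (hlim.norm.add_const (2 * Real.pi / s.im))
  rw [norm_zero, zero_add] at h2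
  exact ge_of_tendsto' h2 hle

/-! ### symmetry -/

lemma digamma_conj (s : ℂ) :
    Complex.digamma ((starRingEnd ℂ) s) = (starRingEnd ℂ) (Complex.digamma s) := by
  have h1 : ((starRingEnd ℂ) ∘ Complex.Gamma ∘ (starRingEnd ℂ)) = Complex.Gamma := by
    funext z
    simp only [Function.comp_apply]
    rw [Complex.Gamma_conj, Complex.conj_conj]
  have h2 : deriv Complex.Gamma ((starRingEnd ℂ) s) = (starRingEnd ℂ) (deriv Complex.Gamma s) := by
    have := congrFun (deriv_conj_conj (f := Complex.Gamma)) ((starRingEnd ℂ) s)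
    rw [h1] at this
    rw [this]
    simp only [Function.comp_apply, Complex.conj_conj]
  rw [Complex.digamma_def, logDeriv_apply, logDeriv_apply, h2, Complex.Gamma_conj, map_div₀]

lemma deriv_zeta_conj (s : ℂ) :
    deriv riemannZeta ((starRingEnd ℂ) s) = (starRingEnd ℂ) (deriv riemannZeta s) := by
  have h1 : ((starRingEnd ℂ) ∘ riemannZeta ∘ (starRingEnd ℂ)) = riemannZeta := by
    funext z
    simp only [Function.comp_apply]
    rw [riemannZeta_conj, Complex.conj_conj]
  have := congrFun (deriv_conj_conj (f := riemannZeta)) ((starRingEnd ℂ) s)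
  rw [h1] at this
  rw [this]
  simp only [Function.comp_apply, Complex.conj_conj]

lemma Lam_eq (w : ℂ) : Lam w = (Complex.digamma (w / 2) +
    (starRingEnd ℂ) (Complex.digamma ((1 - (starRingEnd ℂ) w) / 2))) / 2
      - (Real.log Real.pi : ℂ) := by
  rw [Lam, ← digamma_conj]
  congr 5
  rw [map_div₀, map_sub, map_one, Complex.conj_conj, map_ofNat]

/-- near the imaginary direction -/
lemma log_near {t x : ℝ} (ht : 0 < t) (hx : |x| ≤ t / 2) :
    ‖Complex.log ((x : ℂ) + t * Complex.I) - ((Real.log t : ℝ) + (Real.pi / 2 : ℝ) * Complex.I)‖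
      ≤ 3 / 2 * (|x| / t) := by
  have e : (x : ℂ) + t * Complex.I = (t : ℂ) * (Complex.I * (1 + (-(x / t : ℝ) : ℂ) * Complex.I)) := by
    have : (t : ℂ) ≠ 0 := by exact_mod_cast ht.ne'
    push_cast
    field_simp
    ring_nf
    rw [Complex.I_sq]
    ring
  have hn : ‖(-(x / t : ℝ) : ℂ) * Complex.I‖ = |x| / t := by
    rw [norm_mul, Complex.norm_I, mul_one, norm_neg, Complex.norm_real, Real.norm_eq_abs, abs_div,
      abs_of_pos ht]
  have hn2 : ‖(-(x / t : ℝ) : ℂ) * Complex.I‖ ≤ 1 / 2 := by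
    rw [hn, div_le_iff₀ ht]; linarith
  have hre : 0 < (1 + (-(x / t : ℝ) : ℂ) * Complex.I).re := by simp
  have hne : (1 + (-(x / t : ℝ) : ℂ) * Complex.I) ≠ 0 := by
    intro h0; rw [h0] at hre; simp at hre
  have harg := abs_lt.mp (Complex.abs_arg_lt_pi_div_two_iff.mpr (Or.inl hre))
  have hlog : Complex.log (Complex.I * (1 + (-(x / t : ℝ) : ℂ) * Complex.I))
      = Complex.log Complex.I + Complex.log (1 + (-(x / t : ℝ) : ℂ) * Complex.I) := by
    rw [Complex.log_mul_eq_add_log_iff Complex.I_ne_zero hne, Complex.arg_I]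
    have := Real.pi_pos
    constructor <;> linarith [harg.1, harg.2]
  rw [e, Complex.log_ofReal_mul ht (mul_ne_zero Complex.I_ne_zero hne), hlog, Complex.log_I]
  have e2 : ((Real.log t : ℝ) : ℂ) + (((Real.pi : ℝ) : ℂ) / 2 * Complex.I
      + Complex.log (1 + (-(x / t : ℝ) : ℂ) * Complex.I))
      - ((Real.log t : ℝ) + (Real.pi / 2 : ℝ) * Complex.I)
      = Complex.log (1 + (-(x / t : ℝ) : ℂ) * Complex.I) := by
    push_cast
    ring
  rw [e2]
  refine (Complex.norm_log_one_add_half_le_self hn2).trans ?_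
  rw [hn]

/-- the digamma function in vertical strips -/
lemma digamma_strip {z : ℂ} {c : ℝ} (hc : |z.re| ≤ c) (h2 : 2 ≤ z.im) (h3 : 2 * c ≤ z.im) :
    ‖Complex.digamma z - ((Real.log z.im : ℝ) + (Real.pi / 2 : ℝ) * Complex.I)‖
      ≤ (2 * Real.pi + 3 / 2 * c) / z.im := by
  have h0 : 0 < z.im := by linarith
  have h4 := digamma_bound h2
  have h5 := log_near (x := z.re) h0 (by linarith)
  rw [Complex.re_add_im] at h5
  have e : Complex.digamma z - ((Real.log z.im : ℝ) + (Real.pi / 2 : ℝ) * Complex.I)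
      = (Complex.digamma z - Complex.log z) + (Complex.log z
        - ((Real.log z.im : ℝ) + (Real.pi / 2 : ℝ) * Complex.I)) := by ring
  rw [e]
  refine (norm_add_le _ _).trans ((add_le_add h4 h5).trans ?_)
  rw [add_div, mul_div_assoc (3 / 2 : ℝ)]
  gcongr

end Psi

/-! ### the function `Λ` -/

open Psi

theorem Lam_analytic {w : ℂ} (hw : 0 < w.im) : AnalyticAt ℂ Lam w := by
  have h1 : AnalyticAt ℂ Complex.digamma (w / 2) := by
    apply digamma_analytic
    left
    show (w / 2).im ≠ 0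
    have : (w / 2).im = w.im / 2 := by simp
    rw [this]
    positivity
  have h2 : AnalyticAt ℂ Complex.digamma ((1 - w) / 2) := by
    apply digamma_analytic
    left
    show ((1 - w) / 2).im ≠ 0
    have : ((1 - w) / 2).im = -(w.im / 2) := by simp; ring
    rw [this]
    apply neg_ne_zero.mpr
    positivity
  have h3 : AnalyticAt ℂ (fun w : ℂ => w / 2) w := by fun_prop
  have h4 : AnalyticAt ℂ (fun w : ℂ => (1 - w) / 2) w := by fun_prop
  have h5 : AnalyticAt ℂ (fun w : ℂ => Complex.digamma (w / 2)) w := h1.comp_of_eq h3 rfl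
  have h6 : AnalyticAt ℂ (fun w : ℂ => Complex.digamma ((1 - w) / 2)) w := h2.comp_of_eq h4 rfl
  have h7 : AnalyticAt ℂ (fun _ : ℂ => (2 : ℂ)) w := analyticAt_const
  unfold Lam
  exact ((h5.add h6).div h7 (by norm_num)).sub analyticAt_const

theorem Lam_symm {w : ℂ} (hw : 0 < w.im) :
    Lam (1 - (starRingEnd ℂ) w) = (starRingEnd ℂ) (Lam w) := by
  have e1 : (starRingEnd ℂ) (Complex.digamma (w / 2))
      = Complex.digamma ((starRingEnd ℂ) w / 2) := by
    rw [← digamma_conj, map_div₀, map_ofNat]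
  have e2 : (starRingEnd ℂ) (Complex.digamma ((1 - w) / 2))
      = Complex.digamma ((1 - (starRingEnd ℂ) w) / 2) := by
    rw [← digamma_conj, map_div₀, map_ofNat, map_sub, map_one]
  rw [Lam, Lam, map_sub, map_div₀, map_add, e1, e2, map_ofNat, Complex.conj_ofReal,
    sub_sub_cancel, add_comm]

lemma re_half (w : ℂ) : (w / 2).re = w.re / 2 := by simp
lemma im_half (w : ℂ) : (w / 2).im = w.im / 2 := by simp

/-- in vertical strips `Λ(w) = log (t/2π) + O(1/t)` -/
theorem Lam_strip (a b : ℝ) : ∃ C T : ℝ, 1 ≤ T ∧ ∀ w : ℂ, a ≤ w.re → w.re ≤ b → T ≤ w.im →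
    ‖Lam w - (Lt w.im : ℂ)‖ ≤ C / w.im := by
  set c : ℝ := (|a| + |b| + 1) / 2 with hc
  have hc0 : 0 < c := by positivity
  refine ⟨2 * (2 * Real.pi + 3 / 2 * c), max 4 (4 * c), (by norm_num : (1 : ℝ) ≤ 4).trans
    (le_max_left _ _), fun w ha hb hT => ?_⟩
  have hT4 : 4 ≤ w.im := (le_max_left _ _).trans hT
  have hTc : 4 * c ≤ w.im := (le_max_right _ _).trans hT
  have ht : 0 < w.im := by linarith
  have habs : |w.re| ≤ |a| + |b| := by
    rw [abs_le]
    constructor
    · have := neg_abs_le a; have := abs_nonneg b; linarith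
    · have := le_abs_self b; have := abs_nonneg a; linarith
  have e0 : ((1 - (starRingEnd ℂ) w) / 2).re = (1 - w.re) / 2 := by rw [re_half]; simp
  have e1 : ((1 - (starRingEnd ℂ) w) / 2).im = w.im / 2 := by rw [im_half]; simp
  have h1 := digamma_strip (z := w / 2) (c := c) (by
    rw [re_half, abs_div, abs_two, hc]
    gcongr
    linarith) (by rw [im_half]; linarith) (by rw [im_half]; linarith)
  have h2 := digamma_strip (z := (1 - (starRingEnd ℂ) w) / 2) (c := c) (by
    rw [e0, abs_div, abs_two, hc]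
    gcongr
    have : |1 - w.re| ≤ 1 + |w.re| := by
      have := abs_sub (1 : ℝ) w.re
      simpa using this
    linarith) (by rw [e1]; linarith) (by rw [e1]; linarith)
  rw [im_half] at h1
  rw [e1] at h2
  set z1 := Complex.digamma (w / 2) - ((Real.log (w.im / 2) : ℝ) + (Real.pi / 2 : ℝ) * Complex.I)
    with hz1
  set z2 := Complex.digamma ((1 - (starRingEnd ℂ) w) / 2)
    - ((Real.log (w.im / 2) : ℝ) + (Real.pi / 2 : ℝ) * Complex.I) with hz2
  have e2 : Lam w - (Lt w.im : ℂ) = (z1 + (starRingEnd ℂ) z2) / 2 := by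
    have hL : Lt w.im = Real.log (w.im / 2) - Real.log Real.pi := by
      rw [Lt, ← Real.log_div (by positivity) Real.pi_ne_zero]
      congr 1
      field_simp
    rw [Lam_eq, hL, hz1, hz2]
    simp only [map_sub, map_add, map_mul, Complex.conj_I, Complex.conj_ofReal]
    push_cast
    ring
  rw [e2, norm_div]
  have h3 : ‖z1 + (starRingEnd ℂ) z2‖ ≤ ‖z1‖ + ‖z2‖ := by
    refine (norm_add_le _ _).trans (le_of_eq ?_)
    rw [RCLike.norm_conj]
  rw [show ‖(2 : ℂ)‖ = 2 by simp, div_le_iff₀ (by norm_num)]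
  refine h3.trans ((add_le_add h1 h2).trans (le_of_eq ?_))
  field_simp
  ring

/-- lower bound, uniform to the right -/
theorem Lam_lower (K : ℝ) : ∃ T : ℝ, ∀ w : ℂ, 1 / 2 ≤ w.re → T ≤ w.im → K ≤ (Lam w).re := by
  refine ⟨max 4 (2 * Real.pi * Real.exp (K + 4)), fun w _ hT => ?_⟩
  have hpi := Real.pi_pos
  have hpi4 := Real.pi_le_four
  have hT4 : 4 ≤ w.im := (le_max_left _ _).trans hT
  have hTK : 2 * Real.pi * Real.exp (K + 4) ≤ w.im := (le_max_right _ _).trans hT
  have ht : 0 < w.im := by linarith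
  have e1 : ((1 - (starRingEnd ℂ) w) / 2).im = w.im / 2 := by rw [im_half]; simp
  have key : ∀ z : ℂ, z.im = w.im / 2 → Real.log (w.im / 2) - 4 ≤ (Complex.digamma z).re := by
    intro z hz
    have h2 : 2 ≤ z.im := by rw [hz]; linarith
    have h1 := digamma_bound h2
    have h3 := (abs_le.mp ((Complex.abs_re_le_norm _).trans h1)).1
    rw [Complex.sub_re, Complex.log_re] at h3
    have h4 : Real.log (w.im / 2) ≤ Real.log ‖z‖ := by
      apply Real.log_le_log (by linarith)
      rw [← hz]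
      exact (le_abs_self _).trans (Complex.abs_im_le_norm z)
    have h5 : 2 * Real.pi / z.im ≤ 4 := by
      rw [div_le_iff₀ (by linarith)]
      nlinarith
    linarith
  have k1 := key (w / 2) (im_half w)
  have k2 := key _ e1
  have h6 : K + 4 ≤ Real.log (w.im / 2) - Real.log Real.pi := by
    rw [← Real.log_div (by positivity) hpi.ne', Real.le_log_iff_exp_le (by positivity),
      le_div_iff₀ hpi, le_div_iff₀ (by norm_num)]
    linarith
  have h7 : (Lam w).re = ((Complex.digamma (w / 2)).re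
      + (Complex.digamma ((1 - (starRingEnd ℂ) w) / 2)).re) / 2 - Real.log Real.pi := by
    rw [Lam_eq, Complex.sub_re, re_half, Complex.add_re, Complex.conj_re, Complex.ofReal_re]
  rw [h7]
  linarith

/-! ### the functional equation -/

namespace Psi

lemma hasDerivAt_Gammaℝ {s : ℂ} (hs : s.im ≠ 0) :
    HasDerivAt Complex.Gammaℝ (Complex.Gammaℝ s *
      (Complex.digamma (s / 2) / 2 - (Real.log Real.pi : ℂ) / 2)) s := by
  have hpi : (Real.pi : ℂ) ≠ 0 := by exact_mod_cast Real.pi_ne_zero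
  have hs2 : (s / 2).im ≠ 0 := by rw [im_half]; exact div_ne_zero hs (by norm_num)
  have hne := ne_neg_of_im hs2
  have h1 : HasDerivAt (fun s : ℂ => -s / 2) (-1 / 2) s := (hasDerivAt_id s).neg.div_const 2
  have h2 := h1.const_cpow (c := (Real.pi : ℂ)) (Or.inl hpi)
  have h3 : HasDerivAt (fun s : ℂ => s / 2) (1 / 2) s := (hasDerivAt_id s).div_const 2
  have h4 : HasDerivAt Complex.Gamma (deriv Complex.Gamma (s / 2)) (s / 2) :=
    (Complex.differentiableAt_Gamma _ hne).hasDerivAt
  have h5 : HasDerivAt (fun s : ℂ => Complex.Gamma (s / 2)) _ s :=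
    HasDerivAt.comp s h4 h3
  have h6 := h2.fun_mul h5
  have e : (fun s : ℂ => (Real.pi : ℂ) ^ (-s / 2) * Complex.Gamma (s / 2)) = Complex.Gammaℝ := by
    funext z; rw [Complex.Gammaℝ_def]
  rw [e] at h6
  refine h6.congr_deriv ?_
  rw [Complex.Gammaℝ_def, Complex.digamma_def, logDeriv_apply,
    Complex.ofReal_log Real.pi_pos.le]
  have hG := Complex.Gamma_ne_zero hne
  field_simp
  ring

lemma Gammaℝ_ne {s : ℂ} (hs : s.im ≠ 0) : Complex.Gammaℝ s ≠ 0 := by
  rw [Ne, Complex.Gammaℝ_eq_zero_iff]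
  rintro ⟨n, hn⟩
  apply hs
  rw [hn]
  simp

/-- the factor of the functional equation -/
noncomputable def X (w : ℂ) : ℂ := Complex.Gammaℝ w / Complex.Gammaℝ (1 - w)

lemma zeta_one_sub {w : ℂ} (hw : w.im ≠ 0) : riemannZeta (1 - w) = X w * riemannZeta w := by
  have hw' : (1 - w).im ≠ 0 := by simpa using hw
  have h0 : w ≠ 0 := by rintro rfl; simp at hw
  have h1 : 1 - w ≠ 0 := by intro h; rw [h] at hw'; simp at hw'
  have h2 := Gammaℝ_ne hw
  have h3 := Gammaℝ_ne hw'
  rw [riemannZeta_def_of_ne_zero h0, riemannZeta_def_of_ne_zero h1, completedRiemannZeta_one_sub,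
    X]
  field_simp

lemma hasDerivAt_X {w : ℂ} (hw : w.im ≠ 0) : HasDerivAt X (X w * Lam w) w := by
  have hw' : (1 - w).im ≠ 0 := by simpa using hw
  have h1 := hasDerivAt_Gammaℝ hw
  have h2 := hasDerivAt_Gammaℝ hw'
  have h3 : HasDerivAt (fun w : ℂ => 1 - w) (-1) w := by
    simpa using (hasDerivAt_id w).const_sub 1
  have h4 : HasDerivAt (fun w : ℂ => Complex.Gammaℝ (1 - w)) _ w := HasDerivAt.comp w h2 h3
  have h5 := h1.fun_div h4 (Gammaℝ_ne hw')
  refine h5.congr_deriv ?_
  have h6 := Gammaℝ_ne hw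
  have h7 := Gammaℝ_ne hw'
  rw [X, Lam]
  field_simp
  ring

end Psi

theorem funeq : ∃ X : ℂ → ℂ, ∀ w : ℂ, 0 < w.im → X w ≠ 0 ∧
    riemannZeta (1 - w) = X w * riemannZeta w ∧
    deriv riemannZeta (1 - w) = - (X w * EE w) := by
  refine ⟨Psi.X, fun w hw => ⟨?_, zeta_one_sub hw.ne', ?_⟩⟩
  · have hw' : (1 - w).im ≠ 0 := by
      simp only [Complex.sub_im, Complex.one_im, zero_sub]
      exact neg_ne_zero.mpr hw.ne'
    exact div_ne_zero (Gammaℝ_ne hw.ne') (Gammaℝ_ne hw')
  · have hz : ∀ z : ℂ, z.im ≠ 0 → HasDerivAt riemannZeta (deriv riemannZeta z) z := by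
      intro z hz
      apply DifferentiableAt.hasDerivAt
      apply differentiableAt_riemannZeta
      rintro rfl
      simp at hz
    have hw' : (1 - w).im ≠ 0 := by
      simp only [Complex.sub_im, Complex.one_im, zero_sub]
      exact neg_ne_zero.mpr hw.ne'
    have h3 : HasDerivAt (fun w : ℂ => 1 - w) (-1) w := by
      simpa using (hasDerivAt_id w).const_sub 1
    have h1 : HasDerivAt (fun w : ℂ => riemannZeta (1 - w)) _ w :=
      HasDerivAt.comp w (hz _ hw') h3
    have h2 := (hasDerivAt_X hw.ne').fun_mul (hz w hw.ne')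
    have h4 : (fun w : ℂ => riemannZeta (1 - w)) =ᶠ[𝓝 w]
        (fun w : ℂ => Psi.X w * riemannZeta w) := by
      have : ∀ᶠ z : ℂ in 𝓝 w, z.im ≠ 0 :=
        (isOpen_ne_fun Complex.continuous_im continuous_const).mem_nhds hw.ne'
      filter_upwards [this] with z hz
      exact zeta_one_sub hz
    have h5 := h1.unique (h2.congr_of_eventuallyEq h4)
    rw [EE]
    linear_combination -h5

lemma Psi.one_sub_conj {t : ℝ} : 1 - pt (1 / 2) t = (starRingEnd ℂ) (pt (1 / 2) t) := by
  apply Complex.ext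
  · simp; norm_num
  · simp

theorem re_logDeriv_line {t : ℝ} (ht : 0 < t) (h : riemannZeta (pt (1 / 2) t) ≠ 0) :
    2 * (logDeriv riemannZeta (pt (1 / 2) t)).re = - (Lam (pt (1 / 2) t)).re := by
  obtain ⟨X, hX⟩ := funeq
  obtain ⟨h0, h1, h2⟩ := hX (pt (1 / 2) t) ht
  rw [Psi.one_sub_conj] at h1 h2
  rw [riemannZeta_conj] at h1
  rw [Psi.deriv_zeta_conj] at h2
  have h3 : (starRingEnd ℂ) (logDeriv riemannZeta (pt (1 / 2) t))
      = - (logDeriv riemannZeta (pt (1 / 2) t)) - Lam (pt (1 / 2) t) := by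
    rw [logDeriv_apply, map_div₀, h1, h2, EE]
    field_simp
    ring
  have h4 := congrArg Complex.re h3
  rw [Complex.conj_re, Complex.sub_re, Complex.neg_re] at h4
  linarith

theorem deriv_zero_iff {s : ℂ} (hs : 0 < s.im) :
    deriv riemannZeta s = 0 ↔ EE (1 - (starRingEnd ℂ) s) = 0 := by
  obtain ⟨X, hX⟩ := funeq
  obtain ⟨h0, h1, h2⟩ := hX (1 - (starRingEnd ℂ) s) (by simpa using hs)
  rw [sub_sub_cancel, Psi.deriv_zeta_conj] at h2
  rw [← map_eq_zero_iff (starRingEnd ℂ) (RingHom.injective _), h2, neg_eq_zero, mul_eq_zero]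
  simp [h0]

theorem zeta_zero_iff {s : ℂ} (hs : 0 < s.im) :
    riemannZeta s = 0 ↔ riemannZeta (1 - (starRingEnd ℂ) s) = 0 := by
  obtain ⟨X, hX⟩ := funeq
  obtain ⟨h0, h1, h2⟩ := hX (1 - (starRingEnd ℂ) s) (by simpa using hs)
  rw [sub_sub_cancel, riemannZeta_conj] at h1
  rw [← map_eq_zero_iff (starRingEnd ℂ) (RingHom.injective _), h1, mul_eq_zero]
  simp [h0]

end Pool.Agent.ZP
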