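import Pool.Agent.Lib.MP_af3d17_nt_h98.Jen
import Pool.Agent.Lib.MP_af3d17_nt_h98.Psi
import Pool.Agent.Lib.MP_af3d17_nt_h98.Growth

/-! Zeros of `ζ` and `ζ'` near height `t`, lower bound for `EE` on suitable horizontal lines. -/

set_option autoImplicit false

namespace Pool.Agent.ZP

open Filter Topology Metric

lemma mem_disc {t r : ℝ} {s : ℂ} (hs : s ∈ closedBall (pt 10 t) r) :
    10 - r ≤ s.re ∧ s.re ≤ 10 + r ∧ t - r ≤ s.im ∧ s.im ≤ t + r := by
  rw [mem_closedBall, dist_eq_norm] at hs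
  have h1 := (Complex.abs_re_le_norm (s - pt 10 t)).trans hs
  have h2 := (Complex.abs_im_le_norm (s - pt 10 t)).trans hs
  rw [Complex.sub_re, pt_re, abs_le] at h1
  rw [Complex.sub_im, pt_im, abs_le] at h2
  refine ⟨by linarith, by linarith, by linarith, by linarith⟩

lemma pt_mem_disc {t r : ℝ} {σ u : ℝ} (hr : 0 ≤ r) (h : (σ - 10) ^ 2 + (u - t) ^ 2 ≤ r ^ 2) :
    pt σ u ∈ closedBall (pt 10 t) r := by
  rw [mem_closedBall, dist_eq_norm]
  have : ‖pt σ u - pt 10 t‖ ^ 2 ≤ r ^ 2 := by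
    rw [← Complex.normSq_eq_norm_sq, Complex.normSq_apply]
    simp only [Complex.sub_re, pt_re, Complex.sub_im, pt_im]
    nlinarith
  exact abs_le_of_sq_le_sq' this hr |>.2

lemma ne_one_of_im {s : ℂ} (h : 0 < s.im) : s ≠ 1 := by
  rintro rfl
  simp at h

lemma zeta_analyticAt {s : ℂ} (h : 0 < s.im) : AnalyticAt ℂ riemannZeta s := by
  have h2 : DifferentiableOn ℂ riemannZeta {1}ᶜ := fun s hs =>
    (differentiableAt_riemannZeta hs).differentiableWithinAt
  exact h2.analyticAt (isOpen_compl_singleton.mem_nhds (ne_one_of_im h))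

lemma EE_analyticAt {s : ℂ} (h : 0 < s.im) : AnalyticAt ℂ EE s :=
  (zeta_analyticAt h).deriv.add ((Lam_analytic h).mul (zeta_analyticAt h))

/-- `t ↦ C t^a` is eventually at most `t^(a+1)` -/
lemma log_pow_le {C : ℝ} {t : ℝ} {n : ℕ} (ht : 1 ≤ t) (hC : C ≤ t) :
    C * t ^ n ≤ t ^ (n + 1) := by
  rw [pow_succ, mul_comm (t ^ n) t]
  gcongr

/-- growth of `ζ` in the big disc -/
lemma zeta_disc : ∃ T1 : ℝ, 100 ≤ T1 ∧ ∀ t ≥ T1, ∀ s ∈ closedBall (pt 10 t) (99 / 10),
    ‖riemannZeta s‖ ≤ t ^ 3 := by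
  obtain ⟨C, hC, h⟩ := zeta_growth
  refine ⟨max 100 (4 * C), le_max_left _ _, fun t ht s hs => ?_⟩
  have ht1 : 100 ≤ t := (le_max_left _ _).trans ht
  have ht2 : 4 * C ≤ t := (le_max_right _ _).trans ht
  obtain ⟨h1, h2, h3, h4⟩ := mem_disc hs
  have h5 := h s (by linarith) (by linarith) (by linarith)
  have h6 : s.im ^ 2 ≤ (2 * t) ^ 2 := by
    have : 0 ≤ s.im := by linarith
    have : s.im ≤ 2 * t := by linarith
    gcongr
  calc ‖riemannZeta s‖ ≤ C * s.im ^ 2 := h5
    _ ≤ C * (2 * t) ^ 2 := by gcongr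
    _ = 4 * C * t ^ 2 := by ring
    _ ≤ t ^ 3 := by nlinarith [sq_nonneg t]

/-- growth of `ζ'` in the disc -/
lemma deriv_disc : ∃ T1 : ℝ, 100 ≤ T1 ∧ ∀ t ≥ T1, ∀ s ∈ closedBall (pt 10 t) (98 / 10),
    ‖deriv riemannZeta s‖ ≤ t ^ 4 := by
  obtain ⟨T1, hT1, h⟩ := zeta_disc
  refine ⟨T1, hT1, fun t ht s hs => ?_⟩
  have ht1 : 100 ≤ t := hT1.trans ht
  have hd : DiffContOnCl ℂ riemannZeta (ball s (1 / 10)) := by
    refine DifferentiableOn.diffContOnCl ?_
    rw [closure_ball _ (by norm_num)]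
    intro w hw
    have h0 : w ∈ closedBall (pt 10 t) (99 / 10) := by
      rw [mem_closedBall] at hs hw ⊢
      calc dist w (pt 10 t) ≤ dist w s + dist s (pt 10 t) := dist_triangle _ _ _
        _ ≤ 99 / 10 := by linarith
    obtain ⟨h1, h2, h3, h4⟩ := mem_disc h0
    exact (zeta_analyticAt (by linarith)).differentiableAt.differentiableWithinAt
  have h5 := Complex.norm_deriv_le_of_forall_mem_sphere_norm_le (C := t ^ 3)
    (show (0 : ℝ) < 1 / 10 by norm_num) hd ?_
  · refine h5.trans ?_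
    rw [div_le_iff₀ (by norm_num)]
    have : 0 ≤ t ^ 3 := by positivity
    nlinarith
  · intro w hw
    refine h t ht w ?_
    rw [mem_sphere] at hw
    rw [mem_closedBall] at hs ⊢
    calc dist w (pt 10 t) ≤ dist w s + dist s (pt 10 t) := dist_triangle _ _ _
      _ ≤ 99 / 10 := by linarith

theorem local_zeta : ∃ C T1 : ℝ, 0 < C ∧ 100 ≤ T1 ∧ ∀ t ≥ T1,
    ∃ (k : ℕ) (z : Fin k → ℂ) (g : ℂ → ℂ),
      (k : ℝ) ≤ C * Real.log t ∧
      (∀ i, z i ∈ closedBall (pt 10 t) (97 / 10) ∧ riemannZeta (z i) = 0) ∧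
      AnalyticOnNhd ℂ g (closedBall (pt 10 t) (98 / 10)) ∧
      (∀ s ∈ closedBall (pt 10 t) (98 / 10), riemannZeta s = (∏ i, (s - z i)) * g s) ∧
      (∀ s ∈ closedBall (pt 10 t) (97 / 10), g s ≠ 0) ∧
      (∀ s ∈ closedBall (pt 10 t) (96 / 10), ‖logDeriv g s‖ ≤ C * Real.log t) := by
  obtain ⟨C, hC, hfac⟩ := local_factor (r := 96 / 10) (r' := 97 / 10) (R := 98 / 10)
    (by norm_num) (by norm_num) (by norm_num)
  obtain ⟨T1, hT1, hz⟩ := zeta_disc
  obtain ⟨c, hc, hlow⟩ := zeta_lower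
  refine ⟨C * 3, max T1 (1 / c), by positivity, hT1.trans (le_max_left _ _), fun t ht => ?_⟩
  have ht1 : T1 ≤ t := (le_max_left _ _).trans ht
  have ht2 : 1 / c ≤ t := (le_max_right _ _).trans ht
  have ht3 : 100 ≤ t := hT1.trans ht1
  have ht0 : 0 < t := by linarith
  have hlog : Real.log (t ^ 3) = 3 * Real.log t := by rw [Real.log_pow]; norm_num
  have H1 : Real.exp 1 ≤ t ^ 3 := by
    have h7 : Real.exp 1 ≤ 3 := by have := Real.exp_one_lt_d9; linarith
    have : (3 : ℝ) ≤ t ^ 3 := by nlinarith [sq_nonneg t]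
    linarith
  have H2 : AnalyticOnNhd ℂ riemannZeta (closedBall (pt 10 t) (98 / 10)) := by
    intro s hs
    obtain ⟨h1, h2, h3, h4⟩ := mem_disc hs
    exact zeta_analyticAt (by linarith)
  have H3 : ∀ s ∈ closedBall (pt 10 t) (98 / 10), ‖riemannZeta s‖ ≤ t ^ 3 := fun s hs =>
    hz t ht1 s (closedBall_subset_closedBall (by norm_num) hs)
  have H4 : 1 / t ^ 3 ≤ ‖riemannZeta (pt 10 t)‖ := by
    have h8 := hlow (pt 10 t) (by rw [pt_re]; norm_num)
    refine le_trans ?_ h8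
    rw [div_le_iff₀ (by positivity)]
    rw [div_le_iff₀ hc] at ht2
    have h9 : t ≤ t ^ 3 := by nlinarith [sq_nonneg t]
    calc (1 : ℝ) ≤ t * c := ht2
      _ ≤ c * t ^ 3 := by rw [mul_comm]; gcongr
  obtain ⟨k, z, g, h1, h2, h3, h4, h5, h6, _⟩ := hfac riemannZeta (pt 10 t) (t ^ 3) H1 H2 H3 H4
  rw [hlog] at h1
  refine ⟨k, z, g, by linarith, h2, h3, h4, h5, fun s hs => ?_⟩
  have := h6 s hs
  rw [hlog] at this
  linarith

/-- `Λ(1/2+it)` is at least `(log t)/2` and at most `2 log t` for large `t`. -/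
lemma Lam_line : ∃ T1 : ℝ, 100 ≤ T1 ∧ ∀ t ≥ T1,
    Real.log t / 2 ≤ (Lam (pt (1 / 2) t)).re ∧ (Lam (pt (1 / 2) t)).re ≤ 2 * Real.log t := by
  obtain ⟨C, T, hT, h⟩ := Lam_strip (1 / 2) (1 / 2)
  refine ⟨max (max 100 T) (max |C| (Real.exp 8)), by
    exact (le_max_left _ _).trans (le_max_left _ _), fun t ht => ?_⟩
  have ht1 : 100 ≤ t := ((le_max_left _ _).trans (le_max_left _ _)).trans ht
  have ht2 : T ≤ t := ((le_max_right _ _).trans (le_max_left _ _)).trans ht
  have ht3 : |C| ≤ t := ((le_max_left _ _).trans (le_max_right _ _)).trans ht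
  have ht4 : Real.exp 8 ≤ t := ((le_max_right _ _).trans (le_max_right _ _)).trans ht
  have ht0 : 0 < t := by linarith
  have h1 := h (pt (1 / 2) t) (by simp) (by simp) (by simpa using ht2)
  rw [pt_im] at h1
  have h2 : C / t ≤ 1 := by
    rw [div_le_one ht0]; exact (le_abs_self C).trans ht3
  have h3 := (Complex.abs_re_le_norm _).trans (h1.trans h2)
  rw [Complex.sub_re, Complex.ofReal_re, abs_le] at h3
  have h4 : Lt t = Real.log t - Real.log (2 * Real.pi) := by
    rw [Lt, Real.log_div ht0.ne' (by positivity)]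
  have h5 : 8 ≤ Real.log t := by
    rw [Real.le_log_iff_exp_le ht0]; exact ht4
  have h6 : 0 ≤ Real.log (2 * Real.pi) := Real.log_nonneg (by nlinarith [Real.pi_gt_three])
  have h7 : Real.log (2 * Real.pi) ≤ 2 := by
    rw [Real.log_le_iff_le_exp (by positivity)]
    have h8 : Real.exp 2 = Real.exp 1 * Real.exp 1 := by rw [← Real.exp_add]; norm_num
    have h9 := Real.exp_one_gt_d9
    rw [h8]
    nlinarith [Real.pi_lt_d2]
  rw [h4] at h3
  constructor <;> linarith [h3.1, h3.2]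

theorem exists_zeta_zero : ∃ T1 : ℝ, ∀ t ≥ T1, ∃ ρ : ℂ, riemannZeta ρ = 0 ∧
    1 / 5 ≤ ρ.re ∧ |ρ.im - t| ≤ 10 := by
  obtain ⟨C, T1, hC, hT1, hloc⟩ := local_zeta
  obtain ⟨C0, hC0, hld⟩ := logDeriv_bound
  obtain ⟨T2, hT2, hlam⟩ := Lam_line
  -- three circles
  obtain ⟨M0, hM0⟩ := three_circles (r0 := 8) (r1 := 95 / 10) (R := 96 / 10) (m := C0)
    (ε := 1 / (8 * C)) (by norm_num) (by norm_num) (by norm_num) (by positivity)
  refine ⟨max (max T1 T2) (Real.exp (M0 / C)), fun t ht => ?_⟩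
  have ht1 : T1 ≤ t := ((le_max_left _ _).trans (le_max_left _ _)).trans ht
  have ht2 : T2 ≤ t := ((le_max_right _ _).trans (le_max_left _ _)).trans ht
  have ht3 : Real.exp (M0 / C) ≤ t := (le_max_right _ _).trans ht
  have ht4 : 100 ≤ t := hT1.trans ht1
  have ht0 : 0 < t := by linarith
  by_contra hcon
  push Not at hcon
  obtain ⟨k, z, g, h1, h2, h3, h4, h5, h6⟩ := hloc t ht1
  have hk : k = 0 := by
    by_contra hk
    have i : Fin k := ⟨0, Nat.pos_of_ne_zero hk⟩
    obtain ⟨h7, h8⟩ := h2 i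
    obtain ⟨h9, h10, h11, h12⟩ := mem_disc h7
    have := hcon (z i) h8 (by linarith)
    have h13 : |(z i).im - t| ≤ 10 := abs_le.2 ⟨by linarith, by linarith⟩
    linarith
  subst hk
  have h4' : ∀ s ∈ closedBall (pt 10 t) (98 / 10), riemannZeta s = g s := fun s hs => by
    rw [h4 s hs]; simp
  have hlogt : 0 < Real.log t := Real.log_pos (by linarith)
  have hM : M0 ≤ C * Real.log t := by
    have := Real.log_le_log (Real.exp_pos _) ht3
    rw [Real.log_exp, div_le_iff₀ hC] at this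
    linarith
  -- `logDeriv g` is the logarithmic derivative of `ζ` in the open disc
  have hld' : ∀ s ∈ ball (pt 10 t) (98 / 10), logDeriv g s = logDeriv riemannZeta s := by
    intro s hs
    have hev : riemannZeta =ᶠ[𝓝 s] g := by
      filter_upwards [isOpen_ball.mem_nhds hs] with w hw
      exact h4' w (ball_subset_closedBall hw)
    rw [logDeriv_apply, logDeriv_apply, hev.deriv_eq, hev.eq_of_nhds]
  have hgan : AnalyticOnNhd ℂ (logDeriv g) (closedBall (pt 10 t) (96 / 10)) := by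
    intro s hs
    have h7 := h3 s (closedBall_subset_closedBall (by norm_num) hs)
    exact h7.deriv.div h7 (h5 s (closedBall_subset_closedBall (by norm_num) hs))
  have h8 := hM0 (C * Real.log t) hM (logDeriv g) (pt 10 t) hgan h6 ?_ (pt (1 / 2) t) ?_
  · have h9 : pt (1 / 2) t ∈ ball (pt 10 t) (98 / 10) :=
      closedBall_subset_ball (by norm_num) (pt_mem_disc (r := 95 / 10) (by norm_num) (by norm_num))
    rw [hld' _ h9] at h8
    have h10 : riemannZeta (pt (1 / 2) t) ≠ 0 := by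
      rw [h4' _ (ball_subset_closedBall h9)]
      exact h5 _ (closedBall_subset_closedBall (by norm_num)
        (pt_mem_disc (r := 95 / 10) (by norm_num) (by norm_num)))
    have h11 := re_logDeriv_line ht0 h10
    have h12 := Complex.abs_re_le_norm (logDeriv riemannZeta (pt (1 / 2) t))
    have h13 := (hlam t ht2).1
    have h14 := neg_abs_le (logDeriv riemannZeta (pt (1 / 2) t)).re
    have h15 : 1 / (8 * C) * (C * Real.log t) = Real.log t / 8 := by field_simp
    rw [h15] at h8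
    linarith
  · intro s hs
    rw [hld' s (closedBall_subset_ball (by norm_num) hs)]
    obtain ⟨h9, _, _, _⟩ := mem_disc hs
    exact hld s (by linarith)
  · exact pt_mem_disc (by norm_num) (by norm_num)

/-- a point of `[T, T+1]` at distance at least `1/(2(k+1))` of `k` given points -/
lemma exists_far (T : ℝ) (k : ℕ) (y : Fin k → ℝ) : ∃ u : ℝ, T ≤ u ∧ u ≤ T + 1 ∧
    ∀ i, 1 / (2 * ((k : ℝ) + 1)) ≤ |u - y i| := by
  have hk : (0 : ℝ) < (k : ℝ) + 1 := by positivity
  by_contra hcon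
  push Not at hcon
  have h1 : ∀ j : Fin (k + 1), ∃ i, |T + (j : ℝ) / (k + 1) - y i| < 1 / (2 * ((k : ℝ) + 1)) := by
    intro j
    refine hcon (T + (j : ℝ) / (k + 1)) ?_ ?_
    · have : 0 ≤ (j : ℝ) / (k + 1) := by positivity
      linarith
    · have h2 : (j : ℝ) / (k + 1) ≤ 1 := by
        rw [div_le_one hk]
        have : (j : ℕ) ≤ k := Nat.lt_succ_iff.1 j.2
        have : ((j : ℕ) : ℝ) ≤ k := by exact_mod_cast this
        linarith
      linarith
  choose φ hφ using h1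
  obtain ⟨a, b, hab, h3⟩ := Fintype.exists_ne_map_eq_of_card_lt φ (by simp)
  have ha := hφ a
  have hb := hφ b
  rw [h3] at ha
  have h4 : |(a : ℝ) / (k + 1) - (b : ℝ) / (k + 1)| < 1 / (k + 1) := by
    have h5 : (a : ℝ) / (k + 1) - (b : ℝ) / (k + 1) =
        (T + (a : ℝ) / (k + 1) - y (φ b)) - (T + (b : ℝ) / (k + 1) - y (φ b)) := by ring
    rw [h5]
    have h6 := abs_sub (T + (a : ℝ) / (k + 1) - y (φ b)) (T + (b : ℝ) / (k + 1) - y (φ b))
    have h7 : (1 : ℝ) / (k + 1) = 1 / (2 * (k + 1)) + 1 / (2 * (k + 1)) := by field_simp; norm_num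
    linarith
  rw [← sub_div, abs_div, abs_of_pos hk, div_lt_div_iff_of_pos_right hk] at h4
  have h8 : ((a : ℕ) : ℤ) ≠ ((b : ℕ) : ℤ) := by
    intro h
    exact hab (Fin.ext (by exact_mod_cast h))
  have h9 : (1 : ℤ) ≤ |((a : ℕ) : ℤ) - ((b : ℕ) : ℤ)| := Int.one_le_abs (sub_ne_zero.2 h8)
  have h10 : (1 : ℝ) ≤ |((a : ℕ) : ℝ) - ((b : ℕ) : ℝ)| := by exact_mod_cast h9
  linarith

lemma eventually_log_small (C : ℝ) (hC : 0 < C) :
    ∀ᶠ L : ℝ in atTop, C * Real.log (2 * (C * L + 1)) + C ≤ L := by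
  have h1 : Tendsto (fun L : ℝ => 2 * (C * L + 1)) atTop atTop := by
    refine Tendsto.const_mul_atTop (by norm_num) (tendsto_atTop_add_const_right _ _ ?_)
    exact tendsto_id.const_mul_atTop hC
  have h2 : ∀ᶠ x : ℝ in atTop, Real.log x ≤ 1 / (8 * C ^ 2) * x := by
    have := Real.isLittleO_log_id_atTop.def (show (0 : ℝ) < 1 / (8 * C ^ 2) by positivity)
    filter_upwards [this, eventually_ge_atTop 1] with x hx hx1
    rw [Real.norm_eq_abs, id, Real.norm_eq_abs, abs_of_nonneg (show 0 ≤ x by linarith)] at hx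
    exact (le_abs_self _).trans hx
  filter_upwards [h1.eventually h2, eventually_ge_atTop (4 * C), eventually_ge_atTop (1 / C)]
    with L hL hL1 hL2
  have h3 : 1 ≤ C * L := by
    rw [div_le_iff₀ hC] at hL2; linarith
  have h4 : C * Real.log (2 * (C * L + 1)) ≤ C * (1 / (8 * C ^ 2) * (2 * (C * L + 1))) := by gcongr
  have h5 : C * (1 / (8 * C ^ 2) * (2 * (C * L + 1))) = (C * L + 1) / (4 * C) := by
    field_simp; ring
  have h6 : (C * L + 1) / (4 * C) ≤ L / 2 := by
    rw [div_le_iff₀ (by positivity)]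
    nlinarith
  linarith

/-- growth of `Λ` -/
lemma Lam_disc : ∃ T1 : ℝ, 100 ≤ T1 ∧ ∀ t ≥ T1, ∀ s ∈ closedBall (pt 10 t) (98 / 10),
    ‖Lam s‖ ≤ t := by
  obtain ⟨C, T, hT, h⟩ := Lam_strip 0 20
  refine ⟨max (max 100 (T + 10)) (4 * |C| + 4), (le_max_left _ _).trans (le_max_left _ _),
    fun t ht s hs => ?_⟩
  have ht1 : 100 ≤ t := ((le_max_left _ _).trans (le_max_left _ _)).trans ht
  have ht2 : T + 10 ≤ t := ((le_max_right _ _).trans (le_max_left _ _)).trans ht
  have ht3 : 4 * |C| + 4 ≤ t := (le_max_right _ _).trans ht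
  obtain ⟨h1, h2, h3, h4⟩ := mem_disc hs
  have h5 := h s (by linarith) (by linarith) (by linarith)
  have hs0 : 1 ≤ s.im := by linarith
  have h6 : C / s.im ≤ |C| := by
    rw [div_le_iff₀ (by linarith)]
    calc C ≤ |C| := le_abs_self C
      _ = |C| * 1 := (mul_one _).symm
      _ ≤ |C| * s.im := by gcongr
  have h7 : |Lt s.im| ≤ Real.log s.im + 2 := by
    have h8 : Lt s.im = Real.log s.im - Real.log (2 * Real.pi) := by
      rw [Lt, Real.log_div (by linarith) (by positivity)]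
    have h9 : 0 ≤ Real.log (2 * Real.pi) := Real.log_nonneg (by nlinarith [Real.pi_gt_three])
    have h10 : Real.log (2 * Real.pi) ≤ 2 := by
      rw [Real.log_le_iff_le_exp (by positivity)]
      have h8 : Real.exp 2 = Real.exp 1 * Real.exp 1 := by rw [← Real.exp_add]; norm_num
      have h9 := Real.exp_one_gt_d9
      rw [h8]
      nlinarith [Real.pi_lt_d2]
    have h11 : 0 ≤ Real.log s.im := Real.log_nonneg hs0
    rw [h8, abs_le]
    constructor <;> linarith
  have h12 : Real.log s.im ≤ t / 2 := by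
    have h13 : Real.log s.im ≤ 2 * √(s.im) := by
      have h14 : Real.log (√(s.im)) ≤ √(s.im) - 1 := Real.log_le_sub_one_of_pos (by positivity)
      have h15 : Real.log s.im = 2 * Real.log (√(s.im)) := by
        rw [Real.log_sqrt (by linarith)]; ring
      have : 0 ≤ √(s.im) := Real.sqrt_nonneg _
      linarith
    have h16 : √(s.im) ≤ t / 4 := by
      rw [Real.sqrt_le_left (by linarith)]
      nlinarith
    linarith
  have h17 : ‖Lam s‖ ≤ ‖Lam s - (Lt s.im : ℂ)‖ + ‖(Lt s.im : ℂ)‖ := by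
    calc ‖Lam s‖ = ‖(Lam s - (Lt s.im : ℂ)) + (Lt s.im : ℂ)‖ := by congr 1; ring
      _ ≤ _ := norm_add_le _ _
  rw [Complex.norm_real, Real.norm_eq_abs] at h17
  linarith

theorem EE_lower : ∃ T1 : ℝ, 100 ≤ T1 ∧ ∀ T ≥ T1, ∃ t : ℝ, T ≤ t ∧ t ≤ T + 1 ∧
    ∀ σ : ℝ, 1 / 2 ≤ σ → σ ≤ 3 → Real.exp (-(Real.log t) ^ 2) ≤ ‖EE (pt σ t)‖ := by
  obtain ⟨C, hC, hfac⟩ := local_factor (r := 96 / 10) (r' := 97 / 10) (R := 98 / 10)
    (by norm_num) (by norm_num) (by norm_num)
  obtain ⟨T1, hT1, hz⟩ := zeta_disc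
  obtain ⟨T2, hT2, hd⟩ := deriv_disc
  obtain ⟨T3, hT3, hL⟩ := Lam_disc
  obtain ⟨c, hc, hlow⟩ := zeta_lower
  obtain ⟨C0, hC0, hld⟩ := logDeriv_bound
  obtain ⟨T4, hT4⟩ := Lam_lower (C0 + 1)
  have hC5 : 0 < 5 * C := by positivity
  obtain ⟨L0, hL0⟩ := (eventually_log_small (5 * C) hC5).exists_forall_of_atTop
  refine ⟨max (max (max T1 T2) (max T3 T4)) (max (1 / c) (Real.exp L0)),
    hT1.trans ((le_max_left _ _).trans ((le_max_left _ _).trans (le_max_left _ _))),
    fun T hT => ?_⟩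
  have ht1 : T1 ≤ T := ((le_max_left _ _).trans ((le_max_left _ _).trans (le_max_left _ _))).trans hT
  have ht2 : T2 ≤ T := ((le_max_right _ _).trans ((le_max_left _ _).trans (le_max_left _ _))).trans hT
  have ht3 : T3 ≤ T := ((le_max_left _ _).trans ((le_max_right _ _).trans (le_max_left _ _))).trans hT
  have ht4 : T4 ≤ T := ((le_max_right _ _).trans ((le_max_right _ _).trans (le_max_left _ _))).trans hT
  have ht5 : 1 / c ≤ T := ((le_max_left _ _).trans (le_max_right _ _)).trans hT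
  have ht6 : Real.exp L0 ≤ T := ((le_max_right _ _).trans (le_max_right _ _)).trans hT
  have hT100 : 100 ≤ T := hT1.trans ht1
  have hT0 : 0 < T := by linarith
  have hlogT : 0 < Real.log T := Real.log_pos (by linarith)
  have H1 : Real.exp 1 ≤ T ^ 5 := by
    have h7 : Real.exp 1 ≤ 3 := by have := Real.exp_one_lt_d9; linarith
    have : T ≤ T ^ 5 := by
      calc T = T ^ 1 := (pow_one T).symm
        _ ≤ T ^ 5 := pow_le_pow_right₀ (by linarith) (by norm_num)
    linarith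
  have H2 : AnalyticOnNhd ℂ EE (closedBall (pt 10 T) (98 / 10)) := by
    intro s hs
    obtain ⟨h1, h2, h3, h4⟩ := mem_disc hs
    exact EE_analyticAt (by linarith)
  have H3 : ∀ s ∈ closedBall (pt 10 T) (98 / 10), ‖EE s‖ ≤ T ^ 5 := by
    intro s hs
    have h1 := hd T ht2 s hs
    have h2 := hz T ht1 s (closedBall_subset_closedBall (by norm_num) hs)
    have h3 := hL T ht3 s hs
    calc ‖EE s‖ ≤ ‖deriv riemannZeta s‖ + ‖Lam s * riemannZeta s‖ := norm_add_le _ _
      _ ≤ T ^ 4 + T * T ^ 3 := by rw [norm_mul]; gcongr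
      _ = 2 * T ^ 4 := by ring
      _ ≤ T * T ^ 4 := by gcongr; linarith
      _ = T ^ 5 := by ring
  have H4 : 1 / T ^ 5 ≤ ‖EE (pt 10 T)‖ := by
    have h1 := hlow (pt 10 T) (by rw [pt_re]; norm_num)
    have h2 := hld (pt 10 T) (by rw [pt_re]; norm_num)
    have h3 := hT4 (pt 10 T) (by rw [pt_re]; norm_num) (by rw [pt_im]; exact ht4)
    have hz0 : riemannZeta (pt 10 T) ≠ 0 := by
      intro h; rw [h, norm_zero] at h1; linarith
    have h4 : EE (pt 10 T) = riemannZeta (pt 10 T) *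
        (logDeriv riemannZeta (pt 10 T) + Lam (pt 10 T)) := by
      rw [EE, logDeriv_apply]; field_simp
    have h5 : 1 ≤ ‖logDeriv riemannZeta (pt 10 T) + Lam (pt 10 T)‖ := by
      have h6 := Complex.abs_re_le_norm (logDeriv riemannZeta (pt 10 T) + Lam (pt 10 T))
      have h7 := Complex.abs_re_le_norm (logDeriv riemannZeta (pt 10 T))
      rw [Complex.add_re] at h6
      have h8 := neg_abs_le (logDeriv riemannZeta (pt 10 T)).re
      have h9 := le_abs_self ((logDeriv riemannZeta (pt 10 T)).re + (Lam (pt 10 T)).re)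
      linarith
    rw [h4, norm_mul, div_le_iff₀ (by positivity)]
    have h9 : T ≤ T ^ 5 := by
      calc T = T ^ 1 := (pow_one T).symm
        _ ≤ T ^ 5 := pow_le_pow_right₀ (by linarith) (by norm_num)
    rw [div_le_iff₀ hc] at ht5
    calc (1 : ℝ) ≤ T * c := ht5
      _ = c * 1 * T := by ring
      _ ≤ ‖riemannZeta (pt 10 T)‖ * ‖logDeriv riemannZeta (pt 10 T) + Lam (pt 10 T)‖ * T ^ 5 := by
          gcongr
  obtain ⟨k, z, g, h1, h2, h3, h4, h5, _, h7⟩ := hfac EE (pt 10 T) (T ^ 5) H1 H2 H3 H4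
  obtain ⟨t, htT, htT1, hfar⟩ := exists_far T k (fun i => (z i).im)
  refine ⟨t, htT, htT1, fun σ hσ hσ' => ?_⟩
  have hmem : pt σ t ∈ closedBall (pt 10 T) (96 / 10) := by
    refine pt_mem_disc (by norm_num) ?_
    nlinarith
  have h8 := h7 _ hmem
  have hlog5 : Real.log (T ^ 5) = 5 * Real.log T := by rw [Real.log_pow]; norm_num
  rw [hlog5] at h1 h8
  rw [h4 _ (closedBall_subset_closedBall (by norm_num) hmem), norm_mul, norm_prod]
  have h9 : (1 / (2 * ((k : ℝ) + 1))) ^ k ≤ ∏ i, ‖pt σ t - z i‖ := by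
    calc (1 / (2 * ((k : ℝ) + 1))) ^ k = ∏ _i : Fin k, (1 / (2 * ((k : ℝ) + 1))) := by simp
      _ ≤ ∏ i, ‖pt σ t - z i‖ := by
          refine Finset.prod_le_prod (fun i _ => by positivity) fun i _ => ?_
          have h10 := hfar i
          have h11 := Complex.abs_im_le_norm (pt σ t - z i)
          rw [Complex.sub_im, pt_im] at h11
          exact h10.trans h11
  have h12 : Real.exp (-(k * Real.log (2 * ((k : ℝ) + 1)))) = (1 / (2 * ((k : ℝ) + 1))) ^ k := by
    rw [Real.exp_neg, Real.exp_nat_mul, Real.exp_log (by positivity), one_div, inv_pow]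
  have hL' := hL0 (Real.log T) (by rwa [Real.le_log_iff_exp_le hT0])
  have h13 : (k : ℝ) * Real.log (2 * ((k : ℝ) + 1)) + C * (5 * Real.log T) ≤ (Real.log T) ^ 2 := by
    have hk5 : (k : ℝ) ≤ 5 * C * Real.log T := by linarith
    have h14 : Real.log (2 * ((k : ℝ) + 1)) ≤ Real.log (2 * (5 * C * Real.log T + 1)) := by
      apply Real.log_le_log (by positivity)
      gcongr
    have h15 : 0 ≤ Real.log (2 * ((k : ℝ) + 1)) := by
      apply Real.log_nonneg
      have : (0 : ℝ) ≤ k := by positivity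
      linarith
    calc (k : ℝ) * Real.log (2 * ((k : ℝ) + 1)) + C * (5 * Real.log T)
        ≤ (5 * C * Real.log T) * Real.log (2 * (5 * C * Real.log T + 1)) + C * (5 * Real.log T) := by
          gcongr
      _ = Real.log T * (5 * C * Real.log (2 * (5 * C * Real.log T + 1)) + 5 * C) := by ring
      _ ≤ Real.log T * Real.log T := by gcongr
      _ = _ := by ring
  have h16 : (Real.log T) ^ 2 ≤ (Real.log t) ^ 2 := by
    have : Real.log T ≤ Real.log t := Real.log_le_log hT0 htT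
    gcongr
  calc Real.exp (-(Real.log t) ^ 2) ≤ Real.exp (-(k * Real.log (2 * ((k : ℝ) + 1))) +
        -(C * (5 * Real.log T))) := by
        rw [Real.exp_le_exp]; linarith
    _ = Real.exp (-(k * Real.log (2 * ((k : ℝ) + 1)))) * Real.exp (-(C * (5 * Real.log T))) :=
        Real.exp_add _ _
    _ ≤ (∏ i, ‖pt σ t - z i‖) * ‖g (pt σ t)‖ := by
        rw [h12]
        gcongr

lemma hasDerivAt_pt (σ u : ℝ) : HasDerivAt (fun u : ℝ => pt σ u) Complex.I u := by
  have h : (fun u : ℝ => pt σ u) = fun u : ℝ => (σ : ℂ) + (u : ℂ) * Complex.I := by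
    funext u
    apply Complex.ext <;> simp
  rw [h]
  have h1 : HasDerivAt (fun u : ℝ => (u : ℂ)) 1 u := Complex.ofRealCLM.hasDerivAt
  simpa using (h1.mul_const Complex.I).const_add (σ : ℂ)

/-- on the critical line `|ζ/ζ'| ≤ 4 / log u` -/
lemma zeta_div_deriv_le : ∃ T1 : ℝ, 100 ≤ T1 ∧ ∀ u ≥ T1,
    ‖riemannZeta (pt (1 / 2) u) / deriv riemannZeta (pt (1 / 2) u)‖ ≤ 4 / Real.log u := by
  obtain ⟨T2, hT2, hlam⟩ := Lam_line
  refine ⟨T2, hT2, fun u hu => ?_⟩
  have hu0 : 100 ≤ u := hT2.trans hu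
  have hlog : 0 < Real.log u := Real.log_pos (by linarith)
  rcases eq_or_ne (riemannZeta (pt (1 / 2) u)) 0 with h | h
  · rw [h, zero_div, norm_zero]; positivity
  · have h1 := re_logDeriv_line (by linarith) h
    have h2 := (hlam u hu).1
    have h3 := Complex.abs_re_le_norm (logDeriv riemannZeta (pt (1 / 2) u))
    have h4 := neg_abs_le (logDeriv riemannZeta (pt (1 / 2) u)).re
    have h5 : Real.log u / 4 ≤ ‖logDeriv riemannZeta (pt (1 / 2) u)‖ := by linarith
    have h6 : riemannZeta (pt (1 / 2) u) / deriv riemannZeta (pt (1 / 2) u)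
        = (logDeriv riemannZeta (pt (1 / 2) u))⁻¹ := by
      rw [logDeriv_apply, inv_div]
    rw [h6, norm_inv, inv_le_comm₀ (by linarith [h5, hlog]) (by positivity), inv_div]
    exact h5

theorem exists_deriv_zero : ∃ T1 : ℝ, ∀ t ≥ T1, ∃ ρ : ℂ, deriv riemannZeta ρ = 0 ∧
    1 / 5 ≤ ρ.re ∧ ρ.re ≤ 20 ∧ |ρ.im - t| ≤ 10 := by
  obtain ⟨C, hC, hfac⟩ := local_factor (r := 96 / 10) (r' := 97 / 10) (R := 98 / 10)
    (by norm_num) (by norm_num) (by norm_num)
  obtain ⟨T1, hT1, hd⟩ := deriv_disc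
  obtain ⟨T2, hT2, hw⟩ := zeta_div_deriv_le
  obtain ⟨c, C', hc, hC', hlow⟩ := deriv_lower
  obtain ⟨M0, hM0⟩ := three_circles (r0 := 1) (r1 := 955 / 100) (R := 96 / 10) (m := C' / c)
    (ε := 1 / (64 * C)) (by norm_num) (by norm_num) (by norm_num) (by positivity)
  refine ⟨max (max T1 (T2 + 1)) (max (max (Real.exp (M0 / (4 * C))) (1 / c)) (Real.exp 64)),
    fun t ht => ?_⟩
  have ht1 : T1 ≤ t := ((le_max_left _ _).trans (le_max_left _ _)).trans ht
  have ht2 : T2 + 1 ≤ t := ((le_max_right _ _).trans (le_max_left _ _)).trans ht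
  have ht3 : Real.exp (M0 / (4 * C)) ≤ t :=
    ((le_max_left _ _).trans ((le_max_left _ _).trans (le_max_right _ _))).trans ht
  have ht5 : 1 / c ≤ t :=
    ((le_max_right _ _).trans ((le_max_left _ _).trans (le_max_right _ _))).trans ht
  have ht6 : Real.exp 64 ≤ t := ((le_max_right _ _).trans (le_max_right _ _)).trans ht
  have ht4 : 100 ≤ t := hT1.trans ht1
  have ht0 : 0 < t := by linarith
  by_contra hcon
  push Not at hcon
  have hlog64 : 64 ≤ Real.log t := by rw [Real.le_log_iff_exp_le ht0]; exact ht6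
  have hlogt : 0 < Real.log t := by linarith
  have H1 : Real.exp 1 ≤ t ^ 4 := by
    have h7 : Real.exp 1 ≤ 3 := by have := Real.exp_one_lt_d9; linarith
    have : t ≤ t ^ 4 := by
      calc t = t ^ 1 := (pow_one t).symm
        _ ≤ t ^ 4 := pow_le_pow_right₀ (by linarith) (by norm_num)
    linarith
  have H2 : AnalyticOnNhd ℂ (deriv riemannZeta) (closedBall (pt 10 t) (98 / 10)) := by
    intro s hs
    obtain ⟨h1, h2, h3, h4⟩ := mem_disc hs
    exact (zeta_analyticAt (by linarith)).deriv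
  have H3 : ∀ s ∈ closedBall (pt 10 t) (98 / 10), ‖deriv riemannZeta s‖ ≤ t ^ 4 := hd t ht1
  have H4 : 1 / t ^ 4 ≤ ‖deriv riemannZeta (pt 10 t)‖ := by
    refine le_trans ?_ (hlow (pt 10 t) (by rw [pt_re]; norm_num) (by rw [pt_re]; norm_num)).1
    rw [div_le_iff₀ (by positivity)]
    rw [div_le_iff₀ hc] at ht5
    have h9 : t ≤ t ^ 4 := by
      calc t = t ^ 1 := (pow_one t).symm
        _ ≤ t ^ 4 := pow_le_pow_right₀ (by linarith) (by norm_num)
    calc (1 : ℝ) ≤ t * c := ht5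
      _ ≤ c * t ^ 4 := by rw [mul_comm]; gcongr
  obtain ⟨k, z, g, h1, h2, h3, h4, h5, h6, _⟩ := hfac _ (pt 10 t) (t ^ 4) H1 H2 H3 H4
  have hlog4 : Real.log (t ^ 4) = 4 * Real.log t := by rw [Real.log_pow]; norm_num
  rw [hlog4] at h6
  have hk : k = 0 := by
    by_contra hk
    have i : Fin k := ⟨0, Nat.pos_of_ne_zero hk⟩
    obtain ⟨h7, h8⟩ := h2 i
    obtain ⟨h9, h10, h11, h12⟩ := mem_disc h7
    have := hcon (z i) h8 (by linarith) (by linarith)
    have h13 : |(z i).im - t| ≤ 10 := abs_le.2 ⟨by linarith, by linarith⟩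
    linarith
  subst hk
  have h4' : ∀ s ∈ closedBall (pt 10 t) (98 / 10), deriv riemannZeta s = g s := fun s hs => by
    rw [h4 s hs]; simp
  have hM : M0 ≤ C * (4 * Real.log t) := by
    have := Real.log_le_log (Real.exp_pos _) ht3
    rw [Real.log_exp, div_le_iff₀ (by positivity)] at this
    linarith
  have hld' : ∀ s ∈ ball (pt 10 t) (98 / 10), logDeriv g s = logDeriv (deriv riemannZeta) s := by
    intro s hs
    have hev : deriv riemannZeta =ᶠ[𝓝 s] g := by
      filter_upwards [isOpen_ball.mem_nhds hs] with w hw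
      exact h4' w (ball_subset_closedBall hw)
    rw [logDeriv_apply, logDeriv_apply, hev.deriv_eq, hev.eq_of_nhds]
  have hgan : AnalyticOnNhd ℂ (logDeriv g) (closedBall (pt 10 t) (96 / 10)) := by
    intro s hs
    have h7 := h3 s (closedBall_subset_closedBall (by norm_num) hs)
    exact h7.deriv.div h7 (h5 s (closedBall_subset_closedBall (by norm_num) hs))
  have hsm : ∀ s ∈ closedBall (pt 10 t) 1, ‖logDeriv g s‖ ≤ C' / c := by
    intro s hs
    rw [hld' s (closedBall_subset_ball (by norm_num) hs), logDeriv_apply, norm_div]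
    obtain ⟨h9, h10, _, _⟩ := mem_disc hs
    obtain ⟨h11, h12⟩ := hlow s (by linarith) (by linarith)
    gcongr
  have h8 := hM0 (C * (4 * Real.log t)) hM (logDeriv g) (pt 10 t) hgan h6 hsm
  have hε : 1 / (64 * C) * (C * (4 * Real.log t)) = Real.log t / 16 := by field_simp; norm_num
  rw [hε] at h8
  -- the quotient along the critical line
  set G : ℂ → ℂ := fun s => riemannZeta s / deriv riemannZeta s with hG
  set a : ℝ := t - 1 / 2 with ha
  set b : ℝ := t + 1 / 2 with hb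
  have hmem : ∀ u ∈ Set.Icc a b, pt (1 / 2) u ∈ closedBall (pt 10 t) (955 / 100) := by
    intro u hu
    refine pt_mem_disc (by norm_num) ?_
    have h9 : -(1 / 2) ≤ u - t := by have := hu.1; rw [ha] at this; linarith
    have h10 : u - t ≤ 1 / 2 := by have := hu.2; rw [hb] at this; linarith
    nlinarith
  have hlogu : ∀ u ∈ Set.Icc a b, Real.log t / 2 ≤ Real.log u := by
    intro u hu
    have h9 : t - 1 / 2 ≤ u := hu.1
    have h10 : √t ≤ u := by
      rw [Real.sqrt_le_left (by linarith)]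
      nlinarith
    calc Real.log t / 2 = Real.log (√t) := by rw [Real.log_sqrt ht0.le]
      _ ≤ Real.log u := Real.log_le_log (by positivity) h10
  have hGle : ∀ u ∈ Set.Icc a b, ‖G (pt (1 / 2) u)‖ ≤ 8 / Real.log t := by
    intro u hu
    have h9 : t - 1 / 2 ≤ u := hu.1
    have h10 := hw u (by linarith)
    refine h10.trans ?_
    have h11 := hlogu u hu
    calc 4 / Real.log u ≤ 4 / (Real.log t / 2) := by gcongr
      _ = 8 / Real.log t := by ring
  have hder : ∀ u ∈ Set.Icc a b, HasDerivWithinAt (fun u : ℝ => G (pt (1 / 2) u) - Complex.I * u)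
      (-(Complex.I * (G (pt (1 / 2) u) * logDeriv g (pt (1 / 2) u)))) (Set.Icc a b) u := by
    intro u hu
    have h9 := hmem u hu
    have h10 : pt (1 / 2) u ∈ ball (pt 10 t) (98 / 10) := closedBall_subset_ball (by norm_num) h9
    have hu0 : 0 < u := by
      have : t - 1 / 2 ≤ u := hu.1
      linarith
    have hne : deriv riemannZeta (pt (1 / 2) u) ≠ 0 := by
      rw [h4' _ (ball_subset_closedBall h10)]
      exact h5 _ (closedBall_subset_closedBall (by norm_num) h9)
    have hza := zeta_analyticAt (s := pt (1 / 2) u) (by simpa using hu0)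
    have h11 : HasDerivAt G ((deriv riemannZeta (pt (1 / 2) u) * deriv riemannZeta (pt (1 / 2) u) -
        riemannZeta (pt (1 / 2) u) * deriv (deriv riemannZeta) (pt (1 / 2) u)) /
        deriv riemannZeta (pt (1 / 2) u) ^ 2) (pt (1 / 2) u) :=
      hza.differentiableAt.hasDerivAt.div hza.deriv.differentiableAt.hasDerivAt hne
    have h12 := h11.scomp u (hasDerivAt_pt (1 / 2) u)
    have h13 : HasDerivAt (fun u : ℝ => Complex.I * (u : ℂ)) Complex.I u := by
      have h1 : HasDerivAt (fun u : ℝ => (u : ℂ)) 1 u := Complex.ofRealCLM.hasDerivAt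
      simpa using h1.const_mul Complex.I
    have h14 := h12.sub h13
    refine (h14.congr_deriv ?_).hasDerivWithinAt
    rw [hld' _ h10, logDeriv_apply, hG, smul_eq_mul]
    field_simp
    ring
  have hbnd : ∀ u ∈ Set.Icc a b, ‖(-(Complex.I * (G (pt (1 / 2) u) * logDeriv g (pt (1 / 2) u))))‖
      ≤ 1 / 2 := by
    intro u hu
    rw [norm_neg, norm_mul, Complex.norm_I, one_mul, norm_mul]
    calc _ ≤ 8 / Real.log t * (Real.log t / 16) := by
          gcongr
          · exact hGle u hu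
          · exact h8 _ (hmem u hu)
      _ = 1 / 2 := by field_simp; norm_num
  have hab : a ≤ b := by rw [ha, hb]; linarith
  have hmv := (convex_Icc a b).norm_image_sub_le_of_norm_hasDerivWithin_le hder hbnd
    (Set.left_mem_Icc.2 hab) (Set.right_mem_Icc.2 hab)
  have hba : b - a = 1 := by rw [ha, hb]; ring
  rw [show ‖(b : ℝ) - a‖ = 1 by rw [hba]; norm_num, mul_one] at hmv
  have h20 := hGle a (Set.left_mem_Icc.2 hab)
  have h21 := hGle b (Set.right_mem_Icc.2 hab)
  have h22 : 8 / Real.log t ≤ 1 / 8 := by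
    rw [div_le_iff₀ hlogt]; linarith
  have h23 : Complex.I = (G (pt (1 / 2) b)) - (G (pt (1 / 2) a)) -
      ((G (pt (1 / 2) b) - Complex.I * b) - (G (pt (1 / 2) a) - Complex.I * a)) := by
    have : (b : ℂ) - a = 1 := by exact_mod_cast congrArg (Complex.ofReal) hba
    linear_combination -Complex.I * this
  have h24 : (1 : ℝ) ≤ ‖G (pt (1 / 2) b)‖ + ‖G (pt (1 / 2) a)‖ + 1 / 2 := by
    calc (1 : ℝ) = ‖Complex.I‖ := by simp
      _ = ‖(G (pt (1 / 2) b)) - (G (pt (1 / 2) a)) -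
      ((G (pt (1 / 2) b) - Complex.I * b) - (G (pt (1 / 2) a) - Complex.I * a))‖ :=
          congrArg norm h23
      _ ≤ ‖G (pt (1 / 2) b) - G (pt (1 / 2) a)‖ +
          ‖(G (pt (1 / 2) b) - Complex.I * b) - (G (pt (1 / 2) a) - Complex.I * a)‖ :=
          norm_sub_le _ _
      _ ≤ _ := by
          gcongr
          exact norm_sub_le _ _
  linarith

end Pool.Agent.ZP
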