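import Pool.Agent.Lib.MP_af3d17_nt_h98.Psi
import Pool.Agent.Lib.MP_af3d17_nt_h98.Zer

/-!
A zero of `ζ'` close to the critical line has two zeros of `ζ` close to it.
-/

set_option autoImplicit false

namespace Pool.Agent.ZP

open Filter Topology Metric

namespace A

/-- logarithmic derivative from a local factorisation -/
theorem logDeriv_fact {k : ℕ} {z : Fin k → ℂ} {g : ℂ → ℂ} {c : ℂ}
    (hg : AnalyticOnNhd ℂ g (closedBall c (98 / 10)))
    (hf : ∀ s ∈ closedBall c (98 / 10), riemannZeta s = (∏ i, (s - z i)) * g s)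
    {s : ℂ} (hs : s ∈ closedBall c (97 / 10)) (hz : riemannZeta s ≠ 0) :
    logDeriv riemannZeta s = ∑ i, 1 / (s - z i) + logDeriv g s := by
  have hs8 : s ∈ closedBall c (98 / 10) := closedBall_subset_closedBall (by norm_num) hs
  have hsb : s ∈ ball c (98 / 10) := by
    rw [mem_ball]; rw [mem_closedBall] at hs; linarith
  have hev : riemannZeta =ᶠ[𝓝 s] fun w => (∏ i, (w - z i)) * g w := by
    filter_upwards [isOpen_ball.mem_nhds hsb] with w hw
    exact hf w (ball_subset_closedBall hw)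
  have h1 : logDeriv riemannZeta s = logDeriv (fun w => (∏ i, (w - z i)) * g w) s :=
    (logDeriv_congr_nhds hev).eq_of_nhds
  have h2 : (∏ i, (s - z i)) * g s ≠ 0 := by rw [← hf s hs8]; exact hz
  have h3 : ∏ i, (s - z i) ≠ 0 := left_ne_zero_of_mul h2
  have h4 : g s ≠ 0 := right_ne_zero_of_mul h2
  have h5 : ∀ i ∈ (Finset.univ : Finset (Fin k)), s - z i ≠ 0 := Finset.prod_ne_zero_iff.1 h3
  rw [h1, logDeriv_mul s h3 h4 (by fun_prop) (hg s hs8).differentiableAt]
  congr 1
  rw [logDeriv_prod h5 (fun i _ => by fun_prop)]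
  refine Finset.sum_congr rfl fun i _ => ?_
  rw [logDeriv_apply]
  simp

/-- Lipschitz bound for the logarithmic derivative of the zero free factor -/
theorem logDeriv_lip {g : ℂ → ℂ} {c : ℂ} {B : ℝ}
    (hg : AnalyticOnNhd ℂ g (closedBall c (98 / 10)))
    (hg0 : ∀ s ∈ closedBall c (97 / 10), g s ≠ 0)
    (hB : ∀ s ∈ closedBall c (96 / 10), ‖logDeriv g s‖ ≤ B) {x y : ℂ}
    (hx : x ∈ closedBall c (955 / 100)) (hy : y ∈ closedBall c (955 / 100)) :
    ‖logDeriv g y - logDeriv g x‖ ≤ 20 * B * ‖y - x‖ := by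
  have hd : ∀ s ∈ closedBall c (97 / 10), DifferentiableAt ℂ (logDeriv g) s := by
    intro s hs
    have h8 : s ∈ closedBall c (98 / 10) := closedBall_subset_closedBall (by norm_num) hs
    exact ((hg s h8).deriv.div (hg s h8) (hg0 s hs)).differentiableAt
  refine Convex.norm_image_sub_le_of_norm_deriv_le (𝕜 := ℂ)
    (fun s hs => hd s (closedBall_subset_closedBall (by norm_num) hs)) ?_
    (convex_closedBall c (955 / 100)) hx hy
  intro s hs
  rw [mem_closedBall] at hs
  have hsub : ∀ w ∈ closedBall s (5 / 100), w ∈ closedBall c (96 / 10) := by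
    intro w hw
    rw [mem_closedBall] at hw ⊢
    linarith [dist_triangle w s c]
  have h1 : DiffContOnCl ℂ (logDeriv g) (ball s (5 / 100)) := by
    apply DifferentiableOn.diffContOnCl
    rw [closure_ball s (by norm_num)]
    intro w hw
    exact (hd w (closedBall_subset_closedBall (by norm_num) (hsub w hw))).differentiableWithinAt
  have h2 := Complex.norm_deriv_le_of_forall_mem_sphere_norm_le (by norm_num) h1
    (fun w hw => hB w (hsub w (sphere_subset_closedBall hw)))
  calc ‖deriv (logDeriv g) s‖ ≤ B / (5 / 100) := h2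
    _ = 20 * B := by ring

theorem norm_pt_sub (σ σ' t : ℝ) : ‖pt σ t - pt σ' t‖ = |σ - σ'| := by
  have : pt σ t - pt σ' t = ((σ - σ' : ℝ) : ℂ) := by
    apply Complex.ext <;> simp
  rw [this, Complex.norm_real, Real.norm_eq_abs]

theorem norm_pt_sub' (σ t t' : ℝ) : ‖pt σ t - pt σ t'‖ = |t - t'| := by
  have : pt σ t - pt σ t' = ((t - t' : ℝ) : ℂ) * Complex.I := by
    apply Complex.ext <;> simp
  rw [this, norm_mul, Complex.norm_real, Complex.norm_I, mul_one, Real.norm_eq_abs]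

/-- real part of the inverse of `s - z` -/
theorem re_inv_sub {s z : ℂ} : (1 / (s - z)).re = (s.re - z.re) / ‖s - z‖ ^ 2 := by
  rw [one_div, Complex.inv_re, Complex.normSq_eq_norm_sq, Complex.sub_re]

theorem deriv_double (a : ℂ) (h : ℂ → ℂ) (hh : DifferentiableAt ℂ h a) :
    deriv (fun w => (w - a) * ((w - a) * h w)) a = 0 := by
  have h1 : HasDerivAt (fun w : ℂ => w - a) 1 a := (hasDerivAt_id a).sub_const a
  have h2 := h1.fun_mul (h1.fun_mul hh.hasDerivAt)
  rw [h2.deriv]
  simp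

/-- a member of a finite sum is at least the average -/
theorem exists_ge_avg {k : ℕ} {f : Fin k → ℝ} {S K : ℝ} (hS : 0 < S) (hK : (k : ℝ) ≤ K)
    (h : S ≤ ∑ i, f i) : ∃ i, S / K ≤ f i := by
  by_contra hcon
  push Not at hcon
  have hk : 0 < k := by
    rcases Nat.eq_zero_or_pos k with h0 | h0
    · subst h0
      simp at h
      linarith
    · exact h0
  have hk' : (0 : ℝ) < k := by exact_mod_cast hk
  have hKpos : 0 < K := lt_of_lt_of_le hk' hK
  have h1 : ∑ i, f i < ∑ _i : Fin k, S / K := by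
    apply Finset.sum_lt_sum_of_nonempty
    · exact ⟨⟨0, hk⟩, Finset.mem_univ _⟩
    · intro i _; exact hcon i
  rw [Finset.sum_const, Finset.card_univ, Fintype.card_fin, nsmul_eq_mul] at h1
  have h2 : (k : ℝ) * (S / K) ≤ S := by
    rw [mul_div_assoc', div_le_iff₀ hKpos]
    linarith [mul_le_mul_of_nonneg_left hK hS.le]
  linarith

end A

/-! ## A (file Near.lean) : a zero of `ζ'` close to the line has two zeros of `ζ` close to it -/

theorem near_of_deriv_zero {T0 : ℝ} (h : RH T0) : ∃ C T1 : ℝ, 0 < C ∧ 100 ≤ T1 ∧ ∀ ρ' : ℂ,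
    deriv riemannZeta ρ' = 0 → T1 ≤ ρ'.im → 1 / 2 < ρ'.re → C * (ρ'.re - 1 / 2) * (Real.log ρ'.im) ^ 2 ≤ 1 →
    ∃ ρ1 ρ2 : ℂ, ρ1 ≠ ρ2 ∧ riemannZeta ρ1 = 0 ∧ riemannZeta ρ2 = 0 ∧ ρ1.re = 1 / 2 ∧ ρ2.re = 1 / 2 ∧
      |ρ1.im - ρ'.im| ≤ C * Real.log ρ'.im * √(ρ'.re - 1 / 2) ∧
      |ρ2.im - ρ'.im| ≤ C * Real.log ρ'.im * √(ρ'.re - 1 / 2) := by
  obtain ⟨C1, T1, hC1, hT1, hloc⟩ := local_zeta
  obtain ⟨C2, T2, hT2, hLam⟩ := Lam_strip (1 / 2) (1 / 2)
  set K : ℝ := 1 + C1 with hK
  have hK1 : 1 ≤ K := by linarith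
  have hC1K : C1 ≤ K := by linarith
  -- the threshold
  obtain ⟨T3, hT3⟩ : ∃ T3 : ℝ, ∀ t ≥ T3, 1 ≤ Real.log t ∧
      4 * (Real.log (2 * Real.pi) + |C2|) ≤ Real.log t := by
    have := (Real.tendsto_log_atTop.eventually_ge_atTop
      (max 1 (4 * (Real.log (2 * Real.pi) + |C2|)))).exists_forall_of_atTop
    obtain ⟨T3, hT3⟩ := this
    exact ⟨T3, fun t ht => ⟨le_trans (le_max_left _ _) (hT3 t ht),
      le_trans (le_max_right _ _) (hT3 t ht)⟩⟩
  refine ⟨1000 * K ^ 3, max (max T1 T2) (max T3 (|T0| + 20)), by positivity, ?_, ?_⟩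
  · exact le_trans hT1 (le_trans (le_max_left _ _) (le_max_left _ _))
  intro ρ' hρ' hT hre hsmall
  set t := ρ'.im with ht
  set η := ρ'.re - 1 / 2 with hη
  have hη0 : 0 < η := by linarith
  have htT1 : T1 ≤ t := le_trans (le_trans (le_max_left _ _) (le_max_left _ _)) hT
  have htT2 : T2 ≤ t := le_trans (le_trans (le_max_right _ _) (le_max_left _ _)) hT
  have htT3 : T3 ≤ t := le_trans (le_trans (le_max_left _ _) (le_max_right _ _)) hT
  have htT0 : |T0| + 20 ≤ t := le_trans (le_trans (le_max_right _ _) (le_max_right _ _)) hT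
  have hT0t : T0 + 20 ≤ t := by linarith [le_abs_self T0]
  have ht20 : 20 ≤ t := by linarith [abs_nonneg T0]
  obtain ⟨hlog1, hlog2⟩ := hT3 t htT3
  set ℓ := Real.log t with hℓ
  have hℓ0 : 0 < ℓ := by linarith
  obtain ⟨k, z, g, hk, hz, hg, hf, hg0, hG⟩ := hloc t htT1
  set c := pt 10 t with hc
  -- smallness of η
  have hK3 : K ≤ K ^ 3 := by
    calc K = K ^ 1 := (pow_one K).symm
      _ ≤ K ^ 3 := pow_le_pow_right₀ hK1 (by norm_num)
  have hηℓ : 1000 * K ^ 3 * η * ℓ ^ 2 ≤ 1 := hsmall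
  have hℓ2 : 1 ≤ ℓ ^ 2 := one_le_pow₀ hlog1
  have hηK3 : 1000 * K ^ 3 * η ≤ 1 := by
    have : 0 ≤ 1000 * K ^ 3 * η := by positivity
    linarith [mul_le_mul_of_nonneg_left hℓ2 this]
  have hηK : 1000 * K * η ≤ 1 := by linarith [mul_le_mul_of_nonneg_right hK3 hη0.le]
  have hη1000 : 1000 * η ≤ 1 := by linarith [mul_le_mul_of_nonneg_right hK1 hη0.le]
  -- zeros in the disc are on the line, simple
  have hzre : ∀ i, (z i).re = 1 / 2 ∧ riemannZeta (z i) = 0 ∧ deriv riemannZeta (z i) ≠ 0 := by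
    intro i
    obtain ⟨hzi, hzi0⟩ := hz i
    rw [mem_closedBall, Complex.dist_eq] at hzi
    have h1 : |(z i - c).re| ≤ 97 / 10 := le_trans (Complex.abs_re_le_norm _) hzi
    have h2 : |(z i - c).im| ≤ 97 / 10 := le_trans (Complex.abs_im_le_norm _) hzi
    rw [Complex.sub_re, hc, pt_re, abs_le] at h1
    rw [Complex.sub_im, hc, pt_im, abs_le] at h2
    have h3 : IsUpperZero (z i) := by
      refine ⟨hzi0, by linarith [h1.1], ?_, by linarith [h2.1]⟩
      by_contra hge
      push Not at hge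
      exact riemannZeta_ne_zero_of_one_le_re hge hzi0
    have h4 := h (z i) h3 (by linarith [h2.1])
    exact ⟨h4.1, hzi0, h4.2⟩
  -- ζ(ρ') ≠ 0
  have hζρ' : riemannZeta ρ' ≠ 0 := by
    intro h0
    have h3 : IsUpperZero ρ' := by
      refine ⟨h0, by linarith, ?_, by linarith⟩
      by_contra hge
      push Not at hge
      exact riemannZeta_ne_zero_of_one_le_re hge h0
    have h4 := (h ρ' h3 (by linarith)).1
    linarith
  have hρ'pt : ρ' = pt (1 / 2 + η) t := by
    apply Complex.ext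
    · simp [hη]
    · simp [ht]
  have hρ'mem : ρ' ∈ closedBall c (955 / 100) := by
    rw [mem_closedBall, Complex.dist_eq, hρ'pt, hc, A.norm_pt_sub, abs_le]
    constructor <;> linarith
  -- a nearby point of the line which is not a zero
  obtain ⟨u, hu1, hu2, hu3⟩ : ∃ u : ℝ, t ≤ u ∧ u ≤ t + η ∧ ∀ i, pt (1 / 2) u ≠ z i := by
    have hinf : (Set.Icc t (t + η)).Infinite := Set.Icc_infinite (by linarith)
    have hfin : (Set.range fun i => (z i).im).Finite := Set.finite_range _
    obtain ⟨u, hu, hu'⟩ := hinf.exists_notMem_finite hfin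
    refine ⟨u, hu.1, hu.2, fun i hi => hu' ⟨i, ?_⟩⟩
    show (z i).im = u
    rw [← hi, pt_im]
  set s1 := pt (1 / 2) u with hs1
  have hs1c : ‖s1 - c‖ ≤ 95 / 10 + η := by
    have e1 : s1 - c = (pt (1 / 2) u - pt (1 / 2) t) + (pt (1 / 2) t - pt 10 t) := by
      rw [hs1, hc]; ring
    rw [e1]
    refine le_trans (norm_add_le _ _) ?_
    rw [A.norm_pt_sub, A.norm_pt_sub']
    have e2 : |u - t| ≤ η := by rw [abs_le]; constructor <;> linarith
    have e3 : |(1 / 2 : ℝ) - 10| = 95 / 10 := by norm_num [abs_of_neg]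
    rw [e3]; linarith
  have hs1mem : s1 ∈ closedBall c (955 / 100) := by
    rw [mem_closedBall, Complex.dist_eq]; linarith
  have hs1mem7 : s1 ∈ closedBall c (97 / 10) :=
    closedBall_subset_closedBall (by norm_num) hs1mem
  have hζs1 : riemannZeta s1 ≠ 0 := by
    rw [hf s1 (closedBall_subset_closedBall (by norm_num) hs1mem)]
    exact mul_ne_zero (Finset.prod_ne_zero_iff.2 fun i _ => sub_ne_zero.2 (hu3 i)) (hg0 s1 hs1mem7)
  -- real part of G at s1
  have hReG1 : 2 * (logDeriv g s1).re = -(Lam s1).re := by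
    have h1 := re_logDeriv_line (t := u) (by linarith) hζs1
    rw [A.logDeriv_fact hg hf hs1mem7 hζs1, Complex.add_re, Complex.re_sum] at h1
    have h2 : ∀ i, (1 / (s1 - z i)).re = 0 := by
      intro i
      rw [A.re_inv_sub, (hzre i).1, hs1, pt_re]; simp
    simp only [h2, Finset.sum_const_zero, zero_add] at h1
    exact h1
  have hLam1 : ℓ / 2 ≤ (Lam s1).re := by
    have h1 := hLam s1 (by simp [hs1]) (by simp [hs1]) (by simp only [hs1, pt_im]; linarith)
    have hu0 : 1 ≤ u := by linarith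
    have h2 : C2 / s1.im ≤ |C2| := by
      rw [hs1, pt_im]
      rw [div_le_iff₀ (by linarith)]
      linarith [le_abs_self C2, mul_le_mul_of_nonneg_left hu0 (abs_nonneg C2)]
    have h3 : |(Lam s1 - (Lt s1.im : ℂ)).re| ≤ |C2| :=
      le_trans (Complex.abs_re_le_norm _) (le_trans h1 h2)
    rw [Complex.sub_re, Complex.ofReal_re, abs_le] at h3
    have h4 : Lt s1.im = Real.log u - Real.log (2 * Real.pi) := by
      rw [hs1, pt_im, Lt, Real.log_div (by linarith) (by positivity)]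
    have h5 : ℓ ≤ Real.log u := Real.log_le_log (by linarith) hu1
    have h6 : 0 ≤ Real.log (2 * Real.pi) := by
      apply Real.log_nonneg
      have := Real.pi_gt_three
      linarith
    have h7 := abs_nonneg C2
    linarith [h3.1]
  have hReG1' : (logDeriv g s1).re ≤ -(ℓ / 4) := by linarith
  -- compare with ρ'
  have hdist : ‖s1 - ρ'‖ ≤ 2 * η := by
    have e1 : s1 - ρ' = (pt (1 / 2) u - pt (1 / 2) t) + (pt (1 / 2) t - pt (1 / 2 + η) t) := by
      rw [hs1, hρ'pt]; ring
    rw [e1]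
    refine le_trans (norm_add_le _ _) ?_
    rw [A.norm_pt_sub, A.norm_pt_sub']
    have e2 : |u - t| ≤ η := by rw [abs_le]; constructor <;> linarith
    have e3 : |(1 / 2 : ℝ) - (1 / 2 + η)| = η := by
      rw [show (1 / 2 : ℝ) - (1 / 2 + η) = -η by ring, abs_neg, abs_of_pos hη0]
    rw [e3]; linarith
  have hGlip := A.logDeriv_lip hg hg0 hG hρ'mem hs1mem
  have hGre : (logDeriv g ρ').re ≤ -(ℓ / 8) := by
    have h1 : |(logDeriv g s1 - logDeriv g ρ').re| ≤ 20 * (C1 * ℓ) * (2 * η) := by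
      refine le_trans (Complex.abs_re_le_norm _) (le_trans hGlip ?_)
      exact mul_le_mul_of_nonneg_left hdist (by positivity)
    rw [Complex.sub_re, abs_le] at h1
    have h2 : 20 * (C1 * ℓ) * (2 * η) ≤ ℓ / 25 := by
      have h3 : 40 * C1 * η ≤ 1 / 25 := by
        linarith [mul_le_mul_of_nonneg_right hC1K hη0.le]
      calc 20 * (C1 * ℓ) * (2 * η) = (40 * C1 * η) * ℓ := by ring
        _ ≤ 1 / 25 * ℓ := mul_le_mul_of_nonneg_right h3 hℓ0.le
        _ = ℓ / 25 := by ring
    linarith [h1.1]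
  -- the equation F(ρ') = 0
  have hρ'mem7 : ρ' ∈ closedBall c (97 / 10) :=
    closedBall_subset_closedBall (by norm_num) hρ'mem
  have hF : ∑ i, 1 / (ρ' - z i) + logDeriv g ρ' = 0 := by
    rw [← A.logDeriv_fact hg hf hρ'mem7 hζρ', logDeriv_apply, hρ', zero_div]
  have hReF : ℓ / 8 ≤ ∑ i, (1 / (ρ' - z i)).re := by
    have := congrArg Complex.re hF
    rw [Complex.add_re, Complex.re_sum, Complex.zero_re] at this
    linarith
  have hne : ∀ i, ρ' - z i ≠ 0 := by
    intro i hi
    apply hζρ'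
    rw [sub_eq_zero.1 hi]
    exact (hzre i).2.1
  have hnpos : ∀ i, 0 < ‖ρ' - z i‖ := fun i => norm_pos_iff.2 (hne i)
  obtain ⟨j, hj⟩ := A.exists_ge_avg (by positivity) hk hReF
  have hjd : ‖ρ' - z j‖ ^ 2 ≤ 8 * K * η := by
    rw [A.re_inv_sub, (hzre j).1] at hj
    have e1 : ℓ / 8 / (C1 * ℓ) = 1 / (8 * C1) := by field_simp
    rw [e1, div_le_div_iff₀ (by positivity) (by have := hnpos j; positivity)] at hj
    have e2 : ρ'.re - 1 / 2 = η := rfl
    rw [e2] at hj
    linarith [mul_le_mul_of_nonneg_right hC1K hη0.le]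
  have hKη : 0 ≤ 8 * K * η := by positivity
  set q := √(8 * K * η) with hq
  have hq0 : 0 < q := Real.sqrt_pos.2 (by positivity)
  have hqsq : q ^ 2 = 8 * K * η := Real.sq_sqrt hKη
  have hjd' : ‖ρ' - z j‖ ≤ q := by
    rw [hq]; exact Real.le_sqrt_of_sq_le hjd
  -- the second zero
  have hqb : K * ℓ * q ≤ 1 / 10 := by
    have h1 : (K * ℓ * q) ^ 2 ≤ (1 / 10) ^ 2 := by
      have : (K * ℓ * q) ^ 2 = 8 * (K ^ 3 * η * ℓ ^ 2) := by
        rw [mul_pow, mul_pow, hqsq]; ring
      rw [this]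
      linarith
    exact (abs_le_of_sq_le_sq' h1 (by norm_num)).2
  have hGn : ‖logDeriv g ρ'‖ ≤ K * ℓ := by
    refine le_trans (hG ρ' (closedBall_subset_closedBall (by norm_num) hρ'mem)) ?_
    exact mul_le_mul_of_nonneg_right hC1K hℓ0.le
  have hsecond : 1 / (2 * q) ≤ ∑ i, if i = j then (0 : ℝ) else 1 / ‖ρ' - z i‖ := by
    have e1 : 1 / (ρ' - z j) = -(∑ i, if i = j then (0 : ℂ) else 1 / (ρ' - z i)) - logDeriv g ρ' := by
      have e2 : ∑ i, 1 / (ρ' - z i) = 1 / (ρ' - z j)
          + ∑ i, if i = j then (0 : ℂ) else 1 / (ρ' - z i) := by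
        rw [← Finset.add_sum_erase Finset.univ _ (Finset.mem_univ j)]
        congr 1
        rw [← Finset.add_sum_erase Finset.univ (fun i => if i = j then (0 : ℂ) else 1 / (ρ' - z i))
          (Finset.mem_univ j), if_pos rfl, zero_add]
        refine Finset.sum_congr rfl fun i hi => ?_
        rw [if_neg (Finset.ne_of_mem_erase hi)]
      rw [e2] at hF
      linear_combination hF
    have e3 : 1 / q ≤ ‖1 / (ρ' - z j)‖ := by
      rw [norm_div, norm_one]
      exact one_div_le_one_div_of_le (hnpos j) hjd'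
    have e4 : ‖1 / (ρ' - z j)‖ ≤ (∑ i, if i = j then (0 : ℝ) else 1 / ‖ρ' - z i‖) + K * ℓ := by
      rw [e1]
      refine le_trans (norm_sub_le _ _) (add_le_add ?_ hGn)
      rw [norm_neg]
      refine le_trans (norm_sum_le _ _) (Finset.sum_le_sum fun i _ => ?_)
      split_ifs
      · simp
      · rw [norm_div, norm_one]
    have e5 : K * ℓ ≤ 1 / (2 * q) := by
      rw [le_div_iff₀ (by positivity)]
      linarith
    have e6 : 1 / q = 1 / (2 * q) + 1 / (2 * q) := by field_simp; norm_num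
    linarith
  obtain ⟨i, hi⟩ := A.exists_ge_avg (by positivity) hk hsecond
  have hij : i ≠ j := by
    intro hij
    rw [if_pos hij] at hi
    have : 0 < 1 / (2 * q) / (C1 * ℓ) := by positivity
    linarith
  rw [if_neg hij] at hi
  have hid : ‖ρ' - z i‖ ≤ 2 * q * (K * ℓ) := by
    rw [div_div, one_div_le_one_div (by positivity) (hnpos i)] at hi
    refine le_trans hi ?_
    exact mul_le_mul_of_nonneg_left (mul_le_mul_of_nonneg_right hC1K hℓ0.le) (by positivity)
  have hqη : q ≤ 3 * K * √η := by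
    rw [hq]
    apply Real.sqrt_le_iff.2
    constructor
    · positivity
    · rw [mul_pow, mul_pow, Real.sq_sqrt hη0.le]
      have h1 : K ^ 1 ≤ K ^ 2 := pow_le_pow_right₀ hK1 (by norm_num)
      rw [pow_one] at h1
      have h2 : 0 ≤ K ^ 2 * η := by positivity
      linarith [mul_le_mul_of_nonneg_right h1 hη0.le]
  have hsq0 : 0 < √η := Real.sqrt_pos.2 hη0
  refine ⟨z j, z i, ?_, (hzre j).2.1, (hzre i).2.1, (hzre j).1, (hzre i).1, ?_, ?_⟩
  · -- distinct since the zeros are simple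
    intro heq
    apply (hzre j).2.2
    have h8 : z j ∈ closedBall c (98 / 10) :=
      closedBall_subset_closedBall (by norm_num) (hz j).1
    have hb : z j ∈ ball c (98 / 10) := by
      have := (hz j).1
      rw [mem_closedBall] at this
      rw [mem_ball]; linarith
    have hev : riemannZeta =ᶠ[𝓝 (z j)] fun w => (∏ i, (w - z i)) * g w := by
      filter_upwards [isOpen_ball.mem_nhds hb] with w hw
      exact hf w (ball_subset_closedBall hw)
    rw [hev.deriv_eq]
    have hprod : ∀ w, ∏ i', (w - z i') = (w - z j) * ((w - z i) * ∏ i' ∈ (Finset.univ.erase j).erase i, (w - z i')) := by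
      intro w
      rw [← Finset.mul_prod_erase Finset.univ _ (Finset.mem_univ j),
        ← Finset.mul_prod_erase (Finset.univ.erase j) _
          (Finset.mem_erase.2 ⟨hij, Finset.mem_univ i⟩)]
    have hfun : (fun w => (∏ i, (w - z i)) * g w)
        = fun w => (w - z j) * ((w - z j) *
          ((∏ i' ∈ (Finset.univ.erase j).erase i, (w - z i')) * g w)) := by
      funext w
      rw [hprod w, heq]; ring
    rw [hfun]
    refine A.deriv_double _ _ ?_
    exact DifferentiableAt.mul (by fun_prop) (hg _ h8).differentiableAt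
  · have h1 : |(z j).im - t| ≤ ‖ρ' - z j‖ := by
      have := Complex.abs_im_le_norm (ρ' - z j)
      rw [Complex.sub_im, abs_sub_comm] at this
      exact this
    refine le_trans h1 (le_trans hjd' (le_trans hqη ?_))
    have : 3 * K ≤ 1000 * K ^ 3 * ℓ := by
      have h2 : 0 ≤ K ^ 3 := by positivity
      linarith [mul_le_mul_of_nonneg_left hlog1 h2]
    exact mul_le_mul_of_nonneg_right this hsq0.le
  · have h1 : |(z i).im - t| ≤ ‖ρ' - z i‖ := by
      have := Complex.abs_im_le_norm (ρ' - z i)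
      rw [Complex.sub_im, abs_sub_comm] at this
      exact this
    refine le_trans h1 (le_trans hid ?_)
    have h2 : 2 * q * (K * ℓ) ≤ 2 * (3 * K * √η) * (K * ℓ) := by
      apply mul_le_mul_of_nonneg_right _ (by positivity)
      linarith
    refine le_trans h2 ?_
    have h3 : 2 * (3 * K * √η) * (K * ℓ) = 6 * K ^ 2 * ℓ * √η := by ring
    rw [h3]
    apply mul_le_mul_of_nonneg_right _ hsq0.le
    apply mul_le_mul_of_nonneg_right _ hℓ0.le
    have h4 : K ^ 2 ≤ K ^ 3 := pow_le_pow_right₀ hK1 (by norm_num)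
    linarith [pow_pos (lt_of_lt_of_le one_pos hK1) 3]

end Pool.Agent.ZP
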