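import Pool.Agent.Lib.MP_af3d17_nt_h98.SeqDefs
import Pool.Agent.Lib.MP_af3d17_nt_h98.Zer

/-!
Counting: `log n ~ log γ_n` for the sequence of ordinates, if almost all zeros are simple and on
the critical line.
-/

set_option autoImplicit false

namespace Pool.Agent.ZP

open Filter Topology Metric

variable {γ : ℕ → ℝ}

/-- a value of the sequence is the ordinate of an upper zero -/
lemma exists_zero_of_index (hγ : IsOrdinateSeq γ) (n : ℕ) :
    ∃ ρ, IsUpperZero ρ ∧ ρ.im = γ n := by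
  have h1 : {m | γ m = γ n}.encard ≠ 0 := Set.encard_ne_zero.2 ⟨n, rfl⟩
  rw [hγ.count] at h1
  obtain ⟨p, hp⟩ := Set.encard_ne_zero.1 h1
  exact ⟨p.1, hp.1, hp.2.1⟩

/-- the ordinate of an upper zero occurs in the sequence -/
lemma exists_index_of_zero (hγ : IsOrdinateSeq γ) {ρ : ℂ} (h : IsUpperZero ρ) :
    ∃ n, γ n = ρ.im := by
  have h1 : {p : ℂ × ℕ | IsUpperZero p.1 ∧ p.1.im = ρ.im ∧
    (p.2 : ℕ∞) < analyticOrderAt riemannZeta p.1}.encard ≠ 0 :=
    Set.encard_ne_zero.2 ⟨(ρ, 0), h, rfl, lt_of_lt_of_le (by norm_num) (order_pos h)⟩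
  rw [← hγ.count] at h1
  obtain ⟨n, hn⟩ := Set.encard_ne_zero.1 h1
  exact ⟨n, hn⟩

/-- finitely many zeros below each height -/
lemma finite_zeros (T : ℝ) : {ρ : ℂ | IsUpperZero ρ ∧ ρ.im ≤ T}.Finite := by
  have h2 : ((Set.Icc (0 : ℝ) 1 ×ℂ Set.Icc 0 T) ∩ riemannZetaZeros).Finite :=
    IsCompact.inter_riemannZetaZeros_finite (isCompact_Icc.reProdIm isCompact_Icc)
  refine h2.subset ?_
  rintro ρ ⟨⟨h1, h2, h3, h4⟩, h5⟩
  refine ⟨?_, h1⟩
  rw [Complex.mem_reProdIm]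
  exact ⟨⟨h2.le, h3.le⟩, ⟨h4.le, h5⟩⟩

/-- zeros have finite order -/
lemma order_ne_top (ρ : ℂ) : analyticOrderAt riemannZeta ρ ≠ ⊤ := by
  intro htop
  rw [analyticOrderAt_eq_top] at htop
  obtain ⟨r, hr, hball⟩ := Metric.eventually_nhds_iff_ball.1 htop
  have h1 := IsCompact.inter_riemannZetaZeros_finite (isCompact_closedBall ρ (r / 2))
  have h2 : (closedBall ρ (r / 2) ∩ riemannZetaZeros) = closedBall ρ (r / 2) := by
    refine Set.inter_eq_left.2 fun z hz => ?_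
    exact hball z (closedBall_subset_ball (by linarith) hz)
  rw [h2] at h1
  have h3 : (closedBall ρ (r / 2)).Infinite := by
    refine Set.Infinite.mono ball_subset_closedBall ?_
    exact infinite_of_mem_nhds ρ (ball_mem_nhds ρ (by linarith))
  exact h3 h1

/-- finitely many indices at each height -/
lemma finite_eq (hγ : IsOrdinateSeq γ) (t : ℝ) : {n | γ n = t}.Finite := by
  rw [← Set.encard_lt_top_iff, hγ.count, Set.encard_lt_top_iff]
  have h1 : ({ρ : ℂ | IsUpperZero ρ ∧ ρ.im ≤ t}).Finite := finite_zeros t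
  refine (h1.biUnion (t := fun ρ => {ρ} ×ˢ {k : ℕ | (k : ℕ∞) < analyticOrderAt riemannZeta ρ})
    fun ρ _ => ?_).subset ?_
  · refine (Set.finite_singleton ρ).prod ?_
    obtain ⟨k, hk⟩ := ENat.ne_top_iff_exists.1 (order_ne_top ρ)
    rw [← hk]
    refine (Set.finite_lt_nat k).subset fun m hm => ?_
    exact_mod_cast hm
  · rintro ⟨ρ, k⟩ ⟨h2, h3, h4⟩
    rw [Set.mem_iUnion₂]
    exact ⟨ρ, ⟨h2, le_of_eq h3⟩, rfl, h4⟩

/-- finitely many indices below each height -/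
lemma finite_le (hγ : IsOrdinateSeq γ) (T : ℝ) : {n | γ n ≤ T}.Finite := by
  refine ((finite_zeros T).biUnion (t := fun ρ => {n | γ n = ρ.im})
    fun ρ _ => finite_eq hγ ρ.im).subset ?_
  intro n hn
  obtain ⟨ρ, h1, h2⟩ := exists_zero_of_index hγ n
  rw [Set.mem_iUnion₂]
  exact ⟨ρ, ⟨h1, h2.trans_le hn⟩, h2.symm⟩

lemma tendsto_gamma (hγ : IsOrdinateSeq γ) : Tendsto γ atTop atTop := by
  refine tendsto_atTop_atTop_of_monotone hγ.mono fun b => ?_
  by_contra hcon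
  push Not at hcon
  have h1 : {n | γ n ≤ b} = Set.univ := Set.eq_univ_of_forall fun n => (hcon n).le
  exact Set.infinite_univ (h1 ▸ finite_le hγ b)

/-- `γ` is injective above `T0` -/
lemma inj_of_rh (hγ : IsOrdinateSeq γ) {T0 : ℝ} (h : RH T0) {m n : ℕ} (hn : T0 < γ n)
    (hmn : γ m = γ n) : m = n := by
  have h1 : {k | γ k = γ n}.encard ≤ 1 := by
    rw [hγ.count, Set.encard_le_one_iff]
    rintro ⟨ρ, a⟩ ⟨σ, b⟩ ⟨h1, h2, h3⟩ ⟨h4, h5, h6⟩
    simp only at h1 h2 h3 h4 h5 h6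
    obtain ⟨h7, h8⟩ := h ρ h1 (by rw [h2]; exact hn)
    obtain ⟨h9, h10⟩ := h σ h4 (by rw [h5]; exact hn)
    rw [order_of_deriv_ne_zero h1 h8] at h3
    rw [order_of_deriv_ne_zero h4 h10] at h6
    have h11 : a = 0 := by
      have : a < 1 := by exact_mod_cast h3
      omega
    have h12 : b = 0 := by
      have : b < 1 := by exact_mod_cast h6
      omega
    rw [h11, h12, show ρ = σ from Complex.ext (h7.trans h9.symm) (h2.trans h5.symm)]
  exact Set.encard_le_one_iff.1 h1 m n hmn rfl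

/-- strict monotonicity above `T0` -/
lemma gap_pos (hγ : IsOrdinateSeq γ) {T0 : ℝ} (h : RH T0) {n : ℕ} (hn : T0 < γ n) :
    γ n < γ (n + 1) := by
  refine lt_of_le_of_ne (hγ.mono (Nat.le_succ n)) fun heq => ?_
  have := inj_of_rh hγ h hn heq.symm
  omega

lemma lt_index (hγ : IsOrdinateSeq γ) {m n : ℕ} (h : γ m < γ n) : m < n := by
  by_contra hcon
  exact absurd (hγ.mono (not_lt.1 hcon)) (not_le.2 h)

/-- values above `T0` are ordinates of zeros on the line -/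
lemma zeta_of_index (hγ : IsOrdinateSeq γ) {T0 : ℝ} (h : RH T0) {n : ℕ} (hn : T0 < γ n) :
    riemannZeta (pt (1 / 2) (γ n)) = 0 := by
  obtain ⟨ρ, h1, h2⟩ := exists_zero_of_index hγ n
  obtain ⟨h3, h4⟩ := h ρ h1 (by rw [h2]; exact hn)
  have h5 : ρ = pt (1 / 2) (γ n) := Complex.ext h3 h2
  rw [← h5]
  exact h1.1

lemma index_of_zeta (hγ : IsOrdinateSeq γ) {t : ℝ} (ht : 0 < t)
    (h : riemannZeta (pt (1 / 2) t) = 0) : ∃ n, γ n = t := by
  refine exists_index_of_zero hγ (ρ := pt (1 / 2) t) ⟨h, ?_, ?_, ht⟩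
  · rw [pt_re]; norm_num
  · rw [pt_re]; norm_num

/-- every window of length `20` at large height contains an ordinate -/
lemma exists_index_near (hγ : IsOrdinateSeq γ) : ∃ T1 : ℝ, ∀ t ≥ T1, ∃ n, |γ n - t| ≤ 10 := by
  obtain ⟨T1, h1⟩ := exists_zeta_zero
  refine ⟨max T1 11, fun t ht => ?_⟩
  have ht1 : T1 ≤ t := (le_max_left _ _).trans ht
  have ht2 : 11 ≤ t := (le_max_right _ _).trans ht
  obtain ⟨ρ, h2, h3, h4⟩ := h1 t ht1
  have h5 := abs_le.1 h4
  have h6 : IsUpperZero ρ := by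
    refine ⟨h2, by linarith, ?_, by linarith⟩
    by_contra hcon
    exact riemannZeta_ne_zero_of_one_le_re (not_lt.1 hcon) h2
  obtain ⟨n, hn⟩ := exists_index_of_zero hγ h6
  exact ⟨n, by rw [hn]; exact h4⟩

/-- `γ_n = O(n)` -/
lemma gamma_le (hγ : IsOrdinateSeq γ) : ∃ C : ℝ, 1 ≤ C ∧ ∀ n : ℕ, γ n ≤ C * (n + 1) := by
  obtain ⟨T1, h1⟩ := exists_index_near hγ
  choose m hm using fun j : ℕ => h1 (max T1 0 + 21 * j)
    (le_add_of_le_of_nonneg (le_max_left _ _) (by positivity))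
  have hm1 : StrictMono m := by
    refine strictMono_nat_of_lt_succ fun j => lt_index hγ ?_
    have h2 := abs_le.1 (hm j)
    have h3 := abs_le.1 (hm (j + 1))
    push_cast at h3
    linarith
  refine ⟨max T1 0 + 21, by linarith [le_max_right T1 0], fun n => ?_⟩
  have h2 := abs_le.1 (hm n)
  have h3 : γ n ≤ γ (m n) := hγ.mono (hm1.le_apply)
  have h4 : 0 ≤ max T1 0 * (n : ℝ) := mul_nonneg (le_max_right _ _) (by positivity)
  nlinarith

/-- few ordinates in a window of length one -/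
lemma ncard_window (hγ : IsOrdinateSeq γ) {T0 : ℝ} (h : RH T0) : ∃ C T1 : ℝ, 0 < C ∧ 100 ≤ T1 ∧
    T0 ≤ T1 ∧ ∀ t ≥ T1, (({n | t < γ n ∧ γ n ≤ t + 1}.ncard : ℕ) : ℝ) ≤ C * Real.log (t + 1) := by
  obtain ⟨C, T1, hC, hT1, hloc⟩ := local_zeta
  refine ⟨C, max T1 T0, hC, hT1.trans (le_max_left _ _), le_max_right _ _, fun t ht => ?_⟩
  have ht1 : T1 ≤ t := (le_max_left _ _).trans ht
  have ht0 : T0 ≤ t := (le_max_right _ _).trans ht
  obtain ⟨k, z, g, hk, -, -, hfac, hg, -⟩ := hloc (t + 1) (by linarith)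
  refine le_trans ?_ hk
  have h1 : ∀ n ∈ {n | t < γ n ∧ γ n ≤ t + 1}, ∃ i : Fin k, z i = pt (1 / 2) (γ n) := by
    rintro n ⟨h2, h3⟩
    have h4 : pt (1 / 2) (γ n) ∈ closedBall (pt 10 (t + 1)) (97 / 10) :=
      pt_mem_disc (by norm_num) (by nlinarith)
    have h5 : pt (1 / 2) (γ n) ∈ closedBall (pt 10 (t + 1)) (98 / 10) :=
      closedBall_subset_closedBall (by norm_num) h4
    have h6 := hfac _ h5
    rw [zeta_of_index hγ h (lt_of_le_of_lt ht0 h2)] at h6
    have h7 := mul_eq_zero.1 h6.symm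
    rcases h7 with h7 | h7
    · obtain ⟨i, -, hi⟩ := Finset.prod_eq_zero_iff.1 h7
      exact ⟨i, (sub_eq_zero.1 hi).symm⟩
    · exact absurd h7 (hg _ h4)
  have h2 : ((fun n => pt (1 / 2) (γ n)) '' {n | t < γ n ∧ γ n ≤ t + 1}) ⊆ Set.range z := by
    rintro _ ⟨n, hn, rfl⟩
    exact h1 n hn
  have h3 : Set.InjOn (fun n => pt (1 / 2) (γ n)) {n | t < γ n ∧ γ n ≤ t + 1} := by
    rintro m ⟨hm, -⟩ n ⟨hn, -⟩ heq
    have := congrArg Complex.im heq
    simp only [pt_im] at this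
    exact inj_of_rh hγ h (lt_of_le_of_lt ht0 hn) this
  have h4 : {n | t < γ n ∧ γ n ≤ t + 1}.ncard ≤ k := by
    rw [← h3.ncard_image]
    refine (Set.ncard_le_ncard h2 (Set.finite_range z)).trans ?_
    rw [← Set.image_univ]
    refine (Set.ncard_image_le Set.finite_univ).trans ?_
    rw [Set.ncard_univ, Nat.card_eq_fintype_card, Fintype.card_fin]
  exact_mod_cast h4

/-- `n = O(γ_n log γ_n)` -/
lemma le_gamma_log (hγ : IsOrdinateSeq γ) {T0 : ℝ} (h : RH T0) : ∃ K C : ℝ, 0 < K ∧ 0 < C ∧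
    ∀ᶠ n : ℕ in atTop, (n : ℝ) + 1 ≤ K + C * γ n * Real.log (γ n + 1) := by
  obtain ⟨C, T1, hC, hT1, -, hw⟩ := ncard_window hγ h
  have key : ∀ j : ℕ, (({n | γ n ≤ T1 + j}.ncard : ℕ) : ℝ) ≤
      ({n | γ n ≤ T1}.ncard : ℕ) + C * j * Real.log (T1 + j) := by
    intro j
    induction j with
    | zero => simp
    | succ j ih =>
      have h1 : {n | γ n ≤ T1 + ((j + 1 : ℕ) : ℝ)} ⊆ {n | γ n ≤ T1 + j} ∪
          {n | T1 + (j : ℝ) < γ n ∧ γ n ≤ T1 + j + 1} := by
        intro n hn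
        rcases le_or_gt (γ n) (T1 + j) with h2 | h2
        · exact Or.inl h2
        · right
          refine ⟨h2, ?_⟩
          have : γ n ≤ T1 + ((j + 1 : ℕ) : ℝ) := hn
          push_cast at this
          linarith
      have hfin : ({n | γ n ≤ T1 + j} ∪
          {n | T1 + (j : ℝ) < γ n ∧ γ n ≤ T1 + j + 1}).Finite :=
        (finite_le hγ _).union ((finite_le hγ (T1 + j + 1)).subset fun n hn => hn.2)
      have h2 : ({n | γ n ≤ T1 + ((j + 1 : ℕ) : ℝ)}.ncard : ℝ) ≤ ({n | γ n ≤ T1 + j}.ncard : ℝ) +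
          ({n | T1 + (j : ℝ) < γ n ∧ γ n ≤ T1 + j + 1}.ncard : ℝ) := by
        have := (Set.ncard_le_ncard h1 hfin).trans (Set.ncard_union_le _ _)
        exact_mod_cast this
      have h3 := hw (T1 + j) (by linarith [(Nat.cast_nonneg j : (0 : ℝ) ≤ j)])
      have hj : (0 : ℝ) ≤ j := Nat.cast_nonneg j
      have h4 : Real.log (T1 + j) ≤ Real.log (T1 + j + 1) :=
        Real.log_le_log (by linarith) (by linarith)
      have h5 : C * j * Real.log (T1 + j) ≤ C * j * Real.log (T1 + j + 1) :=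
        mul_le_mul_of_nonneg_left h4 (by positivity)
      push_cast
      have h6 : T1 + ((j : ℝ) + 1) = T1 + j + 1 := by ring
      rw [h6]
      push_cast at h2
      rw [h6] at h2
      linarith
  refine ⟨({n | γ n ≤ T1}.ncard : ℕ) + 1, C, by positivity, hC, ?_⟩
  filter_upwards [(tendsto_gamma hγ).eventually_ge_atTop T1] with n hn
  have hj1 := Nat.le_ceil (γ n - T1)
  have hj2 := Nat.ceil_lt_add_one (show 0 ≤ γ n - T1 by linarith)
  set j : ℕ := ⌈γ n - T1⌉₊ with hj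
  have h1 : (Set.Iic n : Set ℕ) ⊆ {m | γ m ≤ T1 + j} := by
    intro m hm
    have : γ m ≤ γ n := hγ.mono hm
    have h2 : γ m ≤ T1 + (j : ℝ) := by linarith
    exact h2
  have h2 : n + 1 ≤ {m | γ m ≤ T1 + (j : ℝ)}.ncard := by
    have := Set.ncard_le_ncard h1 (finite_le hγ _)
    have h3 : (Set.Iic n : Set ℕ).ncard = n + 1 := by
      rw [← Finset.coe_Iic, Set.ncard_coe_finset, Nat.card_Iic]
    rw [h3] at this
    exact this
  have h3 : (n : ℝ) + 1 ≤ ({m | γ m ≤ T1 + (j : ℝ)}.ncard : ℝ) := by exact_mod_cast h2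
  have h4 := key j
  have h5 : (j : ℝ) ≤ γ n := by linarith
  have h6 : T1 + (j : ℝ) ≤ γ n + 1 := by linarith
  have hj0 : (0 : ℝ) ≤ j := Nat.cast_nonneg j
  have h7 : Real.log (T1 + j) ≤ Real.log (γ n + 1) := Real.log_le_log (by linarith) h6
  have h8 : 0 ≤ Real.log (T1 + j) := Real.log_nonneg (by linarith)
  have h9 : C * j * Real.log (T1 + j) ≤ C * γ n * Real.log (γ n + 1) := by
    apply mul_le_mul _ h7 h8 _
    · exact mul_le_mul_of_nonneg_left h5 hC.le
    · have : 0 ≤ γ n := by linarith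
      positivity
  linarith

/-- `log γ_n ≤ (1 + ε) log n` -/
lemma log_gamma_le (hγ : IsOrdinateSeq γ) {ε : ℝ} (hε : 0 < ε) :
    ∀ᶠ n : ℕ in atTop, Real.log (γ n) ≤ (1 + ε) * Real.log (n + 1) := by
  obtain ⟨C, hC, h1⟩ := gamma_le hγ
  have h2 : Tendsto (fun n : ℕ => Real.log ((n : ℝ) + 1)) atTop atTop :=
    Real.tendsto_log_atTop.comp (tendsto_natCast_atTop_atTop.atTop_add tendsto_const_nhds)
  filter_upwards [h2.eventually_ge_atTop (Real.log C / ε),
    (tendsto_gamma hγ).eventually_gt_atTop 0] with n hn hn0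
  have h3 : Real.log (γ n) ≤ Real.log (C * (n + 1)) := Real.log_le_log hn0 (h1 n)
  rw [Real.log_mul (by linarith) (by positivity)] at h3
  rw [div_le_iff₀ hε] at hn
  linarith

/-- `log n ≤ (1 + ε) log γ_n` -/
lemma log_le_gamma (hγ : IsOrdinateSeq γ) {T0 : ℝ} (h : RH T0) {ε : ℝ} (hε : 0 < ε) :
    ∀ᶠ n : ℕ in atTop, Real.log (n + 1) ≤ (1 + ε) * Real.log (γ n) := by
  obtain ⟨K, C, hK, hC, h1⟩ := le_gamma_log hγ h
  have h2 : ∀ᶠ x : ℝ in atTop, K + C * x * Real.log (x + 1) ≤ x ^ (1 + ε) := by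
    have h3 := (isLittleO_log_rpow_atTop hε).def (show (0 : ℝ) < 1 / (4 * C) by positivity)
    have h4 : ∀ᶠ x : ℝ in atTop, 2 * K ≤ x ^ (1 + ε) :=
      (tendsto_rpow_atTop (by linarith)).eventually_ge_atTop (2 * K)
    filter_upwards [h3, h4, eventually_ge_atTop 2] with x hx1 hx2 hx3
    rw [Real.norm_eq_abs, Real.norm_eq_abs, abs_of_nonneg (Real.log_nonneg (by linarith)),
      abs_of_nonneg (Real.rpow_nonneg (by linarith) _)] at hx1
    have h5 : Real.log (x + 1) ≤ 2 * Real.log x := by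
      have h6 : Real.log (x + 1) ≤ Real.log (x ^ 2) :=
        Real.log_le_log (by linarith) (by nlinarith)
      rwa [Real.log_pow, Nat.cast_ofNat] at h6
    have h7 : C * x * Real.log (x + 1) ≤ C * x * (2 * (1 / (4 * C) * x ^ ε)) :=
      mul_le_mul_of_nonneg_left (by linarith) (by positivity)
    have h8 : C * x * (2 * (1 / (4 * C) * x ^ ε)) = x ^ (1 + ε) / 2 := by
      rw [Real.rpow_add (by linarith), Real.rpow_one]
      field_simp
      ring
    linarith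
  filter_upwards [h1, (tendsto_gamma hγ).eventually h2,
    (tendsto_gamma hγ).eventually_gt_atTop 0] with n hn1 hn2 hn3
  have h3 := Real.log_le_log (by positivity) (hn1.trans hn2)
  rwa [Real.log_rpow hn3] at h3

end Pool.Agent.ZP
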