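import Pool.Agent.Lib.MP_af3d17_nt_h98.Count
import Pool.Agent.Lib.MP_af3d17_nt_h98.Near

/-!
The two inequalities `2 α ≤ θ` and `θ ≤ 2 α`.
-/

set_option autoImplicit false

namespace Pool.Agent.ZP

open Filter Topology Metric

variable {γ : ℕ → ℝ}

/-! ### the filter of the zeros of `ζ'` -/

/-- the filter of the zeros of `ζ'` with ordinate tending to infinity -/
noncomputable def dz : Filter ℂ := comap Complex.im atTop ⊓ 𝓟 {ρ | deriv riemannZeta ρ = 0}

lemma dz_basis : dz.HasBasis (fun _ : ℝ => True)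
    (fun T => Complex.im ⁻¹' Set.Ici T ∩ {ρ | deriv riemannZeta ρ = 0}) :=
  (atTop_basis.comap Complex.im).inf_principal _

lemma dz_frequently {P : ℂ → Prop} : (∃ᶠ ρ in dz, P ρ) ↔
    ∀ T : ℝ, ∃ ρ : ℂ, T ≤ ρ.im ∧ deriv riemannZeta ρ = 0 ∧ P ρ := by
  rw [dz_basis.frequently_iff]
  constructor
  · intro h T
    obtain ⟨ρ, h1, h2⟩ := h trivial (i := T)
    exact ⟨ρ, h1.1, h1.2, h2⟩
  · intro h T _
    obtain ⟨ρ, h1, h2, h3⟩ := h T
    exact ⟨ρ, ⟨h1, h2⟩, h3⟩

lemma dz_eventually {P : ℂ → Prop} : (∀ᶠ ρ in dz, P ρ) ↔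
    ∃ T : ℝ, ∀ ρ : ℂ, T ≤ ρ.im → deriv riemannZeta ρ = 0 → P ρ := by
  rw [dz_basis.eventually_iff]
  constructor
  · rintro ⟨T, -, h⟩
    exact ⟨T, fun ρ h1 h2 => h ⟨h1, h2⟩⟩
  · rintro ⟨T, h⟩
    exact ⟨T, trivial, fun ρ h1 => h ρ h1.1 h1.2⟩

lemma theta_eq : theta = liminf derivExponent dz := rfl

/-! ### `α ≤ 0` and `θ ≤ 0` -/

lemma ereal_le_zero {x : EReal} (h : ∀ c : ℝ, 0 < c → x ≤ c) : x ≤ 0 := by
  by_contra hcon
  obtain ⟨c, h1, h2⟩ := EReal.lt_iff_exists_real_btwn.1 (not_le.1 hcon)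
  have h3 : (0 : ℝ) < c := by exact_mod_cast h1
  exact absurd (h c h3) (not_le.2 h2)

lemma gap_le (hγ : IsOrdinateSeq γ) : ∀ᶠ n : ℕ in atTop, γ (n + 1) - γ n ≤ 21 := by
  obtain ⟨T1, h1⟩ := exists_index_near hγ
  filter_upwards [(tendsto_gamma hγ).eventually_ge_atTop T1] with n hn
  obtain ⟨m, hm⟩ := h1 (γ n + 11) (by linarith)
  have h2 := abs_le.1 hm
  have h3 : n < m := lt_index hγ (by linarith)
  have h4 : γ (n + 1) ≤ γ m := hγ.mono h3
  linarith

lemma alpha_le_zero (hγ : IsOrdinateSeq γ) : alpha γ ≤ 0 := by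
  refine ereal_le_zero fun c hc => ?_
  refine liminf_le_of_frequently_le' (Eventually.frequently ?_)
  have h2 : Tendsto (fun n : ℕ => Real.log ((n : ℝ) + 1)) atTop atTop :=
    Real.tendsto_log_atTop.comp (tendsto_natCast_atTop_atTop.atTop_add tendsto_const_nhds)
  filter_upwards [gap_le hγ, h2.eventually_ge_atTop (Real.log 21 / c), h2.eventually_gt_atTop 0]
    with n h3 h4 h5
  rw [gapExponent]
  split_ifs with h6
  · exact bot_le
  · have h7 : 0 < γ (n + 1) - γ n := sub_pos.2 (lt_of_le_of_ne (hγ.mono (Nat.le_succ n)) (Ne.symm h6))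
    rw [EReal.coe_le_coe_iff, div_le_iff₀ h5]
    rw [div_le_iff₀ hc] at h4
    have := Real.log_le_log h7 h3
    linarith

lemma theta_le_zero : theta ≤ 0 := by
  refine ereal_le_zero fun c hc => ?_
  rw [theta_eq]
  refine liminf_le_of_frequently_le' (dz_frequently.2 fun T => ?_)
  obtain ⟨T1, h1⟩ := exists_deriv_zero
  obtain ⟨T2, h2⟩ := (Real.tendsto_log_atTop.eventually_ge_atTop (Real.log 20 / c)).exists_forall_of_atTop
  obtain ⟨ρ, h3, h4, h5, h6⟩ := h1 (max (max T1 T) (max T2 2) + 10)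
    (by linarith [(le_max_left T1 T).trans (le_max_left _ (max T2 2))])
  have h7 := abs_le.1 h6
  have h8 := (le_max_right T1 T).trans (le_max_left _ (max T2 2))
  have h9 := (le_max_left T2 2).trans (le_max_right (max T1 T) _)
  have h10 := (le_max_right T2 2).trans (le_max_right (max T1 T) _)
  refine ⟨ρ, by linarith, h3, ?_⟩
  have h11 := h2 ρ.im (by linarith)
  have h12 : 0 < Real.log ρ.im := Real.log_pos (by linarith)
  rw [derivExponent]
  split_ifs with h13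
  · exact bot_le
  · rw [EReal.coe_le_coe_iff, div_le_iff₀ h12]
    rw [div_le_iff₀ hc] at h11
    have := Real.log_le_log (show 0 < ρ.re - 1 / 2 by linarith [not_le.1 h13])
      (show ρ.re - 1 / 2 ≤ 20 by linarith)
    linarith

/-! ### the gaps in terms of `γ_n` -/

lemma gap_lower (hγ : IsOrdinateSeq γ) {T0 : ℝ} (h : RH T0) {a : ℝ} (ha : (a : EReal) < alpha γ) :
    ∀ᶠ n : ℕ in atTop, γ n ^ a ≤ γ (n + 1) - γ n := by
  obtain ⟨a', h1, h2⟩ := EReal.lt_iff_exists_real_btwn.1 ha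
  have h1' : a < a' := by exact_mod_cast h1
  have h3 : a' < 0 := by
    have : (a' : EReal) < 0 := lt_of_lt_of_le h2 (alpha_le_zero hγ)
    exact_mod_cast this
  have hε : 0 < a / a' - 1 := by
    rw [sub_pos, lt_div_iff_of_neg h3]
    linarith
  filter_upwards [eventually_lt_of_lt_liminf h2, log_le_gamma hγ h hε,
    (tendsto_natCast_atTop_atTop (R := ℝ)).eventually_gt_atTop 0,
    (tendsto_gamma hγ).eventually_gt_atTop 0] with n h4 h5 h6 h7
  have hlog : 0 < Real.log ((n : ℝ) + 1) := Real.log_pos (by linarith)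
  rw [gapExponent] at h4
  split_ifs at h4 with h8
  · exact absurd h4 not_lt_bot
  · have h9 : 0 < γ (n + 1) - γ n := sub_pos.2 (lt_of_le_of_ne (hγ.mono (Nat.le_succ n)) (Ne.symm h8))
    rw [EReal.coe_lt_coe_iff, lt_div_iff₀ hlog] at h4
    have h10 : a' * ((1 + (a / a' - 1)) * Real.log (γ n)) ≤ a' * Real.log ((n : ℝ) + 1) :=
      mul_le_mul_of_nonpos_left h5 h3.le
    have h11 : a' * ((1 + (a / a' - 1)) * Real.log (γ n)) = a * Real.log (γ n) := by
      have := h3.ne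
      field_simp
      ring
    rw [← Real.log_le_log_iff (Real.rpow_pos_of_pos h7 _) h9, Real.log_rpow h7]
    linarith

lemma gap_upper (hγ : IsOrdinateSeq γ) {T0 : ℝ} (h : RH T0) {b : ℝ} (hb0 : b < 0)
    (hb : alpha γ < (b : EReal)) :
    ∃ᶠ n : ℕ in atTop, γ (n + 1) - γ n ≤ γ n ^ b := by
  obtain ⟨b', h1, h2⟩ := EReal.lt_iff_exists_real_btwn.1 hb
  have h2' : b' < b := by exact_mod_cast h2
  have h3 : b' < 0 := h2'.trans hb0
  have hε : 0 < b' / b - 1 := by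
    rw [sub_pos, lt_div_iff_of_neg hb0]
    linarith
  refine ((frequently_lt_of_liminf_lt (by isBoundedDefault) h1).and_eventually
    ((log_gamma_le hγ hε).and (((tendsto_natCast_atTop_atTop (R := ℝ)).eventually_gt_atTop 0).and
    ((tendsto_gamma hγ).eventually_gt_atTop (max T0 0))))).mono ?_
  rintro n ⟨h4, h5, h6, h7⟩
  have hT0 : T0 < γ n := lt_of_le_of_lt (le_max_left _ _) h7
  have h0 : 0 < γ n := lt_of_le_of_lt (le_max_right _ _) h7
  have hlog : 0 < Real.log ((n : ℝ) + 1) := Real.log_pos (by linarith)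
  have h8 := gap_pos hγ h hT0
  rw [gapExponent, if_neg h8.ne', EReal.coe_lt_coe_iff, div_lt_iff₀ hlog] at h4
  have h10 : b * ((1 + (b' / b - 1)) * Real.log ((n : ℝ) + 1)) ≤ b * Real.log (γ n) :=
    mul_le_mul_of_nonpos_left h5 hb0.le
  have h11 : b * ((1 + (b' / b - 1)) * Real.log ((n : ℝ) + 1)) = b' * Real.log ((n : ℝ) + 1) := by
    have := hb0.ne
    field_simp
    ring
  rw [← Real.log_le_log_iff (sub_pos.2 h8) (Real.rpow_pos_of_pos h0 _), Real.log_rpow h0]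
  linarith

/-! ### multiplication by two in the extended reals -/

lemma two_mul_le {x y : EReal} (h : ∀ a : ℝ, (a : EReal) < x → ((2 * a : ℝ) : EReal) ≤ y) :
    2 * x ≤ y := by
  have h2 : (2 : EReal) = ((2 : ℝ) : EReal) := by norm_cast
  induction x with
  | bot => rw [EReal.mul_bot_of_pos (by rw [h2]; exact_mod_cast (by norm_num : (0 : ℝ) < 2))]; exact bot_le
  | coe x =>
    rw [h2, ← EReal.coe_mul]
    by_contra hcon
    obtain ⟨c, h3, h4⟩ := EReal.lt_iff_exists_real_btwn.1 (not_le.1 hcon)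
    have h4' : c < 2 * x := by exact_mod_cast h4
    have h5 := h (c / 2) (by exact_mod_cast (by linarith : c / 2 < x))
    rw [show 2 * (c / 2) = c by ring] at h5
    exact absurd h5 (not_le.2 h3)
  | top =>
    by_contra hcon
    obtain ⟨c, h3, h4⟩ := EReal.lt_iff_exists_real_btwn.1 (not_le.1 hcon)
    have h5 := h (c / 2) (EReal.coe_lt_top _)
    rw [show 2 * (c / 2) = c by ring] at h5
    exact absurd h5 (not_le.2 h3)

lemma le_two_mul {x y : EReal} (h : ∀ b : ℝ, x < (b : EReal) → y ≤ ((2 * b : ℝ) : EReal)) :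
    y ≤ 2 * x := by
  have h2 : (2 : EReal) = ((2 : ℝ) : EReal) := by norm_cast
  induction x with
  | top => rw [EReal.mul_top_of_pos (by rw [h2]; exact_mod_cast (by norm_num : (0 : ℝ) < 2))]; exact le_top
  | coe x =>
    rw [h2, ← EReal.coe_mul]
    by_contra hcon
    obtain ⟨c, h3, h4⟩ := EReal.lt_iff_exists_real_btwn.1 (not_le.1 hcon)
    have h3' : 2 * x < c := by exact_mod_cast h3
    have h5 := h (c / 2) (by exact_mod_cast (by linarith : x < c / 2))
    rw [show 2 * (c / 2) = c by ring] at h5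
    exact absurd h5 (not_le.2 h4)
  | bot =>
    by_contra hcon
    obtain ⟨c, h3, h4⟩ := EReal.lt_iff_exists_real_btwn.1 (not_le.1 hcon)
    have h5 := h (c / 2) (EReal.bot_lt_coe _)
    rw [show 2 * (c / 2) = c by ring] at h5
    exact absurd h5 (not_le.2 h4)

/-! ### `2 α ≤ θ` -/

/-- two zeros on the line close to `t` make a short gap -/
lemma short_gap (hγ : IsOrdinateSeq γ) {t d : ℝ} {ρ1 ρ2 : ℂ} (hne : ρ1 ≠ ρ2)
    (h1 : riemannZeta ρ1 = 0) (h2 : riemannZeta ρ2 = 0) (h3 : ρ1.re = 1 / 2) (h4 : ρ2.re = 1 / 2)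
    (h5 : |ρ1.im - t| ≤ d) (h6 : |ρ2.im - t| ≤ d) (ht : d < t) :
    ∃ n, γ (n + 1) - γ n ≤ 2 * d ∧ |γ n - t| ≤ d := by
  wlog hlt : ρ1.im < ρ2.im generalizing ρ1 ρ2
  · have hne' : ρ1.im ≠ ρ2.im := fun h => hne (Complex.ext (h3.trans h4.symm) h)
    exact this hne.symm h2 h1 h4 h3 h6 h5 (lt_of_le_of_ne (not_lt.1 hlt) (Ne.symm hne'))
  have h7 := abs_le.1 h5
  have h8 := abs_le.1 h6
  have e1 : ρ1 = pt (1 / 2) ρ1.im := Complex.ext h3 rfl
  have e2 : ρ2 = pt (1 / 2) ρ2.im := Complex.ext h4 rfl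
  obtain ⟨n, hn⟩ := index_of_zeta hγ (t := ρ1.im) (by linarith) (by rw [← e1]; exact h1)
  obtain ⟨m, hm⟩ := index_of_zeta hγ (t := ρ2.im) (by linarith) (by rw [← e2]; exact h2)
  have h9 : n < m := lt_index hγ (by rw [hn, hm]; exact hlt)
  have h10 : γ (n + 1) ≤ γ m := hγ.mono h9
  refine ⟨n, by linarith, by rw [hn]; exact h5⟩

/-- the elementary inequality at the end -/
lemma log_lt_rpow (C : ℝ) {e : ℝ} (he : 0 < e) : ∀ᶠ t : ℝ in atTop, C * Real.log t < t ^ e := by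
  have h3 := (isLittleO_log_rpow_atTop he).def (show (0 : ℝ) < 1 / (2 * (|C| + 1)) by positivity)
  filter_upwards [h3, eventually_ge_atTop 2] with x hx1 hx3
  have hx0 : 0 < x ^ e := Real.rpow_pos_of_pos (by linarith) _
  rw [Real.norm_eq_abs, Real.norm_eq_abs, abs_of_nonneg (Real.log_nonneg (by linarith)),
    abs_of_nonneg hx0.le] at hx1
  have hl : 0 ≤ Real.log x := Real.log_nonneg (by linarith)
  have h4 : C * Real.log x ≤ (|C| + 1) * Real.log x :=
    mul_le_mul_of_nonneg_right (by linarith [le_abs_self C]) hl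
  have h5 : (|C| + 1) * Real.log x ≤ (|C| + 1) * (1 / (2 * (|C| + 1)) * x ^ e) :=
    mul_le_mul_of_nonneg_left hx1 (by positivity)
  have h6 : (|C| + 1) * (1 / (2 * (|C| + 1)) * x ^ e) = x ^ e / 2 := by
    have : (|C| + 1) ≠ 0 := by positivity
    field_simp
  linarith

theorem two_alpha_le (hγ : IsOrdinateSeq γ) {T0 T1 : ℝ} (h : RH T0) (hD : DH T1) :
    2 * alpha γ ≤ theta := by
  refine two_mul_le fun a ha => ?_
  obtain ⟨a', h1, h2⟩ := EReal.lt_iff_exists_real_btwn.1 ha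
  have h1' : a < a' := by exact_mod_cast h1
  have h3 : a' < 0 := by
    have : (a' : EReal) < 0 := lt_of_lt_of_le h2 (alpha_le_zero hγ)
    exact_mod_cast this
  have ha0 : a < 0 := h1'.trans h3
  obtain ⟨C, T2, hC, hT2, hnear⟩ := near_of_deriv_zero h
  -- all large gaps are long
  obtain ⟨N, hN⟩ := (gap_lower hγ h h2).exists_forall_of_atTop
  -- largeness
  obtain ⟨T3, hT3⟩ := (((log_lt_rpow 1 (show 0 < -a / 2 by linarith)).and
    ((log_lt_rpow (C * C) (show 0 < -a / 2 by linarith)).and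
    ((log_lt_rpow C (show 0 < -a by linarith)).and
    (log_lt_rpow (2 * C * 2 ^ (-a')) (show 0 < a' - a by linarith))))).and
    (eventually_ge_atTop 100)).exists_forall_of_atTop
  rw [theta_eq]
  refine le_liminf_of_le (by isBoundedDefault) (dz_eventually.2
    ⟨max (max T2 T3) (max (γ N + 2) (T1 + 1)), fun ρ hρ1 hρ2 => ?_⟩)
  have g1 : T2 ≤ ρ.im := ((le_max_left _ _).trans (le_max_left _ _)).trans hρ1
  have g2 : T3 ≤ ρ.im := ((le_max_right _ _).trans (le_max_left _ _)).trans hρ1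
  have g3 : γ N + 2 ≤ ρ.im := ((le_max_left _ _).trans (le_max_right _ _)).trans hρ1
  have g4 : T1 + 1 ≤ ρ.im := ((le_max_right _ _).trans (le_max_right _ _)).trans hρ1
  have hre : 1 / 2 < ρ.re := hD ρ hρ2 (by linarith)
  set t := ρ.im with ht
  set η := ρ.re - 1 / 2 with hη
  have hη0 : 0 < η := by linarith
  obtain ⟨⟨k1, k2, k3, k4⟩, k5⟩ := hT3 t g2
  have ht0 : 0 < t := by linarith
  have hlog : 0 < Real.log t := Real.log_pos (by linarith)
  rw [derivExponent, if_neg (not_le.2 hre), EReal.coe_le_coe_iff, ← ht, ← hη, le_div_iff₀ hlog]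
  by_contra hcon
  push Not at hcon
  -- `η < t^(2a)`
  have m1 : η < t ^ (2 * a) := by
    rwa [← Real.log_lt_log_iff hη0 (Real.rpow_pos_of_pos ht0 _), Real.log_rpow ht0]
  have m2 : √η ≤ t ^ a := by
    rw [Real.sqrt_le_left (Real.rpow_pos_of_pos ht0 _).le, ← Real.rpow_natCast (t ^ a) 2,
      ← Real.rpow_mul ht0.le]
    refine m1.le.trans (le_of_eq ?_)
    congr 1
    push_cast
    ring
  have m3 : t ^ a * t ^ (-a) = 1 := by
    rw [← Real.rpow_add ht0]
    simp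
  have hta : 0 < t ^ a := Real.rpow_pos_of_pos ht0 _
  have hta' : 0 < t ^ (-a) := Real.rpow_pos_of_pos ht0 _
  have hta2 : 0 < t ^ (-a / 2) := Real.rpow_pos_of_pos ht0 _
  have m4 : t ^ (-a / 2) * t ^ (-a / 2) = t ^ (-a) := by
    rw [← Real.rpow_add ht0]
    congr 1
    ring
  have m5 : t ^ (2 * a) = t ^ a * t ^ a := by
    rw [← Real.rpow_add ht0]
    congr 1
    ring
  have m6 : C * η * Real.log t ^ 2 ≤ 1 := by
    have q1 : C * η * Real.log t ^ 2 ≤ C * (t ^ a * t ^ a) * Real.log t ^ 2 := by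
      rw [m5] at m1
      gcongr
    have q2 : Real.log t ^ 2 ≤ t ^ (-a) := by
      rw [← m4]
      nlinarith
    have q3 : C * (t ^ a * t ^ a) * Real.log t ^ 2 ≤ C * (t ^ a * t ^ a) * t ^ (-a) := by
      gcongr
    have q4 : C * (t ^ a * t ^ a) * t ^ (-a) = C * t ^ a := by
      calc C * (t ^ a * t ^ a) * t ^ (-a) = C * t ^ a * (t ^ a * t ^ (-a)) := by ring
        _ = C * t ^ a := by rw [m3, mul_one]
    have q5 : C ≤ t ^ (-a) := by
      have : 1 ≤ Real.log t := by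
        rw [Real.le_log_iff_exp_le ht0]
        linarith [Real.exp_one_lt_d9]
      nlinarith
    have q6 : C * t ^ a ≤ t ^ (-a) * t ^ a := mul_le_mul_of_nonneg_right q5 hta.le
    rw [mul_comm (t ^ (-a))] at q6
    linarith
  obtain ⟨ρ1, ρ2, hne, z1, z2, r1, r2, d1, d2⟩ := hnear ρ hρ2 g1 hre m6
  have m7 : C * Real.log t * √η ≤ C * Real.log t * t ^ a := by gcongr
  have m8 : C * Real.log t * t ^ a ≤ 1 := by
    rw [← m3, mul_comm (t ^ a)]
    exact mul_le_mul_of_nonneg_right k3.le hta.le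
  obtain ⟨n, hn1, hn2⟩ := short_gap hγ hne z1 z2 r1 r2 (d1.trans m7) (d2.trans m7)
    (by linarith)
  have hn3 := abs_le.1 hn2
  have hn4 : N ≤ n := (lt_index hγ (by linarith : γ N < γ n)).le
  have hn5 := hN n hn4
  have hn0 : 0 < γ n := by linarith
  -- `γ n ≤ 2 t`
  have m9 : (2 * t) ^ a' ≤ γ n ^ a' :=
    Real.rpow_le_rpow_of_nonpos hn0 (by linarith) h3.le
  rw [Real.mul_rpow (by norm_num) ht0.le] at m9
  have m10 : (2 : ℝ) ^ a' * 2 ^ (-a') = 1 := by
    rw [← Real.rpow_add (by norm_num)]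
    simp
  have m11 : t ^ a * t ^ (a' - a) = t ^ a' := by
    rw [← Real.rpow_add ht0]
    congr 1
    ring
  have h2a : (0 : ℝ) < 2 ^ a' := Real.rpow_pos_of_pos (by norm_num) _
  have m12 : 2 ^ a' * t ^ a * (2 * C * 2 ^ (-a') * Real.log t) < 2 ^ a' * t ^ a * t ^ (a' - a) :=
    mul_lt_mul_of_pos_left k4 (by positivity)
  have m13 : 2 ^ a' * t ^ a * (2 * C * 2 ^ (-a') * Real.log t) = 2 * (C * Real.log t * t ^ a) := by
    calc 2 ^ a' * t ^ a * (2 * C * 2 ^ (-a') * Real.log t)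
        = (2 ^ a' * 2 ^ (-a')) * (2 * (C * Real.log t * t ^ a)) := by ring
      _ = _ := by rw [m10, one_mul]
  have m14 : 2 ^ a' * t ^ a * t ^ (a' - a) = 2 ^ a' * t ^ a' := by rw [mul_assoc, m11]
  linarith

/-! ### `θ ≤ 2 α` -/

theorem theta_le_two_alpha (hγ : IsOrdinateSeq γ) {T0 T1 : ℝ} (h : RH T0) (hD : DH T1)
    (hpair : ∃ C T1 : ℝ, 0 < C ∧ 100 ≤ T1 ∧ ∀ a b : ℝ,
      T1 ≤ a → a < b → (b - a) * C * (Real.log a) ^ 2 ≤ 1 →
      riemannZeta (pt (1 / 2) a) = 0 → riemannZeta (pt (1 / 2) b) = 0 →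
      (∀ u : ℝ, a < u → u < b → riemannZeta (pt (1 / 2) u) ≠ 0) →
      ∃ ρ' : ℂ, deriv riemannZeta ρ' = 0 ∧ |ρ'.im - a| ≤ 1 ∧
        |ρ'.re - 1 / 2| ≤ C * Real.log a * (b - a) ^ 2) :
    theta ≤ 2 * alpha γ := by
  refine le_two_mul fun b hb => ?_
  rcases le_or_gt 0 b with hb0 | hb0
  · refine theta_le_zero.trans ?_
    exact_mod_cast (by linarith : (0 : ℝ) ≤ 2 * b)
  obtain ⟨b', h1, h2⟩ := EReal.lt_iff_exists_real_btwn.1 hb
  have h2' : b' < b := by exact_mod_cast h2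
  have hb' : b' < 0 := h2'.trans hb0
  obtain ⟨C, T2, hC, hT2, hp⟩ := hpair
  obtain ⟨T3, hT3⟩ := ((log_lt_rpow 1 (show 0 < -b' / 2 by linarith)).and
    ((log_lt_rpow C (show 0 < -b' / 2 by linarith)).and
    (log_lt_rpow (C * 2 ^ (-(2 * b))) (show 0 < 2 * (b - b') by linarith)))).exists_forall_of_atTop
  rw [theta_eq]
  refine liminf_le_of_frequently_le' (dz_frequently.2 fun T => ?_)
  obtain ⟨n, hn1, hn2⟩ := ((gap_upper hγ h hb' h1).and_eventually
    ((tendsto_gamma hγ).eventually_gt_atTop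
      (max (max (T + 1) (T1 + 1)) (max (max T0 T2) (max T3 100))))).exists
  have g1 : T + 1 < γ n := (((le_max_left _ _).trans (le_max_left _ _))).trans_lt hn2
  have g2 : T1 + 1 < γ n := (((le_max_right _ _).trans (le_max_left _ _))).trans_lt hn2
  have g3 : T0 < γ n := (((le_max_left _ _).trans (le_max_left _ _)).trans (le_max_right _ _)).trans_lt hn2
  have g4 : T2 < γ n := (((le_max_right _ _).trans (le_max_left _ _)).trans (le_max_right _ _)).trans_lt hn2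
  have g5 : T3 < γ n := (((le_max_left _ _).trans (le_max_right _ _)).trans (le_max_right _ _)).trans_lt hn2
  have g6 : 100 < γ n := (((le_max_right _ _).trans (le_max_right _ _)).trans (le_max_right _ _)).trans_lt hn2
  have hgap := gap_pos hγ h g3
  obtain ⟨k1, k2, k3⟩ := hT3 (γ n) g5.le
  set x := γ n with hx
  have hx0 : 0 < x := by linarith
  have hlog : 0 < Real.log x := Real.log_pos (by linarith)
  have hxb : 0 < x ^ b' := Real.rpow_pos_of_pos hx0 _
  have hxb2 : 0 < x ^ (-b' / 2) := Real.rpow_pos_of_pos hx0 _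
  have m3 : x ^ b' * x ^ (-b') = 1 := by
    rw [← Real.rpow_add hx0]
    simp
  have m4 : x ^ (-b' / 2) * x ^ (-b' / 2) = x ^ (-b') := by
    rw [← Real.rpow_add hx0]
    congr 1
    ring
  have m5 : (γ (n + 1) - x) * C * Real.log x ^ 2 ≤ 1 := by
    have q1 : C * Real.log x ^ 2 ≤ x ^ (-b') := by
      rw [← m4, sq, ← mul_assoc]
      exact mul_le_mul k2.le (by linarith) hlog.le hxb2.le
    calc (γ (n + 1) - x) * C * Real.log x ^ 2 = (γ (n + 1) - x) * (C * Real.log x ^ 2) := by ring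
      _ ≤ x ^ b' * x ^ (-b') := mul_le_mul hn1 q1 (by positivity) hxb.le
      _ = 1 := m3
  obtain ⟨ρ, d1, d2, d3⟩ := hp x (γ (n + 1)) g4.le hgap m5 (zeta_of_index hγ h g3)
    (zeta_of_index hγ h (g3.trans hgap)) (fun u hu1 hu2 hu3 => by
      obtain ⟨m, hm⟩ := index_of_zeta hγ (by linarith) hu3
      have hm1 : n < m := lt_index hγ (by rw [hm]; exact hu1)
      have hm2 : m < n + 1 := lt_index hγ (by rw [hm]; exact hu2)
      omega)
  have d2' := abs_le.1 d2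
  refine ⟨ρ, by linarith, d1, ?_⟩
  have hre : 1 / 2 < ρ.re := hD ρ d1 (by linarith)
  have him : 0 < ρ.im := by linarith
  have hlog' : 0 < Real.log ρ.im := Real.log_pos (by linarith)
  rw [derivExponent, if_neg (not_le.2 hre), EReal.coe_le_coe_iff, div_le_iff₀ hlog',
    ← Real.log_rpow him]
  refine Real.log_le_log (by linarith) ?_
  have e1 : (2 * x) ^ (2 * b) ≤ ρ.im ^ (2 * b) :=
    Real.rpow_le_rpow_of_nonpos him (by linarith) (by linarith)
  rw [Real.mul_rpow (by norm_num) hx0.le] at e1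
  have e2 : ρ.re - 1 / 2 ≤ C * Real.log x * (γ (n + 1) - x) ^ 2 := (le_abs_self _).trans d3
  have e3 : (γ (n + 1) - x) ^ 2 ≤ (x ^ b') ^ 2 := by
    have : 0 ≤ γ (n + 1) - x := by linarith
    gcongr
  have e4 : C * Real.log x * (γ (n + 1) - x) ^ 2 ≤ C * Real.log x * (x ^ b') ^ 2 := by gcongr
  have e5 : (2 : ℝ) ^ (2 * b) * 2 ^ (-(2 * b)) = 1 := by
    rw [← Real.rpow_add (by norm_num)]
    simp
  have e6 : (x ^ b') ^ 2 * x ^ (2 * (b - b')) = x ^ (2 * b) := by
    rw [← Real.rpow_natCast (x ^ b') 2, ← Real.rpow_mul hx0.le, ← Real.rpow_add hx0]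
    congr 1
    push_cast
    ring
  have h2b : (0 : ℝ) < 2 ^ (2 * b) := Real.rpow_pos_of_pos (by norm_num) _
  have e7 : 2 ^ (2 * b) * (x ^ b') ^ 2 * (C * 2 ^ (-(2 * b)) * Real.log x) ≤
      2 ^ (2 * b) * (x ^ b') ^ 2 * x ^ (2 * (b - b')) :=
    mul_le_mul_of_nonneg_left k3.le (by positivity)
  have e8 : 2 ^ (2 * b) * (x ^ b') ^ 2 * (C * 2 ^ (-(2 * b)) * Real.log x) =
      C * Real.log x * (x ^ b') ^ 2 := by
    calc 2 ^ (2 * b) * (x ^ b') ^ 2 * (C * 2 ^ (-(2 * b)) * Real.log x)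
        = (2 ^ (2 * b) * 2 ^ (-(2 * b))) * (C * Real.log x * (x ^ b') ^ 2) := by ring
      _ = _ := by rw [e5, one_mul]
  have e9 : 2 ^ (2 * b) * (x ^ b') ^ 2 * x ^ (2 * (b - b')) = 2 ^ (2 * b) * x ^ (2 * b) := by
    rw [mul_assoc, e6]
  linarith

end Pool.Agent.ZP
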