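import Pool.Agent.Lib.MP_af3d17_nt_h98.Defs

/-! Factorisation of a bounded holomorphic function in a disc, bound for the logarithmic
derivative of the zero-free factor (Jensen, Borel-Carathéodory), three circles. -/

set_option autoImplicit false

namespace Pool.Agent.ZP

open Filter Topology Metric Set

lemma analyticAt_dslope {g : ℂ → ℂ} {a b : ℂ} (hg : AnalyticAt ℂ g b) :
    AnalyticAt ℂ (dslope g a) b := by
  rcases eq_or_ne b a with rfl | h
  · obtain ⟨p, hp⟩ := hg
    exact ⟨_, hp.has_fpower_series_dslope_fslope⟩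
  · refine AnalyticAt.congr ?_ (dslope_eventuallyEq_slope_of_ne g h).symm
    have h1 : AnalyticAt ℂ (fun x => (x - a)⁻¹ * (g x - g a)) b := by
      refine AnalyticAt.mul ?_ (hg.sub analyticAt_const)
      exact (analyticAt_id.sub analyticAt_const).inv (sub_ne_zero.2 h)
    refine h1.congr (Eventually.of_forall fun x => ?_)
    simp [slope_def_field, div_eq_inv_mul]

/-- `f` has at least `k` zeros in the disc of radius `r'` -/
def Fac (f : ℂ → ℂ) (c : ℂ) (r' R : ℝ) (k : ℕ) : Prop :=
  ∃ (z : Fin k → ℂ) (g : ℂ → ℂ), (∀ i, z i ∈ closedBall c r' ∧ f (z i) = 0) ∧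
    AnalyticOnNhd ℂ g (closedBall c R) ∧ ∀ s, f s = (∏ i, (s - z i)) * g s

lemma fac_zero {f : ℂ → ℂ} {c : ℂ} {r' R : ℝ} (hf : AnalyticOnNhd ℂ f (closedBall c R)) :
    Fac f c r' R 0 :=
  ⟨Fin.elim0, f, fun i => i.elim0, hf, fun s => by simp⟩

lemma fac_succ {f : ℂ → ℂ} {c : ℂ} {r' R : ℝ} {k : ℕ} {z : Fin k → ℂ} {g : ℂ → ℂ}
    (hz : ∀ i, z i ∈ closedBall c r' ∧ f (z i) = 0) (hg : AnalyticOnNhd ℂ g (closedBall c R))
    (hfg : ∀ s, f s = (∏ i, (s - z i)) * g s) {a : ℂ} (ha : a ∈ closedBall c r') (hga : g a = 0) :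
    Fac f c r' R (k + 1) := by
  refine ⟨Fin.cons a z, dslope g a, ?_, fun b hb => analyticAt_dslope (hg b hb), ?_⟩
  · intro i
    refine Fin.cases ?_ (fun j => ?_) i
    · simp only [Fin.cons_zero]
      exact ⟨ha, by rw [hfg, hga, mul_zero]⟩
    · simp only [Fin.cons_succ]
      exact hz j
  · intro s
    rw [Fin.prod_univ_succ]
    simp only [Fin.cons_zero, Fin.cons_succ]
    have h1 : g s = (s - a) * dslope g a s := by
      have := sub_smul_dslope g a s
      rw [hga, sub_zero, smul_eq_mul] at this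
      exact this.symm
    rw [hfg, h1]
    ring

lemma norm_blaschke {R : ℝ} {c w s : ℂ} (hs : ‖s - c‖ = R) :
    ‖((R : ℂ) ^ 2 - (starRingEnd ℂ) (w - c) * (s - c))‖ = R * ‖s - w‖ := by
  have h1 : ((R : ℂ) ^ 2) = (s - c) * (starRingEnd ℂ) (s - c) := by
    rw [Complex.mul_conj, Complex.normSq_eq_norm_sq, hs]
    push_cast
    ring
  have h2 : ((R : ℂ) ^ 2 - (starRingEnd ℂ) (w - c) * (s - c))
      = (s - c) * (starRingEnd ℂ) (s - w) := by
    rw [h1]
    simp only [map_sub]
    ring
  rw [h2, norm_mul, hs, Complex.norm_conj]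

lemma norm_le_of_sphere {c : ℂ} {R M : ℝ} (hR : 0 < R) {g : ℂ → ℂ}
    (hg : AnalyticOnNhd ℂ g (closedBall c R)) (hM : ∀ z ∈ sphere c R, ‖g z‖ ≤ M) :
    ∀ z ∈ closedBall c R, ‖g z‖ ≤ M := by
  intro z hz
  have hcl : closure (ball c R) = closedBall c R := closure_ball c hR.ne'
  have hdc : DiffContOnCl ℂ g (ball c R) := by
    refine DifferentiableOn.diffContOnCl ?_
    rw [hcl]
    exact fun w hw => (hg w hw).differentiableAt.differentiableWithinAt
  refine Complex.norm_le_of_forall_mem_frontier_norm_le isBounded_ball hdc ?_ (by rw [hcl]; exact hz)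
  intro w hw
  rw [frontier_ball c hR.ne'] at hw
  exact hM w hw

lemma fac_bound {f : ℂ → ℂ} {c : ℂ} {r' R M : ℝ} (h0 : 0 < r') (h1 : r' < R)
    (hM0 : 0 < M) (hM : ∀ z ∈ closedBall c R, ‖f z‖ ≤ M) (hc : 1 / M ≤ ‖f c‖) {k : ℕ}
    (hk : Fac f c r' R k) : (R / r') ^ k ≤ M ^ 2 := by
  obtain ⟨z, g, hz, hg, hfg⟩ := hk
  have hR : 0 < R := h0.trans h1
  set B : ℂ → ℂ := fun s => g s * ∏ i, (((R : ℂ) ^ 2 - (starRingEnd ℂ) (z i - c) * (s - c)) / R)
    with hB
  have hBan : AnalyticOnNhd ℂ B (closedBall c R) := by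
    intro s hs
    refine (hg s hs).mul ?_
    refine Finset.analyticAt_fun_prod _ fun i _ => ?_
    fun_prop
  have hBsph : ∀ s ∈ sphere c R, ‖B s‖ ≤ M := by
    intro s hs
    have hs' : ‖s - c‖ = R := by rwa [mem_sphere, dist_eq_norm] at hs
    have h2 : ‖B s‖ = ‖f s‖ := by
      rw [hB, hfg]
      simp only [norm_mul, norm_prod, norm_div, norm_blaschke hs']
      have h3 : ∀ i, R * ‖s - z i‖ / ‖(R : ℂ)‖ = ‖s - z i‖ := by
        intro i
        rw [Complex.norm_real, Real.norm_eq_abs, abs_of_pos hR]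
        field_simp
      simp only [h3]
      ring
    rw [h2]
    exact hM s (sphere_subset_closedBall hs)
  have hBc := norm_le_of_sphere hR hBan hBsph c (mem_closedBall_self hR.le)
  have hBc' : ‖B c‖ = ‖g c‖ * R ^ k := by
    rw [hB]
    simp only [sub_self, mul_zero, sub_zero, Finset.prod_const, Finset.card_univ, Fintype.card_fin,
      norm_mul, norm_pow, norm_div]
    rw [Complex.norm_real, Real.norm_eq_abs, abs_of_pos hR]
    congr 2
    field_simp
  rw [hBc'] at hBc
  have hfc : ‖f c‖ ≤ ‖g c‖ * r' ^ k := by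
    rw [hfg, norm_mul, norm_prod, mul_comm]
    gcongr
    calc ∏ i, ‖c - z i‖ ≤ ∏ _i : Fin k, r' := by
          refine Finset.prod_le_prod (fun i _ => norm_nonneg _) fun i _ => ?_
          have := (hz i).1
          rw [mem_closedBall, dist_comm, dist_eq_norm] at this
          exact this
      _ = r' ^ k := by simp
  have h4 : 1 / M ≤ ‖g c‖ * r' ^ k := hc.trans hfc
  have hr'k : 0 < r' ^ k := by positivity
  rw [div_pow, div_le_iff₀ hr'k]
  have h5 : 1 ≤ M * (‖g c‖ * r' ^ k) := by
    have := mul_le_mul_of_nonneg_left h4 hM0.le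
    rwa [mul_one_div_cancel hM0.ne'] at this
  calc R ^ k = R ^ k * 1 := (mul_one _).symm
    _ ≤ R ^ k * (M * (‖g c‖ * r' ^ k)) := by gcongr
    _ = (‖g c‖ * R ^ k) * (M * r' ^ k) := by ring
    _ ≤ M * (M * r' ^ k) := by gcongr
    _ = M ^ 2 * r' ^ k := by ring

/-- a zero-free function is an exponential, with control -/
lemma log_control {g : ℂ → ℂ} {c : ℂ} {r r' A : ℝ} (h0 : 0 < r) (h1 : r < r') (hA : 0 < A)
    (hg : AnalyticOnNhd ℂ g (ball c r')) (hne : ∀ s ∈ ball c r', g s ≠ 0)
    (hle : ∀ s ∈ ball c r', ‖g s‖ ≤ ‖g c‖ * Real.exp A) {s : ℂ} (hs : s ∈ closedBall c r) :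
    ‖logDeriv g s‖ ≤ 2 * A * ((r + r') / 2) / ((r' - r) / 2) / ((r' - r) / 2) ∧
    ‖g c‖ * Real.exp (-(2 * A * ((r + r') / 2) / ((r' - r) / 2))) ≤ ‖g s‖ := by
  have hr' : 0 < r' := h0.trans h1
  have hcb : c ∈ ball c r' := mem_ball_self hr'
  have hgc : g c ≠ 0 := hne c hcb
  have hld : DifferentiableOn ℂ (logDeriv g) (ball c r') := by
    intro w hw
    have := (hg w hw).deriv.div (hg w hw) (hne w hw)
    exact this.differentiableAt.differentiableWithinAt
  obtain ⟨h, hhc, hh⟩ := (hld.isExactOn_ball).with_val_at c 0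
  -- `g = g c * exp h`
  have hexp : ∀ w ∈ ball c r', g w = g c * Complex.exp (h w) := by
    have hconst : ∀ w ∈ ball c r', g w * Complex.exp (-h w) = g c * Complex.exp (-h c) := by
      intro w hw
      have hd : ∀ x ∈ ball c r', HasDerivWithinAt (fun x => g x * Complex.exp (-h x)) 0
          (ball c r') x := by
        intro x hx
        have h2 := (hg x hx).differentiableAt.hasDerivAt
        have h3 := (hh x hx).neg.cexp
        have h4 := h2.mul h3
        have h5 : deriv g x * Complex.exp (-h x) + g x * (Complex.exp (-h x) * -logDeriv g x) = 0 := by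
          rw [logDeriv_apply]
          have := hne x hx
          field_simp
          ring
        have h6 : HasDerivAt (fun x => g x * Complex.exp (-h x)) 0 x := h4.congr_deriv h5
        exact h6.hasDerivWithinAt
      have hb := (convex_ball c r').norm_image_sub_le_of_norm_hasDerivWithin_le
        (f := fun x => g x * Complex.exp (-h x)) (f' := fun _ => 0) (C := 0) hd
        (fun x _ => by simp) hcb hw
      rw [zero_mul, norm_le_zero_iff, sub_eq_zero] at hb
      exact hb
    intro w hw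
    have h6 := hconst w hw
    rw [hhc, neg_zero, Complex.exp_zero, mul_one, Complex.exp_neg] at h6
    rw [← h6]
    have := Complex.exp_ne_zero (h w)
    field_simp
  have hre : ∀ w ∈ ball c r', (h w).re ≤ A := by
    intro w hw
    have h7 := hle w hw
    rw [hexp w hw, norm_mul, Complex.norm_exp] at h7
    have h8 : 0 < ‖g c‖ := norm_pos_iff.2 hgc
    exact Real.exp_le_exp.1 (le_of_mul_le_mul_left h7 h8)
  -- Borel-Carathéodory for `z ↦ h (c + z)`
  have hhd : DifferentiableOn ℂ (fun z => h (c + z)) (ball 0 r') := by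
    intro z hz
    have hz' : c + z ∈ ball c r' := by
      rw [mem_ball, dist_eq_norm, add_sub_cancel_left]
      rwa [mem_ball, dist_zero_right] at hz
    have h9 := (hh (c + z) hz').differentiableAt
    have h10 : DifferentiableAt ℂ (fun z : ℂ => c + z) z := by fun_prop
    exact (h9.comp z h10).differentiableWithinAt
  have hbc : ∀ w : ℂ, ‖w - c‖ ≤ (r + r') / 2 →
      ‖h w‖ ≤ 2 * A * ((r + r') / 2) / ((r' - r) / 2) := by
    intro w hw
    have hwr : ‖w - c‖ < r' := by linarith
    have h11 := Complex.borelCaratheodory_zero (z := w - c) hA hhd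
      (fun z hz => by
        have hz' : c + z ∈ ball c r' := by
          rw [mem_ball, dist_eq_norm, add_sub_cancel_left]
          rwa [mem_ball, dist_zero_right] at hz
        exact hre _ hz') hr'
      (by rw [mem_ball, dist_zero_right]; exact hwr) (by simp [hhc])
    rw [show c + (w - c) = w by ring] at h11
    refine h11.trans ?_
    have h12 : (r' - r) / 2 ≤ r' - ‖w - c‖ := by linarith
    have h13 : 0 < (r' - r) / 2 := by linarith
    gcongr
  have hsr : ‖s - c‖ ≤ r := by rwa [mem_closedBall, dist_eq_norm] at hs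
  have hsb : s ∈ ball c r' := by
    rw [mem_ball, dist_eq_norm]; linarith
  constructor
  · have h14 : deriv h s = logDeriv g s := (hh s hsb).deriv
    rw [← h14]
    have h15 : 0 < (r' - r) / 2 := by linarith
    refine Complex.norm_deriv_le_of_forall_mem_sphere_norm_le h15 ?_ ?_
    · refine DifferentiableOn.diffContOnCl ?_
      rw [closure_ball _ h15.ne']
      intro w hw
      have hwb : w ∈ ball c r' := by
        rw [mem_closedBall, dist_eq_norm] at hw
        rw [mem_ball, dist_eq_norm]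
        calc ‖w - c‖ = ‖(w - s) + (s - c)‖ := by congr 1; ring
          _ ≤ ‖w - s‖ + ‖s - c‖ := norm_add_le _ _
          _ < r' := by linarith
      exact (hh w hwb).differentiableAt.differentiableWithinAt
    · intro w hw
      refine hbc w ?_
      rw [mem_sphere, dist_eq_norm] at hw
      calc ‖w - c‖ = ‖(w - s) + (s - c)‖ := by congr 1; ring
        _ ≤ ‖w - s‖ + ‖s - c‖ := norm_add_le _ _
        _ ≤ (r + r') / 2 := by linarith
  · rw [hexp s hsb, norm_mul, Complex.norm_exp]
    gcongr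
    have h16 := hbc s (by linarith)
    have h17 := Complex.abs_re_le_norm (h s)
    have h18 := neg_abs_le (h s).re
    linarith

/-- Zeros `z i` (with multiplicity) in the closed disc of radius `r'`, zero-free remaining factor. -/
theorem local_factor {r r' R : ℝ} (h0 : 0 < r) (h1 : r < r') (h2 : r' < R) :
    ∃ C : ℝ, 0 < C ∧ ∀ (f : ℂ → ℂ) (c : ℂ) (M : ℝ), Real.exp 1 ≤ M →
      AnalyticOnNhd ℂ f (closedBall c R) →
      (∀ z ∈ closedBall c R, ‖f z‖ ≤ M) → 1 / M ≤ ‖f c‖ →
      ∃ (k : ℕ) (z : Fin k → ℂ) (g : ℂ → ℂ),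
        (k : ℝ) ≤ C * Real.log M ∧
        (∀ i, z i ∈ closedBall c r' ∧ f (z i) = 0) ∧
        AnalyticOnNhd ℂ g (closedBall c R) ∧
        (∀ s ∈ closedBall c R, f s = (∏ i, (s - z i)) * g s) ∧
        (∀ s ∈ closedBall c r', g s ≠ 0) ∧
        (∀ s ∈ closedBall c r, ‖logDeriv g s‖ ≤ C * Real.log M) ∧
        (∀ s ∈ closedBall c r, Real.exp (-(C * Real.log M)) ≤ ‖g s‖) := by
  have hr' : 0 < r' := h0.trans h1
  have hR : 0 < R := hr'.trans h2
  have hRr' : 0 < R - r' := by linarith
  have hq : 1 < R / r' := (one_lt_div hr').2 h2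
  have hlq : 0 < Real.log (R / r') := Real.log_pos hq
  set C0 : ℝ := 2 / Real.log (R / r') with hC0
  have hC0p : 0 < C0 := by positivity
  set C1 : ℝ := 2 + C0 * |Real.log (r' / (R - r'))| with hC1
  have hC1p : 0 < C1 := by positivity
  set C2 : ℝ := 2 * C1 * ((r + r') / 2) / ((r' - r) / 2) with hC2
  have hd : 0 < (r' - r) / 2 := by linarith
  have hC2p : 0 < C2 := by positivity
  set C3 : ℝ := C2 / ((r' - r) / 2) with hC3
  have hC3p : 0 < C3 := by positivity
  set C4 : ℝ := 1 + C0 * |Real.log r'| + C2 with hC4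
  have hC4p : 0 < C4 := by positivity
  refine ⟨C0 + C3 + C4, by positivity, ?_⟩
  intro f c M hMe hf hM hc
  have hM0 : 0 < M := (Real.exp_pos 1).trans_le hMe
  have hlM : 1 ≤ Real.log M := by
    rw [Real.le_log_iff_exp_le hM0]; exact hMe
  have hkb : ∀ k, Fac f c r' R k → (k : ℝ) ≤ C0 * Real.log M := by
    intro k hk
    have h3 := fac_bound hr' h2 hM0 hM hc hk
    have h4 := Real.log_le_log (by positivity) h3
    rw [Real.log_pow, Real.log_pow] at h4
    rw [hC0, div_mul_eq_mul_div, le_div_iff₀ hlq]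
    push_cast at h4
    linarith
  -- the maximal number of zeros
  obtain ⟨k, hk, hkmax⟩ : ∃ k, Fac f c r' R k ∧ ¬ Fac f c r' R (k + 1) := by
    by_contra hcon
    push Not at hcon
    have hall : ∀ k, Fac f c r' R k := fun k => by
      induction k with
      | zero => exact fac_zero hf
      | succ k ih => exact hcon k ih
    obtain ⟨n, hn⟩ := exists_nat_gt (C0 * Real.log M)
    exact absurd (hkb n (hall n)) (not_le.2 hn)
  have hkb' := hkb k hk
  obtain ⟨z, g, hz, hg, hfg⟩ := hk
  have hne : ∀ s ∈ closedBall c r', g s ≠ 0 := fun s hs h => hkmax (fac_succ hz hg hfg hs h)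
  -- bounds for `g`
  have hgsph : ∀ s ∈ sphere c R, ‖g s‖ ≤ M / (R - r') ^ k := by
    intro s hs
    have hs' : ‖s - c‖ = R := by rwa [mem_sphere, dist_eq_norm] at hs
    rw [le_div_iff₀ (by positivity)]
    calc ‖g s‖ * (R - r') ^ k = ‖g s‖ * ∏ _i : Fin k, (R - r') := by simp
      _ ≤ ‖g s‖ * ∏ i, ‖s - z i‖ := by
          gcongr with i _
          have h5 := (hz i).1
          rw [mem_closedBall, dist_eq_norm] at h5
          have h6 : ‖s - c‖ ≤ ‖s - z i‖ + ‖z i - c‖ := by
            calc ‖s - c‖ = ‖(s - z i) + (z i - c)‖ := by congr 1; ring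
              _ ≤ _ := norm_add_le _ _
          linarith
      _ = ‖f s‖ := by rw [hfg, norm_mul, norm_prod, mul_comm]
      _ ≤ M := hM s (sphere_subset_closedBall hs)
  have hgall := norm_le_of_sphere hR hg hgsph
  have hgc : 1 / (M * r' ^ k) ≤ ‖g c‖ := by
    have hfc : ‖f c‖ ≤ ‖g c‖ * r' ^ k := by
      rw [hfg, norm_mul, norm_prod, mul_comm]
      gcongr
      calc ∏ i, ‖c - z i‖ ≤ ∏ _i : Fin k, r' := by
            refine Finset.prod_le_prod (fun i _ => norm_nonneg _) fun i _ => ?_
            have := (hz i).1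
            rw [mem_closedBall, dist_comm, dist_eq_norm] at this
            exact this
        _ = r' ^ k := by simp
    have h7 := hc.trans hfc
    rw [div_le_iff₀ (by positivity)] at h7 ⊢
    calc (1 : ℝ) ≤ ‖g c‖ * r' ^ k * M := h7
      _ = ‖g c‖ * (M * r' ^ k) := by ring
  have hle : ∀ s ∈ ball c r', ‖g s‖ ≤ ‖g c‖ * Real.exp (C1 * Real.log M) := by
    intro s hs
    have h8 := hgall s ((ball_subset_closedBall hs) |> closedBall_subset_closedBall h2.le)
    have h9 : M / (R - r') ^ k ≤ 1 / (M * r' ^ k) * Real.exp (C1 * Real.log M) := by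
      have h10 : Real.exp (C1 * Real.log M) =
          M ^ 2 * Real.exp (C0 * |Real.log (r' / (R - r'))| * Real.log M) := by
        rw [hC1, add_mul, Real.exp_add]
        congr 1
        rw [mul_comm, Real.exp_mul, Real.exp_log hM0]
        norm_num
      have h11 : (r' / (R - r')) ^ k ≤ Real.exp (C0 * |Real.log (r' / (R - r'))| * Real.log M) := by
        have h12 : (r' / (R - r')) ^ k = Real.exp (k * Real.log (r' / (R - r'))) := by
          rw [Real.exp_nat_mul, Real.exp_log (by positivity)]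
        rw [h12, Real.exp_le_exp]
        calc (k : ℝ) * Real.log (r' / (R - r')) ≤ k * |Real.log (r' / (R - r'))| := by
              gcongr; exact le_abs_self _
          _ ≤ (C0 * Real.log M) * |Real.log (r' / (R - r'))| := by gcongr
          _ = _ := by ring
      rw [h10]
      calc M / (R - r') ^ k = 1 / (M * r' ^ k) * (M ^ 2 * (r' / (R - r')) ^ k) := by
            rw [div_pow]; field_simp
        _ ≤ _ := by gcongr
    calc ‖g s‖ ≤ M / (R - r') ^ k := h8
      _ ≤ 1 / (M * r' ^ k) * Real.exp (C1 * Real.log M) := h9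
      _ ≤ _ := by gcongr
  have hctl := fun s (hs : s ∈ closedBall c r) => log_control h0 h1 (A := C1 * Real.log M)
    (by positivity) (hg.mono ((ball_subset_closedBall).trans (closedBall_subset_closedBall h2.le)))
    (fun s hs => hne s (ball_subset_closedBall hs)) hle hs
  have e2 : 2 * (C1 * Real.log M) * ((r + r') / 2) / ((r' - r) / 2) = C2 * Real.log M := by
    rw [hC2]; ring
  refine ⟨k, z, g, ?_, hz, hg, fun s _ => hfg s, hne, ?_, ?_⟩
  · calc (k : ℝ) ≤ C0 * Real.log M := hkb'
      _ ≤ (C0 + C3 + C4) * Real.log M := by gcongr; linarith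
  · intro s hs
    have h13 := (hctl s hs).1
    rw [e2] at h13
    calc ‖logDeriv g s‖ ≤ C2 * Real.log M / ((r' - r) / 2) := h13
      _ = C3 * Real.log M := by rw [hC3]; ring
      _ ≤ (C0 + C3 + C4) * Real.log M := by gcongr; linarith
  · intro s hs
    have h14 := (hctl s hs).2
    rw [e2] at h14
    refine le_trans ?_ h14
    have h15 : Real.exp (-(1 + C0 * |Real.log r'|) * Real.log M) ≤ ‖g c‖ := by
      refine le_trans ?_ hgc
      have h16 : r' ^ k ≤ Real.exp (C0 * |Real.log r'| * Real.log M) := by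
        have h17 : r' ^ k = Real.exp (k * Real.log r') := by
          rw [Real.exp_nat_mul, Real.exp_log hr']
        rw [h17, Real.exp_le_exp]
        calc (k : ℝ) * Real.log r' ≤ k * |Real.log r'| := by gcongr; exact le_abs_self _
          _ ≤ (C0 * Real.log M) * |Real.log r'| := by gcongr
          _ = _ := by ring
      rw [le_div_iff₀ (by positivity)]
      calc Real.exp (-(1 + C0 * |Real.log r'|) * Real.log M) * (M * r' ^ k)
          ≤ Real.exp (-(1 + C0 * |Real.log r'|) * Real.log M) *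
            (Real.exp (Real.log M) * Real.exp (C0 * |Real.log r'| * Real.log M)) := by
            rw [Real.exp_log hM0]; gcongr
        _ = 1 := by
            rw [← Real.exp_add, ← Real.exp_add, Real.exp_eq_one_iff]
            ring
    calc Real.exp (-((C0 + C3 + C4) * Real.log M))
        ≤ Real.exp (-(1 + C0 * |Real.log r'|) * Real.log M + -(C2 * Real.log M)) := by
          rw [Real.exp_le_exp, hC4]
          nlinarith [mul_pos hC0p (zero_lt_one.trans_le hlM), mul_pos hC3p (zero_lt_one.trans_le hlM)]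
      _ = Real.exp (-(1 + C0 * |Real.log r'|) * Real.log M) * Real.exp (-(C2 * Real.log M)) :=
          Real.exp_add _ _
      _ ≤ _ := by gcongr

/-- crude bound for the Taylor coefficients -/
lemma coeff_bound {f : ℂ → ℂ} {c : ℂ} {R A : ℝ} (hR : 0 < R)
    (hf : AnalyticOnNhd ℂ f (closedBall c R)) (hA : ∀ z ∈ closedBall c R, ‖f z‖ ≤ A) (n : ℕ) :
    ‖iteratedDeriv n f c / n.factorial‖ ≤ A / R ^ n := by
  have hdc : DiffContOnCl ℂ f (ball c R) := by
    refine DifferentiableOn.diffContOnCl ?_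
    rw [closure_ball c hR.ne']
    exact fun w hw => (hf w hw).differentiableAt.differentiableWithinAt
  have h := Complex.norm_iteratedDeriv_le_of_forall_mem_sphere_norm_le n hR hdc
    (fun z hz => hA z (sphere_subset_closedBall hz))
  have hn : (0 : ℝ) < n.factorial := by exact_mod_cast n.factorial_pos
  rw [norm_div, div_le_iff₀ (by simpa using hn)]
  refine h.trans (le_of_eq ?_)
  simp only [RCLike.norm_natCast, Complex.norm_natCast]
  ring

theorem three_circles {r0 r1 R m ε : ℝ} (h0 : 0 < r0) (h01 : r0 < r1) (h1 : r1 < R)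
    (hε : 0 < ε) :
    ∃ M0 : ℝ, ∀ M ≥ M0, ∀ (f : ℂ → ℂ) (c : ℂ), AnalyticOnNhd ℂ f (closedBall c R) →
      (∀ z ∈ closedBall c R, ‖f z‖ ≤ M) → (∀ z ∈ closedBall c r0, ‖f z‖ ≤ m) →
      ∀ z ∈ closedBall c r1, ‖f z‖ ≤ ε * M := by
  have hr1 : 0 < r1 := h0.trans h01
  have hR : 0 < R := hr1.trans h1
  set q : ℝ := r1 / R with hq
  have hq0 : 0 < q := by positivity
  have hq1 : q < 1 := (div_lt_one hR).2 h1
  -- choose `N` with `q ^ N / (1 - q) ≤ ε / 2`
  obtain ⟨N, hN⟩ : ∃ N : ℕ, q ^ N / (1 - q) ≤ ε / 2 := by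
    have h2 : 0 < ε / 2 * (1 - q) := by
      have : 0 < 1 - q := by linarith
      positivity
    obtain ⟨N, hN⟩ := exists_pow_lt_of_lt_one h2 hq1
    exact ⟨N, by rw [div_le_iff₀ (by linarith)]; exact hN.le⟩
  set K : ℝ := ∑ n ∈ Finset.range N, |m| * (r1 / r0) ^ n with hK
  refine ⟨max 0 (2 * K / ε), ?_⟩
  intro M hM f c hf hfM hfm z hz
  have hM0 : 0 ≤ M := (le_max_left _ _).trans hM
  have hMK : K ≤ ε / 2 * M := by
    have := (le_max_right _ _).trans hM
    rw [div_le_iff₀ hε] at this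
    linarith
  have hzr : ‖z - c‖ ≤ r1 := by rwa [mem_closedBall, dist_eq_norm] at hz
  have hsum := Complex.hasSum_taylorSeries_on_ball (r := R) (c := c) (f := f) (z := z)
    (fun w hw => (hf w (ball_subset_closedBall hw)).differentiableAt.differentiableWithinAt)
    (by rw [mem_ball, dist_eq_norm]; linarith)
  have hterm : ∀ n : ℕ, ‖(n.factorial : ℂ)⁻¹ • (z - c) ^ n • iteratedDeriv n f c‖
      = ‖iteratedDeriv n f c / n.factorial‖ * ‖z - c‖ ^ n := by
    intro n
    rw [smul_eq_mul, smul_eq_mul, norm_mul, norm_mul, norm_pow, norm_div, norm_inv]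
    ring
  have hb1 : ∀ n : ℕ, ‖(n.factorial : ℂ)⁻¹ • (z - c) ^ n • iteratedDeriv n f c‖ ≤ M * q ^ n := by
    intro n
    rw [hterm, hq, div_pow]
    calc _ ≤ M / R ^ n * r1 ^ n := by
          gcongr
          exact coeff_bound hR hf hfM n
      _ = _ := by ring
  have hb2 : ∀ n : ℕ, ‖(n.factorial : ℂ)⁻¹ • (z - c) ^ n • iteratedDeriv n f c‖
      ≤ |m| * (r1 / r0) ^ n := by
    intro n
    rw [hterm, div_pow]
    calc _ ≤ |m| / r0 ^ n * r1 ^ n := by
          gcongr
          exact coeff_bound h0 (hf.mono (closedBall_subset_closedBall (by linarith)))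
            (fun w hw => (hfm w hw).trans (le_abs_self m)) n
      _ = _ := by ring
  have hgeo : Summable (fun n : ℕ => M * q ^ n) :=
    (summable_geometric_of_lt_one hq0.le hq1).mul_left M
  have hsn : Summable (fun n : ℕ => ‖(n.factorial : ℂ)⁻¹ • (z - c) ^ n • iteratedDeriv n f c‖) :=
    Summable.of_nonneg_of_le (fun n => norm_nonneg _) hb1 hgeo
  rw [← hsum.tsum_eq]
  refine (norm_tsum_le_tsum_norm hsn).trans ?_
  rw [← hsn.sum_add_tsum_nat_add N]
  have e1 : ∑ n ∈ Finset.range N, ‖(n.factorial : ℂ)⁻¹ • (z - c) ^ n • iteratedDeriv n f c‖ ≤ K :=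
    Finset.sum_le_sum fun n _ => hb2 n
  have e2 : ∑' n : ℕ, ‖((n + N).factorial : ℂ)⁻¹ • (z - c) ^ (n + N) • iteratedDeriv (n + N) f c‖
      ≤ ε / 2 * M := by
    have h3 : ∑' n : ℕ, M * q ^ (n + N) = M * (q ^ N / (1 - q)) := by
      rw [tsum_mul_left]
      congr 1
      simp_rw [pow_add]
      rw [tsum_mul_right, tsum_geometric_of_lt_one hq0.le hq1]
      field_simp
    calc _ ≤ ∑' n : ℕ, M * q ^ (n + N) := by
          refine Summable.tsum_le_tsum (fun n => hb1 (n + N)) ((summable_nat_add_iff N).2 hsn)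
            ((summable_nat_add_iff N).2 hgeo)
      _ = M * (q ^ N / (1 - q)) := h3
      _ ≤ M * (ε / 2) := by gcongr
      _ = _ := by ring
  linarith

end Pool.Agent.ZP
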