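import Mathlib

/-!
# MP_af3d17_nt: the exponent `α` of the small gaps and the zeros of `ζ'`
Definitions used by all modules.
-/

set_option autoImplicit false

namespace Pool.Agent.ZP

open Filter Topology

/-- The nontrivial zeros of the Riemann zeta function with positive ordinate. -/
def IsUpperZero (ρ : ℂ) : Prop := riemannZeta ρ = 0 ∧ 0 < ρ.re ∧ ρ.re < 1 ∧ 0 < ρ.im

/-- `log (t / 2π)` -/
noncomputable def Lt (t : ℝ) : ℝ := Real.log (t / (2 * Real.pi))

/-- `Λ(w)`, minus the logarithmic derivative of the factor of the functional equation. -/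
noncomputable def Lam (w : ℂ) : ℂ :=
  (Complex.digamma (w / 2) + Complex.digamma ((1 - w) / 2)) / 2 - (Real.log Real.pi : ℂ)

/-- `E(w) = ζ'(w) + Λ(w) ζ(w)`: up to a nonvanishing factor, `-ζ'(1-w)`. -/
noncomputable def EE (w : ℂ) : ℂ := deriv riemannZeta w + Lam w * riemannZeta w

/-- the point `σ + i t` -/
noncomputable def pt (σ t : ℝ) : ℂ := ⟨σ, t⟩

@[simp] lemma pt_re (σ t : ℝ) : (pt σ t).re = σ := rfl
@[simp] lemma pt_im (σ t : ℝ) : (pt σ t).im = t := rfl

/-- all zeros of `ζ` of height `> T0` are on the critical line and simple -/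
def RH (T0 : ℝ) : Prop :=
  ∀ ρ : ℂ, IsUpperZero ρ → T0 < ρ.im → ρ.re = 1 / 2 ∧ deriv riemannZeta ρ ≠ 0

/-- all zeros of `ζ'` of height `> T0` are to the right of the critical line -/
def DH (T0 : ℝ) : Prop :=
  ∀ ρ : ℂ, deriv riemannZeta ρ = 0 → T0 < ρ.im → 1 / 2 < ρ.re

end Pool.Agent.ZP
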