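import Pool.Agent.Lib.MP_af3d17_nt_h98.Defs

/-!
# MP_af3d17_nt, task B: two close zeros of `ζ` on the line give a zero of `ζ'` close to the line
-/

set_option autoImplicit false

namespace Pool.Agent.ZP

open Filter Topology Metric

namespace PairAux

lemma inv_est {d : ℝ} (hd : d ≠ 0) {w : ℂ} (hw : ‖w‖ ≤ |d| / 16) :
    ‖(Complex.I * d + w)⁻¹ - (Complex.I * d)⁻¹ - w * ((1 / d ^ 2 : ℝ) : ℂ)‖
      ≤ ‖w‖ / 15 * (1 / d ^ 2) := by
  have hdpos : 0 < |d| := abs_pos.mpr hd
  have hq : (Complex.I * d : ℂ) ≠ 0 := mul_ne_zero Complex.I_ne_zero (by exact_mod_cast hd)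
  have hqn : ‖(Complex.I * d : ℂ)‖ = |d| := by simp
  have hlow : 15 * ‖w‖ ≤ ‖Complex.I * d + w‖ := by
    have h1 : ‖(Complex.I * d : ℂ)‖ - ‖w‖ ≤ ‖Complex.I * d + w‖ := by
      have h2 := norm_sub_norm_le (Complex.I * d : ℂ) (-w)
      simpa using h2
    rw [hqn] at h1
    linarith
  have hlow2 : 0 < ‖Complex.I * d + w‖ := by
    have h1 : ‖(Complex.I * d : ℂ)‖ - ‖w‖ ≤ ‖Complex.I * d + w‖ := by
      have h2 := norm_sub_norm_le (Complex.I * d : ℂ) (-w)
      simpa using h2
    rw [hqn] at h1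
    linarith
  have hqw : (Complex.I * d + w : ℂ) ≠ 0 := norm_pos_iff.mp hlow2
  have hd2 : (d : ℂ) ≠ 0 := by exact_mod_cast hd
  have hI : Complex.I ≠ 0 := Complex.I_ne_zero
  have hkey : (Complex.I * d + w)⁻¹ - (Complex.I * d)⁻¹ - w * ((1 / d ^ 2 : ℝ) : ℂ)
      = -(w * w) / ((d : ℂ) ^ 2 * (Complex.I * d + w)) := by
    have hI2 : (Complex.I * d : ℂ)⁻¹ = -(Complex.I * (d : ℂ)⁻¹) := by
      rw [mul_inv, Complex.inv_I]; ring
    rw [hI2]
    push_cast
    field_simp
    ring_nf
    rw [Complex.I_sq]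
    ring
  rw [hkey, norm_div, norm_neg, norm_mul, norm_mul, norm_pow, Complex.norm_real, Real.norm_eq_abs,
    sq_abs]
  have hd3 : 0 < d ^ 2 := by positivity
  rw [div_le_iff₀ (by positivity)]
  have : ‖w‖ / 15 * (1 / d ^ 2) * (d ^ 2 * ‖Complex.I * ↑d + w‖)
      = ‖w‖ / 15 * ‖Complex.I * ↑d + w‖ := by
    field_simp
  rw [this]
  nlinarith [norm_nonneg w]

theorem core {k : ℕ} (f g : ℂ → ℂ) (v : ℝ) (y : Fin k → ℝ) {L M δ : ℝ}
    (hL : 0 < L) (hδ : 0 < δ) (hLδ : L * δ ≤ 1 / 64) (hMδ : 300 * M * δ ^ 2 ≤ 1) (hδ1 : δ ≤ 1)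
    (hf : ∀ s ∈ ball (pt (1/2) v) (1/10), f s = (∏ i, (s - pt (1/2) (y i))) * g s)
    (hg : AnalyticOnNhd ℂ g (ball (pt (1/2) v) (1/10)))
    (hg0 : ∀ s ∈ ball (pt (1/2) v) (1/10), g s ≠ 0)
    (hgM : ∀ s ∈ ball (pt (1/2) v) (1/10), ‖logDeriv g s‖ ≤ M)
    (hy : ∀ i, δ ≤ |v - y i|)
    (hS : 1 / δ ^ 2 ≤ ∑ i, 1 / (v - y i) ^ 2)
    (hF : ‖logDeriv f (pt (1/2) v)‖ ≤ L) :
    ∃ s, ‖s - pt (1/2) v‖ ≤ 4 * L * δ ^ 2 ∧ f s ≠ 0 ∧ deriv f s = 0 := by
  set s0 : ℂ := pt (1/2) v with hs0
  set S : ℝ := ∑ i, 1 / (v - y i) ^ 2 with hSdef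
  have hSpos : 0 < S := lt_of_lt_of_le (by positivity) hS
  set r : ℝ := 4 * L / S with hrdef
  have hrpos : 0 < r := by positivity
  have hr1 : r ≤ 4 * L * δ ^ 2 := by
    rw [hrdef, div_le_iff₀ hSpos]
    have : 1 ≤ δ ^ 2 * S := by
      rw [div_le_iff₀ (by positivity)] at hS
      linarith [mul_comm S (δ ^ 2)]
    nlinarith
  have hr2 : r ≤ δ / 16 := by
    have : 4 * L * δ ^ 2 = 4 * (L * δ) * δ := by ring
    nlinarith
  have hr3 : r < 1 / 10 := by linarith
  -- distances
  have hz : ∀ i, s0 - pt (1/2) (y i) = Complex.I * ((v - y i : ℝ) : ℂ) := by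
    intro i
    apply Complex.ext <;> simp [hs0, pt]
  have hne : ∀ s ∈ closedBall s0 r, ∀ i, s - pt (1/2) (y i) ≠ 0 := by
    intro s hs i h0
    have h1 : ‖s0 - s‖ = |v - y i| := by
      have h2 : s0 - s = Complex.I * ((v - y i : ℝ) : ℂ) := by
        rw [← hz i]
        linear_combination (-1 : ℂ) * h0
      rw [h2, norm_mul, Complex.norm_I, one_mul, Complex.norm_real, Real.norm_eq_abs]
    have h2 : ‖s0 - s‖ ≤ r := by
      rw [mem_closedBall, dist_comm, dist_eq_norm] at hs
      exact hs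
    have h3 := hy i
    linarith
  have hsub : closedBall s0 r ⊆ ball s0 (1/10) := closedBall_subset_ball hr3
  -- the function
  set Φ : ℂ → ℂ := fun s => (∑ i, (s - pt (1/2) (y i))⁻¹) + logDeriv g s with hΦ
  have hlog : ∀ s ∈ closedBall s0 r, logDeriv f s = Φ s := by
    intro s hs
    have hsb : s ∈ ball s0 (1/10) := hsub hs
    have hev : f =ᶠ[𝓝 s] fun z => (∏ i, (z - pt (1/2) (y i))) * g z := by
      filter_upwards [isOpen_ball.mem_nhds hsb] with z hz'
      exact hf z hz'
    have h1 : logDeriv f s = logDeriv (fun z => (∏ i, (z - pt (1/2) (y i))) * g z) s := by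
      simp only [logDeriv_apply]
      rw [hev.deriv_eq, hev.eq_of_nhds]
    rw [h1, logDeriv_mul s]
    · rw [logDeriv_prod]
      · simp only [hΦ]
        congr 1
        apply Finset.sum_congr rfl
        intro i _
        simp [logDeriv_apply]
      · intro i _
        exact hne s hs i
      · intro i _
        fun_prop
    · exact Finset.prod_ne_zero_iff.mpr (fun i _ => hne s hs i)
    · exact hg0 s hsb
    · fun_prop
    · exact (hg s hsb).differentiableAt
  have hfne : ∀ s ∈ closedBall s0 r, f s ≠ 0 := by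
    intro s hs
    rw [hf s (hsub hs)]
    exact mul_ne_zero (Finset.prod_ne_zero_iff.mpr (fun i _ => hne s hs i)) (hg0 s (hsub hs))
  have hGd : DifferentiableOn ℂ (logDeriv g) (ball s0 (1/10)) := by
    intro s hs
    have h1 : DifferentiableAt ℂ (deriv g) s := (hg s hs).deriv.differentiableAt
    have h2 : DifferentiableAt ℂ g s := (hg s hs).differentiableAt
    exact (h1.div h2 (hg0 s hs)).differentiableWithinAt
  have hG : ∀ s ∈ closedBall s0 r, ‖logDeriv g s - logDeriv g s0‖ ≤ S / 15 * ‖s - s0‖ := by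
    intro s hs
    have hs0b : s0 ∈ ball s0 (1/10 : ℝ) := mem_ball_self (by norm_num)
    have h1 := Complex.dist_le_div_mul_dist_of_mapsTo_ball (f := logDeriv g) (c := s0) (z := s)
      (R₁ := 1/10) (R₂ := 2 * M) hGd (by
        intro z hz'
        rw [mem_closedBall, dist_eq_norm]
        calc ‖logDeriv g z - logDeriv g s0‖ ≤ ‖logDeriv g z‖ + ‖logDeriv g s0‖ := norm_sub_le _ _
          _ ≤ M + M := add_le_add (hgM z hz') (hgM s0 hs0b)
          _ = 2 * M := by ring) (hsub hs)
    rw [dist_eq_norm, dist_eq_norm] at h1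
    refine h1.trans ?_
    apply mul_le_mul_of_nonneg_right _ (norm_nonneg _)
    have h2 : 300 * M ≤ 1 / δ ^ 2 := by
      rw [le_div_iff₀ (by positivity)]
      exact hMδ
    have h3 : 300 * M ≤ S := h2.trans hS
    have h4 : 2 * M / (1 / 10) = 20 * M := by ring
    rw [h4]
    linarith
  have hsum : ∀ s ∈ closedBall s0 r,
      ‖(∑ i, (s - pt (1/2) (y i))⁻¹) - (∑ i, (s0 - pt (1/2) (y i))⁻¹) - (s - s0) * (S : ℂ)‖
        ≤ S / 15 * ‖s - s0‖ := by
    intro s hs
    have hws : ‖s - s0‖ ≤ r := by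
      rw [mem_closedBall, dist_eq_norm] at hs
      exact hs
    have h1 : (∑ i, (s - pt (1/2) (y i))⁻¹) - (∑ i, (s0 - pt (1/2) (y i))⁻¹) - (s - s0) * (S : ℂ)
        = ∑ i, ((Complex.I * ((v - y i : ℝ) : ℂ) + (s - s0))⁻¹ - (Complex.I * ((v - y i : ℝ) : ℂ))⁻¹
            - (s - s0) * ((1 / (v - y i) ^ 2 : ℝ) : ℂ)) := by
      rw [Finset.sum_sub_distrib, Finset.sum_sub_distrib, ← Finset.mul_sum]
      congr 1
      · congr 1
        · apply Finset.sum_congr rfl
          intro i _
          rw [← hz i]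
          congr 1
          ring
        · apply Finset.sum_congr rfl
          intro i _
          rw [← hz i]
      · rw [hSdef]
        push_cast
        rfl
    rw [h1]
    calc ‖∑ i, ((Complex.I * ((v - y i : ℝ) : ℂ) + (s - s0))⁻¹ - (Complex.I * ((v - y i : ℝ) : ℂ))⁻¹
            - (s - s0) * ((1 / (v - y i) ^ 2 : ℝ) : ℂ))‖
        ≤ ∑ i, ‖s - s0‖ / 15 * (1 / (v - y i) ^ 2) := by
          refine norm_sum_le_of_le _ ?_
          intro i _
          apply inv_est
          · intro h0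
            have := hy i
            rw [h0, abs_zero] at this
            linarith
          · have := hy i
            linarith
      _ = S / 15 * ‖s - s0‖ := by
          rw [← Finset.mul_sum, ← hSdef]
          ring
  have hlow : ∀ s ∈ closedBall s0 r, 13 / 15 * S * ‖s - s0‖ ≤ ‖Φ s - Φ s0‖ := by
    intro s hs
    have h1 : Φ s - Φ s0 = (s - s0) * (S : ℂ)
        + ((∑ i, (s - pt (1/2) (y i))⁻¹) - (∑ i, (s0 - pt (1/2) (y i))⁻¹) - (s - s0) * (S : ℂ))
        + (logDeriv g s - logDeriv g s0) := by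
      simp only [hΦ]
      ring
    have h2 : ‖(s - s0) * (S : ℂ)‖ = S * ‖s - s0‖ := by
      rw [norm_mul, Complex.norm_real, Real.norm_eq_abs, abs_of_pos hSpos, mul_comm]
    have h3 := hsum s hs
    have h4 := hG s hs
    have h5 : ‖(s - s0) * (S : ℂ)‖ - ‖(∑ i, (s - pt (1/2) (y i))⁻¹)
        - (∑ i, (s0 - pt (1/2) (y i))⁻¹) - (s - s0) * (S : ℂ)‖
        - ‖logDeriv g s - logDeriv g s0‖ ≤ ‖Φ s - Φ s0‖ := by
      rw [h1]
      set A := (s - s0) * (S : ℂ)
      set B := (∑ i, (s - pt (1/2) (y i))⁻¹) - (∑ i, (s0 - pt (1/2) (y i))⁻¹) - A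
      set D := logDeriv g s - logDeriv g s0
      have h6 : ‖A‖ ≤ ‖A + B + D‖ + ‖B‖ + ‖D‖ := by
        calc ‖A‖ = ‖(A + B + D) - B - D‖ := by congr 1; ring
          _ ≤ ‖(A + B + D) - B‖ + ‖D‖ := norm_sub_le _ _
          _ ≤ ‖A + B + D‖ + ‖B‖ + ‖D‖ := by gcongr; exact norm_sub_le _ _
      linarith
    rw [h2] at h5
    linarith
  have hΦd : ∀ s ∈ closedBall s0 r, DifferentiableAt ℂ Φ s := by
    intro s hs
    apply DifferentiableAt.add
    · apply DifferentiableAt.fun_sum
      intro i _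
      exact DifferentiableAt.inv (by fun_prop) (hne s hs i)
    · exact (hGd s (hsub hs)).differentiableAt (isOpen_ball.mem_nhds (hsub hs))
  have hdc : DiffContOnCl ℂ Φ (ball s0 r) := by
    apply DifferentiableOn.diffContOnCl
    intro s hs
    exact (hΦd s (closure_ball_subset_closedBall hs)).differentiableWithinAt
  have hfreq : ∃ᶠ z in 𝓝 s0, Φ z ≠ Φ s0 := by
    have h1 : ∀ᶠ z in 𝓝[≠] s0, Φ z ≠ Φ s0 := by
      have h2 : ∀ᶠ z in 𝓝[≠] s0, z ∈ closedBall s0 r :=
        mem_nhdsWithin_of_mem_nhds (closedBall_mem_nhds s0 hrpos)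
      filter_upwards [h2, self_mem_nhdsWithin] with z hz' hz2 heq
      have h3 := hlow z hz'
      rw [heq, sub_self, norm_zero] at h3
      have h4 : 0 < ‖z - s0‖ := norm_pos_iff.mpr (sub_ne_zero.mpr hz2)
      have : 0 < 13 / 15 * S * ‖z - s0‖ := by positivity
      linarith
    exact h1.frequently.filter_mono nhdsWithin_le_nhds
  have hball := hdc.ball_subset_image_closedBall hrpos (ε := 52 / 15 * L) (by
    intro z hz'
    have h1 : ‖z - s0‖ = r := by
      rw [mem_sphere, dist_eq_norm] at hz'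
      exact hz'
    have h2 := hlow z (sphere_subset_closedBall hz')
    rw [h1] at h2
    refine le_trans (le_of_eq ?_) h2
    rw [hrdef]
    field_simp
    ring) hfreq
  have h0 : (0 : ℂ) ∈ ball (Φ s0) (52 / 15 * L / 2) := by
    rw [mem_ball, dist_eq_norm, zero_sub, norm_neg, ← hlog s0 (mem_closedBall_self hrpos.le)]
    linarith
  obtain ⟨s, hs, hs2⟩ := hball h0
  have hfs := hfne s hs
  refine ⟨s, ?_, hfs, ?_⟩
  · rw [mem_closedBall, dist_eq_norm] at hs
    exact hs.trans hr1
  · rw [← hlog s hs, logDeriv_apply] at hs2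
    rcases div_eq_zero_iff.mp hs2 with h | h
    · exact h
    · exact absurd h hfs

/-- Rolle for `|ζ|²` on the critical line. -/
theorem rolle {a b : ℝ} (hab : a < b) (ha0 : 0 < a)
    (ha : riemannZeta (pt (1 / 2) a) = 0) (hb : riemannZeta (pt (1 / 2) b) = 0)
    (hab0 : ∀ u : ℝ, a < u → u < b → riemannZeta (pt (1 / 2) u) ≠ 0) :
    ∃ v : ℝ, a < v ∧ v < b ∧ (logDeriv riemannZeta (pt (1 / 2) v)).im = 0 := by
  have hder : ∀ t : ℝ, 0 < t → HasDerivAt (fun u : ℝ => riemannZeta (pt (1 / 2) u))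
      (deriv riemannZeta (pt (1 / 2) t) * Complex.I) t := by
    intro t ht
    have h1 : HasDerivAt (fun u : ℝ => pt (1 / 2) u) Complex.I t := by
      have h2 : (fun u : ℝ => pt (1 / 2) u) = fun u : ℝ => (1 / 2 : ℂ) + (u : ℂ) * Complex.I := by
        funext u
        apply Complex.ext <;> simp [pt]
      rw [h2]
      have h3 : HasDerivAt (fun u : ℝ => (u : ℂ)) 1 t := Complex.ofRealCLM.hasDerivAt
      simpa using (h3.mul_const Complex.I).const_add (1 / 2 : ℂ)
    have hne : pt (1 / 2) t ≠ 1 := by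
      intro h
      have := congrArg Complex.im h
      simp at this
      linarith
    exact (differentiableAt_riemannZeta hne).hasDerivAt.comp_of_eq t h1 rfl
  set φ : ℝ → ℝ := fun u => Complex.normSq (riemannZeta (pt (1 / 2) u)) with hφ
  have hφd : ∀ t : ℝ, 0 < t → HasDerivAt φ
      (2 * ((starRingEnd ℂ) (riemannZeta (pt (1 / 2) t))
        * (deriv riemannZeta (pt (1 / 2) t) * Complex.I)).re) t := by
    intro t ht
    have h1 := hder t ht
    have hre : HasDerivAt (fun u : ℝ => (riemannZeta (pt (1 / 2) u)).re)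
        (deriv riemannZeta (pt (1 / 2) t) * Complex.I).re t := by
      exact Complex.reCLM.hasFDerivAt.comp_hasDerivAt t h1
    have him : HasDerivAt (fun u : ℝ => (riemannZeta (pt (1 / 2) u)).im)
        (deriv riemannZeta (pt (1 / 2) t) * Complex.I).im t := by
      exact Complex.imCLM.hasFDerivAt.comp_hasDerivAt t h1
    have h2 := (hre.mul hre).add (him.mul him)
    have h3 : φ = (fun u : ℝ => (riemannZeta (pt (1 / 2) u)).re * (riemannZeta (pt (1 / 2) u)).re)
        + (fun u : ℝ => (riemannZeta (pt (1 / 2) u)).im * (riemannZeta (pt (1 / 2) u)).im) := by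
      funext u
      simp [hφ, Complex.normSq_apply]
    rw [h3]
    refine h2.congr_deriv ?_
    simp only [Complex.mul_re, Complex.conj_re, Complex.conj_im, Complex.I_re, Complex.I_im,
      Complex.mul_im]
    ring
  have hcont : ContinuousOn φ (Set.Icc a b) := by
    intro t ht
    exact (hφd t (by linarith [ht.1])).continuousAt.continuousWithinAt
  obtain ⟨v, hv, hv0⟩ := exists_deriv_eq_zero hab hcont (by simp only [hφ]; rw [ha, hb])
  refine ⟨v, hv.1, hv.2, ?_⟩
  have hvpos : 0 < v := by linarith [hv.1]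
  rw [(hφd v hvpos).deriv] at hv0
  have hz := hab0 v hv.1 hv.2
  have hn : Complex.normSq (riemannZeta (pt (1 / 2) v)) ≠ 0 := by
    simpa [Complex.normSq_eq_zero] using hz
  rw [logDeriv_apply, Complex.div_im]
  simp only [Complex.mul_re, Complex.conj_re, Complex.conj_im, Complex.I_re, Complex.I_im,
      Complex.mul_im] at hv0
  field_simp
  linarith

/-- The statement of task B from those of tasks P and Z. -/
theorem deriv_zero_of_pair_of
    (hre : ∀ {t : ℝ}, 0 < t → riemannZeta (pt (1 / 2) t) ≠ 0 →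
      2 * (logDeriv riemannZeta (pt (1 / 2) t)).re = - (Lam (pt (1 / 2) t)).re)
    (hLam : ∀ (a b : ℝ), ∃ C T : ℝ, 1 ≤ T ∧ ∀ w : ℂ, a ≤ w.re → w.re ≤ b → T ≤ w.im →
      ‖Lam w - (Lt w.im : ℂ)‖ ≤ C / w.im)
    (hloc : ∃ C T1 : ℝ, 0 < C ∧ 100 ≤ T1 ∧ ∀ t ≥ T1,
      ∃ (k : ℕ) (z : Fin k → ℂ) (g : ℂ → ℂ),
      (k : ℝ) ≤ C * Real.log t ∧
      (∀ i, z i ∈ closedBall (pt 10 t) (97 / 10) ∧ riemannZeta (z i) = 0) ∧
      AnalyticOnNhd ℂ g (closedBall (pt 10 t) (98 / 10)) ∧
      (∀ s ∈ closedBall (pt 10 t) (98 / 10), riemannZeta s = (∏ i, (s - z i)) * g s) ∧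
      (∀ s ∈ closedBall (pt 10 t) (97 / 10), g s ≠ 0) ∧
      (∀ s ∈ closedBall (pt 10 t) (96 / 10), ‖logDeriv g s‖ ≤ C * Real.log t))
    {T0 : ℝ} (h : RH T0) : ∃ C T1 : ℝ, 0 < C ∧ 100 ≤ T1 ∧ ∀ a b : ℝ,
    T1 ≤ a → a < b → (b - a) * C * (Real.log a) ^ 2 ≤ 1 →
    riemannZeta (pt (1 / 2) a) = 0 → riemannZeta (pt (1 / 2) b) = 0 →
    (∀ u : ℝ, a < u → u < b → riemannZeta (pt (1 / 2) u) ≠ 0) →
    ∃ ρ' : ℂ, deriv riemannZeta ρ' = 0 ∧ |ρ'.im - a| ≤ 1 ∧
      |ρ'.re - 1 / 2| ≤ C * Real.log a * (b - a) ^ 2 := by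
  obtain ⟨C1, T1, hC1, hT1, hloc⟩ := hloc
  obtain ⟨C2, T2, hT2, hLam⟩ := hLam (1 / 2) (1 / 2)
  refine ⟨128 + 600 * C1, max (max T1 T2) (max (T0 + 100) C2), by positivity,
    hT1.trans ((le_max_left _ _).trans (le_max_left _ _)), ?_⟩
  intro a b haT hab hgap ha hb hab0
  set C : ℝ := 128 + 600 * C1 with hC
  have haT1 : T1 ≤ a := ((le_max_left _ _).trans (le_max_left _ _)).trans haT
  have haT2 : T2 ≤ a := ((le_max_right _ _).trans (le_max_left _ _)).trans haT
  have haT0 : T0 + 100 ≤ a := ((le_max_left _ _).trans (le_max_right _ _)).trans haT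
  have haC2 : C2 ≤ a := ((le_max_right _ _).trans (le_max_right _ _)).trans haT
  have ha100 : 100 ≤ a := hT1.trans haT1
  have ha0 : 0 < a := by linarith
  have hloga : 4 ≤ Real.log a := by
    rw [Real.le_log_iff_exp_le ha0]
    have h1 : Real.exp 1 < 2.7182818286 := Real.exp_one_lt_d9
    have h2 : Real.exp 4 = (Real.exp 1) ^ 4 := by
      rw [← Real.exp_nat_mul]; norm_num
    rw [h2]
    have h3 : (Real.exp 1) ^ 4 ≤ 2.72 ^ 4 := by
      apply pow_le_pow_left₀ (Real.exp_pos 1).le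
      linarith
    refine h3.trans ?_
    norm_num
    linarith
  have hC128 : 128 ≤ C := by rw [hC]; nlinarith
  have hdpos : 0 < b - a := by linarith
  -- (b - a) * log a * C ≤ 1 / 4 and (b - a) ≤ 1 / (16 * 128)
  have hg1 : (b - a) * C * Real.log a ≤ 1 / 4 := by
    have h1 : (b - a) * C * Real.log a * 4 ≤ (b - a) * C * (Real.log a) ^ 2 := by
      have h2 : 0 ≤ (b - a) * C * Real.log a := by positivity
      nlinarith
    linarith
  have hg2 : (b - a) * C ≤ 1 / 16 := by
    have h2 : 0 ≤ (b - a) * C := by positivity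
    nlinarith
  have hd1 : b - a ≤ 1 / 2048 := by nlinarith
  obtain ⟨v, hav, hvb, hv0⟩ := rolle hab ha0 ha hb hab0
  have hvpos : 0 < v := by linarith
  have hvT1 : T1 ≤ v := by linarith
  have hzv := hab0 v hav hvb
  obtain ⟨k, z, g, hk, hz, hgan, hfac, hg0, hgl⟩ := hloc v hvT1
  -- the zeros are on the line
  have hzre : ∀ i, (z i).re = 1 / 2 := by
    intro i
    obtain ⟨h1, h2⟩ := hz i
    rw [mem_closedBall, dist_eq_norm] at h1
    have h3 := (Complex.abs_re_le_norm (z i - pt 10 v)).trans h1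
    have h4 := (Complex.abs_im_le_norm (z i - pt 10 v)).trans h1
    rw [Complex.sub_re, pt_re, abs_le] at h3
    rw [Complex.sub_im, pt_im, abs_le] at h4
    refine (h (z i) ⟨h2, by linarith, ?_, by linarith⟩ (by linarith)).1
    by_contra h5
    exact riemannZeta_ne_zero_of_one_le_re (not_lt.mp h5) h2
  have hzpt : ∀ i, z i = pt (1 / 2) (z i).im := by
    intro i
    apply Complex.ext
    · rw [hzre i]; rfl
    · rfl
  set y : Fin k → ℝ := fun i => (z i).im with hy
  -- distances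
  have hyout : ∀ i, y i ≤ a ∨ b ≤ y i := by
    intro i
    by_contra hcon
    push Not at hcon
    apply hab0 (y i) hcon.1 hcon.2
    rw [hy, ← hzpt i]
    exact (hz i).2
  have hfind : ∀ u : ℝ, a ≤ u → u ≤ b → riemannZeta (pt (1 / 2) u) = 0 → ∃ i, y i = u := by
    intro u hu1 hu2 hu
    have hdist : dist (pt (1 / 2) u) (pt 10 v) ≤ 97 / 10 := by
      rw [dist_eq_norm]
      have h1 : ‖pt (1 / 2) u - pt 10 v‖ ≤ |(pt (1 / 2) u - pt 10 v).re|
          + |(pt (1 / 2) u - pt 10 v).im| := Complex.norm_le_abs_re_add_abs_im _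
      refine h1.trans ?_
      rw [Complex.sub_re, Complex.sub_im, pt_re, pt_re, pt_im, pt_im]
      have h2 : |(1 / 2 : ℝ) - 10| = 19 / 2 := by norm_num [abs_of_neg]
      have h3 : |u - v| ≤ 1 / 10 := by
        rw [abs_le]
        constructor <;> linarith
      rw [h2]
      linarith
    have h1 : pt (1 / 2) u ∈ closedBall (pt 10 v) (98 / 10) := by
      rw [mem_closedBall]
      linarith
    have h2 : pt (1 / 2) u ∈ closedBall (pt 10 v) (97 / 10) := hdist
    have h3 := hfac _ h1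
    rw [hu] at h3
    rcases mul_eq_zero.mp h3.symm with h4 | h4
    · rw [Finset.prod_eq_zero_iff] at h4
      obtain ⟨i, -, hi⟩ := h4
      refine ⟨i, ?_⟩
      have h5 := congrArg Complex.im (sub_eq_zero.mp hi)
      rw [pt_im] at h5
      exact h5.symm
    · exact absurd h4 (hg0 _ h2)
  obtain ⟨ia, hia⟩ := hfind a le_rfl hab.le ha
  obtain ⟨ib, hib⟩ := hfind b hab.le le_rfl hb
  set δ : ℝ := min (v - a) (b - v) with hδ
  have hδpos : 0 < δ := lt_min (by linarith) (by linarith)
  have hδle : δ ≤ b - a := (min_le_left _ _).trans (by linarith)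
  have hlogv : Real.log v ≤ 2 * Real.log a := by
    have h1 : v ≤ a ^ 2 := by nlinarith
    calc Real.log v ≤ Real.log (a ^ 2) := Real.log_le_log hvpos h1
      _ = 2 * Real.log a := by rw [Real.log_pow]; norm_num
  have hlogv0 : 4 ≤ Real.log v := hloga.trans (Real.log_le_log ha0 hav.le)
  have hsub : ball (pt (1 / 2) v) (1 / 10) ⊆ closedBall (pt 10 v) (96 / 10) := by
    intro s hs
    rw [mem_ball] at hs
    rw [mem_closedBall]
    have h1 : dist (pt (1 / 2) v) (pt 10 v) = 19 / 2 := by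
      rw [dist_eq_norm]
      have h2 : pt (1 / 2) v - pt 10 v = ((-(19 / 2) : ℝ) : ℂ) := by
        apply Complex.ext
        · simp; norm_num
        · simp
      rw [h2, Complex.norm_real, Real.norm_eq_abs, abs_neg, abs_of_pos (by norm_num)]
    calc dist s (pt 10 v) ≤ dist s (pt (1 / 2) v) + dist (pt (1 / 2) v) (pt 10 v) :=
          dist_triangle _ _ _
      _ ≤ 1 / 10 + 19 / 2 := by rw [h1]; linarith
      _ = 96 / 10 := by norm_num
  obtain ⟨s, hs1, hs2, hs3⟩ := core riemannZeta g v y (L := Real.log v) (M := C1 * Real.log v)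
    (δ := δ) (by linarith) hδpos
    (by
      have h1 : Real.log v * δ ≤ 2 * Real.log a * (b - a) :=
        mul_le_mul hlogv hδle hδpos.le (by linarith)
      have h2 : 128 * ((b - a) * Real.log a) ≤ (b - a) * C * Real.log a := by
        have h3 : 0 ≤ (b - a) * Real.log a := by positivity
        nlinarith
      nlinarith)
    (by
      have h1 : δ ^ 2 ≤ (b - a) ^ 2 := by gcongr
      have h2 : 300 * (C1 * Real.log v) * δ ^ 2 ≤ 300 * (C1 * (2 * Real.log a)) * (b - a) ^ 2 := by
        gcongr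
      refine h2.trans ?_
      have h3 : 600 * C1 * ((b - a) * Real.log a) ≤ (b - a) * C * Real.log a := by
        have h4 : 0 ≤ (b - a) * Real.log a := by positivity
        have h5 : 600 * C1 ≤ C := by rw [hC]; linarith
        nlinarith
      have h6 : 300 * (C1 * (2 * Real.log a)) * (b - a) ^ 2
          = 600 * C1 * ((b - a) * Real.log a) * (b - a) := by ring
      rw [h6]
      have h7 : 600 * C1 * ((b - a) * Real.log a) ≤ 1 := by linarith
      have h8 : 0 ≤ 600 * C1 * ((b - a) * Real.log a) := by positivity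
      nlinarith)
    (by linarith)
    (by
      intro s hs
      have h1 : s ∈ closedBall (pt 10 v) (98 / 10) :=
        closedBall_subset_closedBall (by norm_num) (hsub hs)
      rw [hfac s h1]
      congr 1
      apply Finset.prod_congr rfl
      intro i _
      rw [hy, ← hzpt i])
    (by
      intro s hs
      exact hgan s (closedBall_subset_closedBall (by norm_num) (hsub hs)))
    (by
      intro s hs
      exact hg0 s (closedBall_subset_closedBall (by norm_num) (hsub hs)))
    (by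
      intro s hs
      exact hgl s (hsub hs))
    (by
      intro i
      rcases hyout i with h1 | h1
      · refine (min_le_left _ _).trans ?_
        rw [abs_of_pos (by linarith)]
        linarith
      · refine (min_le_right _ _).trans ?_
        rw [abs_of_neg (by linarith)]
        linarith)
    (by
      have hnn : ∀ i ∈ (Finset.univ : Finset (Fin k)), 0 ≤ 1 / (v - y i) ^ 2 := by
        intro i _
        positivity
      rcases min_choice (v - a) (b - v) with h1 | h1
      · rw [hδ, h1]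
        calc 1 / (v - a) ^ 2 = 1 / (v - y ia) ^ 2 := by rw [hia]
          _ ≤ ∑ i, 1 / (v - y i) ^ 2 := Finset.single_le_sum hnn (Finset.mem_univ ia)
      · rw [hδ, h1]
        calc 1 / (b - v) ^ 2 = 1 / (v - y ib) ^ 2 := by rw [hib]; congr 1; ring
          _ ≤ ∑ i, 1 / (v - y i) ^ 2 := Finset.single_le_sum hnn (Finset.mem_univ ib))
    (by
      have h1 := hre hvpos hzv
      have h2 := hLam (pt (1 / 2) v) le_rfl le_rfl (by rw [pt_im]; linarith)
      rw [pt_im] at h2
      have h3 : |(Lam (pt (1 / 2) v)).re - Lt v| ≤ C2 / v := by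
        have h4 := (Complex.abs_re_le_norm (Lam (pt (1 / 2) v) - (Lt v : ℂ))).trans h2
        simpa using h4
      have h5 : C2 / v ≤ 1 := by
        rw [div_le_one hvpos]
        linarith
      have h6 : Lt v ≤ Real.log v := by
        unfold Lt
        apply Real.log_le_log (by positivity)
        rw [div_le_iff₀ (by positivity)]
        nlinarith [Real.pi_gt_three]
      have h7 : 0 ≤ Lt v := by
        unfold Lt
        apply Real.log_nonneg
        rw [le_div_iff₀ (by positivity)]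
        nlinarith [Real.pi_lt_four]
      have h8 : |(Lam (pt (1 / 2) v)).re| ≤ 2 * Real.log v := by
        rw [abs_le] at h3 ⊢
        constructor <;> linarith
      have h9 : logDeriv riemannZeta (pt (1 / 2) v)
          = (((logDeriv riemannZeta (pt (1 / 2) v)).re : ℝ) : ℂ) := by
        apply Complex.ext
        · simp
        · rw [hv0]; simp
      rw [h9, Complex.norm_real, Real.norm_eq_abs]
      rw [abs_le] at h8 ⊢
      constructor <;> linarith)
  refine ⟨s, hs3, ?_, ?_⟩
  all_goals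
    have hr : ‖s - pt (1 / 2) v‖ ≤ 8 * Real.log a * (b - a) ^ 2 := by
      refine hs1.trans ?_
      calc 4 * Real.log v * δ ^ 2 ≤ 4 * (2 * Real.log a) * (b - a) ^ 2 := by gcongr
        _ = 8 * Real.log a * (b - a) ^ 2 := by ring
  · have h1 := (Complex.abs_im_le_norm (s - pt (1 / 2) v)).trans hr
    rw [Complex.sub_im, pt_im] at h1
    have h2 : 8 * Real.log a * (b - a) ^ 2 ≤ 1 / 2 := by
      have h3 : 128 * ((b - a) * Real.log a) ≤ (b - a) * C * Real.log a := by
        have h4 : 0 ≤ (b - a) * Real.log a := by positivity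
        nlinarith
      have h5 : (b - a) * Real.log a ≤ 1 := by linarith
      have h6 : 8 * Real.log a * (b - a) ^ 2 = 8 * ((b - a) * Real.log a) * (b - a) := by ring
      have h7 : 0 ≤ (b - a) * Real.log a := by positivity
      nlinarith
    rw [abs_le] at h1 ⊢
    constructor <;> linarith
  · have h1 := (Complex.abs_re_le_norm (s - pt (1 / 2) v)).trans hr
    rw [Complex.sub_re, pt_re] at h1
    refine h1.trans ?_
    have h2 : (8 : ℝ) ≤ C := by linarith
    have h3 : 0 ≤ Real.log a * (b - a) ^ 2 := by positivity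
    nlinarith

end PairAux

end Pool.Agent.ZP
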