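import Pool.Agent.Lib.MP_af3d17_nt_h98.Defs

/-! Minimum principle for the real part of a holomorphic function in a half strip. -/

set_option autoImplicit false

namespace Pool.Agent.ZP

open Filter Topology Metric Set

/-- minimum principle on a rectangle -/
lemma rect_min {a b c d : ℝ} (hab : a < b) (hcd : c < d) {f : ℂ → ℂ}
    (hf : ∀ z : ℂ, a ≤ z.re → z.re ≤ b → c ≤ z.im → z.im ≤ d → DifferentiableAt ℂ f z)
    (hl : ∀ t, c ≤ t → t ≤ d → 0 ≤ (f (pt a t)).re) (hr : ∀ t, c ≤ t → t ≤ d → 0 ≤ (f (pt b t)).re)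
    (hbot : ∀ σ, a ≤ σ → σ ≤ b → 0 ≤ (f (pt σ c)).re)
    (htop : ∀ σ, a ≤ σ → σ ≤ b → 0 ≤ (f (pt σ d)).re)
    {z : ℂ} (h1 : a ≤ z.re) (h2 : z.re ≤ b) (h3 : c ≤ z.im) (h4 : z.im ≤ d) :
    0 ≤ (f z).re := by
  set U : Set ℂ := Ioo a b ×ℂ Ioo c d with hU
  have hcl : closure U = Icc a b ×ℂ Icc c d := by
    rw [hU, Complex.closure_reProdIm, closure_Ioo hab.ne, closure_Ioo hcd.ne]
  have hop : IsOpen U := by
    rw [hU]
    exact isOpen_Ioo.reProdIm isOpen_Ioo
  have hbd : Bornology.IsBounded U := by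
    refine (Bornology.IsBounded.subset (t := Icc a b ×ℂ Icc c d) ?_ ?_)
    · exact (isCompact_Icc.reProdIm isCompact_Icc).isBounded
    · rw [← hcl]; exact subset_closure
  have hdiff : DifferentiableOn ℂ (fun w => Complex.exp (-f w)) (closure U) := by
    intro w hw
    rw [hcl, Complex.mem_reProdIm] at hw
    exact ((hf w hw.1.1 hw.1.2 hw.2.1 hw.2.2).neg.cexp).differentiableWithinAt
  have hdc : DiffContOnCl ℂ (fun w => Complex.exp (-f w)) U :=
    hdiff.diffContOnCl
  have hfr : ∀ w ∈ frontier U, ‖Complex.exp (-f w)‖ ≤ 1 := by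
    intro w hw
    rw [Complex.norm_exp, Complex.neg_re, Real.exp_le_one_iff, neg_nonpos]
    have hw1 : w ∈ closure U := frontier_subset_closure hw
    have hw2 : w ∉ U := by
      rw [hop.frontier_eq] at hw
      exact hw.2
    rw [hcl, Complex.mem_reProdIm] at hw1
    obtain ⟨⟨h1, h2⟩, h3, h4⟩ := hw1
    have hwpt : ∀ {x y : ℝ}, w.re = x → w.im = y → w = pt x y := fun hx hy =>
      Complex.ext hx hy
    rcases eq_or_lt_of_le h1 with e | e
    · rw [hwpt e.symm rfl]; exact hl _ h3 h4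
    rcases eq_or_lt_of_le h2 with e' | e'
    · rw [hwpt e' rfl]; exact hr _ h3 h4
    rcases eq_or_lt_of_le h3 with e'' | e''
    · rw [hwpt rfl e''.symm]; exact hbot _ h1 h2
    rcases eq_or_lt_of_le h4 with e3 | e3
    · rw [hwpt rfl e3]; exact htop _ h1 h2
    exact absurd (by rw [hU, Complex.mem_reProdIm]; exact ⟨⟨e, e'⟩, e'', e3⟩) hw2
  have hz : z ∈ closure U := by
    rw [hcl, Complex.mem_reProdIm]; exact ⟨⟨h1, h2⟩, h3, h4⟩
  have := Complex.norm_le_of_forall_mem_frontier_norm_le hbd hdc hfr hz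
  rwa [Complex.norm_exp, Complex.neg_re, Real.exp_le_one_iff, neg_nonpos] at this

lemma re_barrier (m T : ℝ) (w : ℂ) :
    (Complex.exp (-Complex.I * (w - m) - T)).re = Real.exp (w.im - T) * Real.cos (w.re - m) := by
  rw [Complex.exp_re]
  have h1 : (-Complex.I * (w - m) - T).re = w.im - T := by simp
  have h2 : (-Complex.I * (w - m) - T).im = -(w.re - m) := by simp
  rw [h1, h2, Real.cos_neg]

lemma cos_five_quarters {x : ℝ} (hx : |x| ≤ 5 / 4) : 1 / 4 ≤ Real.cos x := by
  have h1 : x ^ 2 ≤ 25 / 16 := by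
    have := abs_nonneg x
    nlinarith [sq_abs x]
  have h := Real.one_sub_sq_div_two_le_cos (x := x)
  have h2 : |x| ≤ 1 ∨ 1 < |x| := le_or_gt _ _
  -- `cos (5/4) ≥ 1/4` from the double angle formula
  have h3 : Real.cos x = 2 * Real.cos (x / 2) ^ 2 - 1 := by
    rw [← Real.cos_two_mul]; congr 1; ring
  have h4 : 1 - (x / 2) ^ 2 / 2 ≤ Real.cos (x / 2) := Real.one_sub_sq_div_two_le_cos
  have h5 : (1 - 25 / 128 : ℝ) ≤ Real.cos (x / 2) := by nlinarith
  rw [h3]
  nlinarith

theorem strip_min {a b t0 : ℝ} (hab : a < b) (hb : b - a ≤ 5 / 2) {f : ℂ → ℂ}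
    (hf : AnalyticOnNhd ℂ f {z : ℂ | a ≤ z.re ∧ z.re ≤ b ∧ t0 ≤ z.im})
    (hl : ∀ t ≥ t0, 0 ≤ (f (pt a t)).re) (hr : ∀ t ≥ t0, 0 ≤ (f (pt b t)).re)
    (hbot : ∀ σ : ℝ, a ≤ σ → σ ≤ b → 0 ≤ (f (pt σ t0)).re)
    (htop : ∀ T : ℝ, ∃ t ≥ T, ∀ σ : ℝ, a ≤ σ → σ ≤ b → -Real.exp (t / 2) ≤ (f (pt σ t)).re) :
    ∀ z : ℂ, a ≤ z.re → z.re ≤ b → t0 ≤ z.im → 0 ≤ (f z).re := by
  intro z h1 h2 h3
  set m : ℝ := (a + b) / 2 with hm
  have hcos : ∀ σ : ℝ, a ≤ σ → σ ≤ b → 1 / 4 ≤ Real.cos (σ - m) := fun σ h h' =>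
    cos_five_quarters (abs_le.2 ⟨by rw [hm]; linarith, by rw [hm]; linarith⟩)
  -- the bound on the rectangle of height `T`
  have key : ∀ T : ℝ, t0 < T → z.im ≤ T →
      (∀ σ : ℝ, a ≤ σ → σ ≤ b → -Real.exp (T / 2) ≤ (f (pt σ T)).re) →
      -(4 * Real.exp (z.im - T / 2)) ≤ (f z).re := by
    intro T hT hzT hB
    set F : ℂ → ℂ := fun w => f w + (4 * Real.exp (T / 2) : ℝ) *
      Complex.exp (-Complex.I * (w - m) - T) with hF
    have hre : ∀ w : ℂ, (F w).re = (f w).re + 4 * Real.exp (T / 2) *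
        (Real.exp (w.im - T) * Real.cos (w.re - m)) := by
      intro w
      rw [hF]
      simp only [Complex.add_re, Complex.re_ofReal_mul, re_barrier]
    have hpos : ∀ w : ℂ, a ≤ w.re → w.re ≤ b →
        0 ≤ 4 * Real.exp (T / 2) * (Real.exp (w.im - T) * Real.cos (w.re - m)) := by
      intro w hw hw'
      have := hcos w.re hw hw'
      have h5 : 0 ≤ Real.cos (w.re - m) := by linarith
      positivity
    have hz0 : 0 ≤ (F z).re := by
      refine rect_min hab hT (f := F) ?_ ?_ ?_ ?_ ?_ h1 h2 h3 hzT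
      · intro w hw1 hw2 hw3 _
        have hA := (hf w ⟨hw1, hw2, hw3⟩).differentiableAt
        have hE : DifferentiableAt ℂ (fun w : ℂ => Complex.exp (-Complex.I * (w - m) - T)) w := by
          fun_prop
        exact hA.add (hE.const_mul _)
      · intro t ht _
        rw [hre]
        have := hpos (pt a t) le_rfl hab.le
        have := hl t ht
        linarith
      · intro t ht _
        rw [hre]
        have := hpos (pt b t) hab.le le_rfl
        have := hr t ht
        linarith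
      · intro σ hσ hσ'
        rw [hre]
        have := hpos (pt σ t0) hσ hσ'
        have := hbot σ hσ hσ'
        linarith
      · intro σ hσ hσ'
        rw [hre]
        have h5 := hcos σ hσ hσ'
        have h6 := hB σ hσ hσ'
        have h7 : Real.exp ((pt σ T).im - T) = 1 := by simp
        rw [h7, one_mul]
        have h8 : (pt σ T).re = σ := rfl
        rw [h8]
        have h9 := Real.exp_pos (T / 2)
        nlinarith
    rw [hre] at hz0
    have h5 : Real.cos (z.re - m) ≤ 1 := Real.cos_le_one _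
    have h6 : 4 * Real.exp (T / 2) * (Real.exp (z.im - T) * Real.cos (z.re - m))
        ≤ 4 * Real.exp (z.im - T / 2) := by
      have e : Real.exp (z.im - T / 2) = Real.exp (T / 2) * Real.exp (z.im - T) := by
        rw [← Real.exp_add]; congr 1; ring
      rw [e]
      have := Real.exp_pos (T / 2)
      have := Real.exp_pos (z.im - T)
      nlinarith [mul_pos this ‹0 < Real.exp (T / 2)›]
    linarith
  -- let `T → ∞`
  by_contra hneg
  push Not at hneg
  set δ : ℝ := -(f z).re with hδ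
  have hδ0 : 0 < δ := by rw [hδ]; linarith
  have hlim : Tendsto (fun T : ℝ => 4 * Real.exp (z.im - T / 2)) atTop (𝓝 (4 * 0)) := by
    refine Tendsto.const_mul _ (Real.tendsto_exp_atBot.comp ?_)
    have : Tendsto (fun T : ℝ => T / 2) atTop atTop := tendsto_id.atTop_div_const (by norm_num)
    have h := tendsto_atBot_add_const_left atTop z.im (tendsto_neg_atTop_atBot.comp this)
    refine h.congr (fun T => ?_)
    simp [sub_eq_add_neg]
  rw [mul_zero] at hlim
  obtain ⟨T0, hT0⟩ := ((hlim.eventually (gt_mem_nhds hδ0)).and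
    ((eventually_gt_atTop t0).and (eventually_ge_atTop z.im))).exists_forall_of_atTop
  obtain ⟨T, hT, hB⟩ := htop T0
  obtain ⟨h5, h6, h7⟩ := hT0 T hT
  have := key T h6 h7 hB
  rw [hδ] at h5
  linarith

end Pool.Agent.ZP
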