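import Pool.Agent.Lib.MP_af3d17_nt_h98.Near
import Pool.Agent.Lib.MP_af3d17_nt_h98.Strip

/-!
If all zeros of `ζ` of large height are on the critical line and simple, then all zeros of `ζ'` of
large height are to the right of it.
-/

set_option autoImplicit false

namespace Pool.Agent.ZP

open Filter Topology Metric

namespace D1

/-- zeros of large height are on the line -/
lemma re_of_zero {T0 : ℝ} (h : RH T0) {z : ℂ} (hz : riemannZeta z = 0) (h0 : 0 < z.re)
    (hi : 0 < z.im) (hT : T0 < z.im) : z.re = 1 / 2 := by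
  have h1 : z.re < 1 := by
    by_contra hcon
    exact riemannZeta_ne_zero_of_one_le_re (not_lt.1 hcon) hz
  exact (h z ⟨hz, h0, h1, hi⟩ hT).1

lemma zeta_ne {T0 : ℝ} (h : RH T0) {z : ℂ} (h0 : 1 / 2 < z.re)
    (hi : 0 < z.im) (hT : T0 < z.im) : riemannZeta z ≠ 0 := by
  intro hz
  have := re_of_zero h hz (by linarith) hi hT
  linarith

lemma re_sum {k : ℕ} (s : ℂ) (z : Fin k → ℂ) (hz : ∀ i, (z i).re = 1 / 2) :
    (∑ i, 1 / (s - z i)).re = ∑ i, (s.re - 1 / 2) / ‖s - z i‖ ^ 2 := by
  rw [Complex.re_sum]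
  refine Finset.sum_congr rfl fun i _ => ?_
  rw [A.re_inv_sub, hz i]

/-- lower bound of the real part of `ζ'/ζ` to the right of the line -/
lemma lower {T0 : ℝ} (h : RH T0) : ∃ C T : ℝ, 0 < C ∧ 100 ≤ T ∧ ∀ t ≥ T, ∀ σ : ℝ, 1 / 2 < σ →
    σ ≤ 3 → -(C * Real.log t) ≤ (logDeriv riemannZeta (pt σ t)).re := by
  obtain ⟨C, T1, hC, hT1, hloc⟩ := local_zeta
  refine ⟨C, max T1 (|T0| + 20), hC, hT1.trans (le_max_left _ _), fun t ht σ h1 h3 => ?_⟩
  have ht1 : T1 ≤ t := (le_max_left _ _).trans ht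
  have ht2 : |T0| + 20 ≤ t := (le_max_right _ _).trans ht
  have hT0 := abs_le.1 (le_refl |T0|)
  have ht0 : 0 < t := by linarith [abs_nonneg T0]
  obtain ⟨k, z, g, -, hz, hg, hf, hg0, hB⟩ := hloc t ht1
  have hzre : ∀ i, (z i).re = 1 / 2 := fun i => by
    have hm := mem_disc (hz i).1
    exact re_of_zero h (hz i).2 (by linarith [hm.1]) (by linarith [hm.2.2.1, abs_nonneg T0])
      (by linarith [hm.2.2.1, hT0.2])
  have hs : pt σ t ∈ closedBall (pt 10 t) (96 / 10) :=
    pt_mem_disc (by norm_num) (by nlinarith)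
  have hζ : riemannZeta (pt σ t) ≠ 0 := zeta_ne h (by simpa using h1) (by simpa using ht0)
    (by rw [pt_im]; linarith [hT0.2])
  rw [A.logDeriv_fact hg hf (closedBall_subset_closedBall (by norm_num) hs) hζ, Complex.add_re,
    re_sum _ _ hzre]
  have h4 : 0 ≤ ∑ i, ((pt σ t).re - 1 / 2) / ‖pt σ t - z i‖ ^ 2 :=
    Finset.sum_nonneg fun i _ => div_nonneg (by rw [pt_re]; linarith) (by positivity)
  have h5 := (Complex.abs_re_le_norm _).trans (hB _ hs)
  linarith [(abs_le.1 h5).1]

lemma Lt_le_of_le {u t : ℝ} (hu : 0 < u) (h : u ≤ 2 * t) (ht : 0 < t) :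
    Lt u ≤ Real.log 2 + Lt t := by
  have hpi := Real.pi_pos
  rw [Lt, Lt, ← Real.log_mul (by norm_num) (by positivity)]
  apply Real.log_le_log (by positivity)
  rw [mul_div_assoc']
  gcongr

/-- positivity close to the line -/
lemma near {T0 : ℝ} (h : RH T0) : ∃ e0 T : ℝ, 0 < e0 ∧ e0 ≤ 1 / 10 ∧ 100 ≤ T ∧ ∀ t ≥ T, ∀ σ : ℝ,
    1 / 2 < σ → σ ≤ 1 / 2 + e0 →
    0 ≤ (logDeriv riemannZeta (pt σ t)).re + 3 / 4 * (Lam (pt σ t)).re := by
  obtain ⟨C, T1, hC, hT1, hloc⟩ := local_zeta
  obtain ⟨C2, T2, hT2, hLam⟩ := Lam_strip (1 / 2) 3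
  set e0 : ℝ := min (1 / 10) (1 / (400 * C)) with he0
  have he0p : 0 < e0 := lt_min (by norm_num) (by positivity)
  have he1 : e0 ≤ 1 / 10 := min_le_left _ _
  have he2 : C * e0 ≤ 1 / 400 := by
    calc C * e0 ≤ C * (1 / (400 * C)) := by
          apply mul_le_mul_of_nonneg_left (min_le_right _ _) hC.le
      _ = 1 / 400 := by field_simp
  set K : ℝ := Real.log 2 + 5 / 4 * |C2| + Real.log (2 * Real.pi) / 4 with hK
  obtain ⟨T3, hT3⟩ := (Real.tendsto_log_atTop.eventually_ge_atTop (10 * K)).exists_forall_of_atTop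
  refine ⟨e0, max (max T1 (|T0| + 20)) (max (T2 + 1) (max T3 100)), he0p, he1,
    ((le_max_right _ _).trans (le_max_right _ _)).trans (le_max_right _ _), fun t ht σ h1 h2 => ?_⟩
  have ht1 : T1 ≤ t := ((le_max_left _ _).trans (le_max_left _ _)).trans ht
  have ht2 : |T0| + 20 ≤ t := ((le_max_right _ _).trans (le_max_left _ _)).trans ht
  have ht3 : T2 + 1 ≤ t := ((le_max_left _ _).trans (le_max_right _ _)).trans ht
  have ht4 : T3 ≤ t := (((le_max_left _ _).trans (le_max_right _ _)).trans (le_max_right _ _)).trans ht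
  have hT0 := abs_le.1 (le_refl |T0|)
  have ht0 : 0 < t := by linarith [abs_nonneg T0]
  have hlogK := hT3 t ht4
  obtain ⟨k, z, g, -, hz, hg, hf, hg0, hB⟩ := hloc t ht1
  have hzre : ∀ i, (z i).re = 1 / 2 := fun i => by
    have hm := mem_disc (hz i).1
    exact re_of_zero h (hz i).2 (by linarith [hm.1]) (by linarith [hm.2.2.1, abs_nonneg T0])
      (by linarith [hm.2.2.1, hT0.2])
  -- a point of the line
  obtain ⟨u, hu, hun⟩ := (Set.Ioo_infinite (show t - e0 < t + e0 by linarith)).exists_notMem_finset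
    (Finset.univ.image fun i => (z i).im)
  have hu0 : 0 < u := by linarith [hu.1, abs_nonneg T0]
  have hsm : pt σ t ∈ closedBall (pt 10 t) (955 / 100) :=
    pt_mem_disc (by norm_num) (by nlinarith)
  have hum : pt (1 / 2) u ∈ closedBall (pt 10 t) (955 / 100) :=
    pt_mem_disc (by norm_num) (by nlinarith [hu.1, hu.2])
  have hζ : riemannZeta (pt σ t) ≠ 0 := zeta_ne h (by simpa using h1) (by simpa using ht0)
    (by rw [pt_im]; linarith [hT0.2])
  have hζu : riemannZeta (pt (1 / 2) u) ≠ 0 := by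
    rw [hf _ (closedBall_subset_closedBall (by norm_num) hum)]
    refine mul_ne_zero (Finset.prod_ne_zero_iff.2 fun i _ => ?_)
      (hg0 _ (closedBall_subset_closedBall (by norm_num) hum))
    intro h0
    apply hun
    rw [Finset.mem_image]
    refine ⟨i, Finset.mem_univ i, ?_⟩
    have := congrArg Complex.im (sub_eq_zero.1 h0)
    rw [pt_im] at this
    exact this.symm
  have hline := re_logDeriv_line hu0 hζu
  rw [A.logDeriv_fact hg hf (closedBall_subset_closedBall (by norm_num) hum) hζu, Complex.add_re,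
    re_sum _ _ hzre] at hline
  have hsum0 : ∑ i, ((pt (1 / 2) u).re - 1 / 2) / ‖pt (1 / 2) u - z i‖ ^ 2 = 0 :=
    Finset.sum_eq_zero fun i _ => by simp
  rw [hsum0, zero_add] at hline
  rw [A.logDeriv_fact hg hf (closedBall_subset_closedBall (by norm_num) hsm) hζ, Complex.add_re,
    re_sum _ _ hzre]
  have h4 : 0 ≤ ∑ i, ((pt σ t).re - 1 / 2) / ‖pt σ t - z i‖ ^ 2 :=
    Finset.sum_nonneg fun i _ => div_nonneg (by rw [pt_re]; linarith) (by positivity)
  -- Lipschitz
  have hlip := A.logDeriv_lip hg hg0 hB hum hsm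
  have hdist : ‖pt σ t - pt (1 / 2) u‖ ≤ 2 * e0 := by
    have e1 : pt σ t - pt (1 / 2) u = (pt σ t - pt (1 / 2) t) + (pt (1 / 2) t - pt (1 / 2) u) := by
      ring
    rw [e1]
    refine (norm_add_le _ _).trans ?_
    rw [A.norm_pt_sub, A.norm_pt_sub', abs_of_pos (by linarith : 0 < σ - 1 / 2)]
    have : |t - u| ≤ e0 := abs_le.2 ⟨by linarith [hu.2], by linarith [hu.1]⟩
    linarith
  have hlog : 0 ≤ Real.log t := Real.log_nonneg (by linarith [abs_nonneg T0])
  have hlip2 : 20 * (C * Real.log t) * ‖pt σ t - pt (1 / 2) u‖ ≤ Real.log t / 10 := by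
    calc 20 * (C * Real.log t) * ‖pt σ t - pt (1 / 2) u‖ ≤ 20 * (C * Real.log t) * (2 * e0) := by
          gcongr
      _ = 40 * (C * e0) * Real.log t := by ring
      _ ≤ 40 * (1 / 400) * Real.log t := by gcongr
      _ = Real.log t / 10 := by ring
  have h5 := (Complex.abs_re_le_norm _).trans (hlip.trans hlip2)
  rw [Complex.sub_re, abs_le] at h5
  -- Lam
  have hL1 := hLam (pt σ t) (by rw [pt_re]; linarith) (by rw [pt_re]; linarith)
    (by rw [pt_im]; linarith)
  have hL2 := hLam (pt (1 / 2) u) (by rw [pt_re]) (by rw [pt_re]; norm_num)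
    (by rw [pt_im]; linarith [hu.1])
  rw [pt_im] at hL1 hL2
  have ht1' : 1 ≤ t := by linarith [abs_nonneg T0]
  have hu1' : 1 ≤ u := by linarith [abs_nonneg T0, hu.1]
  have hdiv : ∀ x : ℝ, 1 ≤ x → C2 / x ≤ |C2| := fun x hx => by
    calc C2 / x ≤ |C2| / x := by gcongr; exact le_abs_self _
      _ ≤ |C2| := div_le_self (abs_nonneg _) hx
  have hL1' := (Complex.abs_re_le_norm _).trans (hL1.trans (hdiv t ht1'))
  have hL2' := (Complex.abs_re_le_norm _).trans (hL2.trans (hdiv u hu1'))
  rw [Complex.sub_re, Complex.ofReal_re, abs_le] at hL1' hL2'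
  have hLt := Lt_le_of_le hu0 (by linarith [hu.2] : u ≤ 2 * t) ht0
  have hLt' : Lt t = Real.log t - Real.log (2 * Real.pi) := by
    rw [Lt, Real.log_div ht0.ne' (by positivity)]
  have hl2 : 0 ≤ Real.log 2 := Real.log_nonneg (by norm_num)
  have hc := abs_nonneg C2
  rw [hLt'] at hLt hL1'
  rw [hK] at hlogK
  nlinarith [h4, h5.1, h5.2, hL1'.1, hL1'.2, hL2'.1, hL2'.2, hline]

lemma re_barrier' (m t0 : ℝ) (w : ℂ) :
    (Complex.exp (Complex.I * (w - m) + t0)).re = Real.exp (t0 - w.im) * Real.cos (w.re - m) := by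
  rw [Complex.exp_re]
  have h1 : (Complex.I * (w - m) + t0).re = t0 - w.im := by simp; ring
  have h2 : (Complex.I * (w - m) + t0).im = w.re - m := by simp
  rw [h1, h2]

/-- positivity of the real part of `ζ'/ζ + Λ` to the right of the line -/
lemma pos_right {T0 : ℝ} (h : RH T0) : ∃ T : ℝ, ∀ w : ℂ, 1 / 2 < w.re → T < w.im →
    riemannZeta w ≠ 0 ∧ 0 < (logDeriv riemannZeta w + Lam w).re := by
  obtain ⟨C1, T1, hC1, hT1, hlow⟩ := lower h
  obtain ⟨e0, T2, he0, he1, hT2, hnear⟩ := near h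
  obtain ⟨C0, hC0, hdef⟩ := logDeriv_bound
  obtain ⟨T3, hLam⟩ := Lam_lower (2 * C0 + 8)
  -- growth
  have hexp : ∃ T4 : ℝ, ∀ t ≥ T4, C1 * Real.log t ≤ Real.exp (t / 2) := by
    have h1 : Tendsto (fun t : ℝ => Real.exp (t / 2) - C1 * Real.log t) atTop atTop := by
      have h2 : ∀ᶠ t : ℝ in atTop, C1 * Real.log t ≤ 0 + C1 * t := by
        filter_upwards [eventually_gt_atTop 0] with t ht
        have := Real.log_le_sub_one_of_pos ht
        nlinarith
      have h3 : Tendsto (fun t : ℝ => Real.exp (t / 2) - C1 * t) atTop atTop := by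
        have h4 : ∀ t : ℝ, 0 ≤ t → Real.exp (t / 2) ≥ t ^ 2 / 8 := by
          intro t ht
          have := Real.quadratic_le_exp_of_nonneg (x := t / 2) (by positivity)
          nlinarith
        have h5 : Tendsto (fun t : ℝ => t * (t / 8 - C1)) atTop atTop := by
          apply tendsto_id.atTop_mul_atTop₀
          exact tendsto_atTop_add_const_right _ (-C1) (tendsto_id.atTop_div_const (by norm_num))
        refine tendsto_atTop_mono' _ ?_ h5
        filter_upwards [eventually_ge_atTop 0] with t ht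
        have := h4 t ht
        nlinarith
      refine tendsto_atTop_mono' _ ?_ h3
      filter_upwards [h2] with t ht
      linarith
    obtain ⟨T4, hT4⟩ := (h1.eventually_ge_atTop 0).exists_forall_of_atTop
    exact ⟨T4, fun t ht => by linarith [hT4 t ht]⟩
  obtain ⟨T4, hexp⟩ := hexp
  set t0 : ℝ := max (max T1 T2) (max T3 (|T0| + 20)) with ht0
  have e1 : T1 ≤ t0 := (le_max_left _ _).trans (le_max_left _ _)
  have e2 : T2 ≤ t0 := (le_max_right _ _).trans (le_max_left _ _)
  have e3 : T3 ≤ t0 := (le_max_left _ _).trans (le_max_right _ _)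
  have e4 : |T0| + 20 ≤ t0 := (le_max_right _ _).trans (le_max_right _ _)
  have hT0 := abs_le.1 (le_refl |T0|)
  have hab0 := abs_nonneg T0
  set K : ℝ := C1 * Real.log t0 with hK
  have hK0 : 0 ≤ K := mul_nonneg hC1.le (Real.log_nonneg (by linarith))
  set a : ℝ := 1 / 2 + e0 with ha
  set m : ℝ := (a + 3) / 2 with hm
  have hcos : ∀ σ : ℝ, a ≤ σ → σ ≤ 3 → 1 / 4 ≤ Real.cos (σ - m) := fun σ h h' =>
    cos_five_quarters (abs_le.2 ⟨by rw [hm]; linarith, by rw [hm]; linarith⟩)
  set f : ℂ → ℂ := fun w => logDeriv riemannZeta w + (3 / 4 : ℝ) * Lam w +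
    (4 * K : ℝ) * Complex.exp (Complex.I * (w - m) + t0) with hf
  have hre : ∀ w : ℂ, (f w).re = (logDeriv riemannZeta w).re + 3 / 4 * (Lam w).re +
      4 * K * (Real.exp (t0 - w.im) * Real.cos (w.re - m)) := by
    intro w
    rw [hf]
    simp only [Complex.add_re, Complex.re_ofReal_mul, re_barrier']
  have hbar : ∀ w : ℂ, a ≤ w.re → w.re ≤ 3 →
      0 ≤ 4 * K * (Real.exp (t0 - w.im) * Real.cos (w.re - m)) := by
    intro w hw hw'
    have h5 : 0 ≤ Real.cos (w.re - m) := by linarith [hcos w.re hw hw']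
    positivity
  have hLam0 : ∀ w : ℂ, 1 / 2 ≤ w.re → t0 ≤ w.im → 2 * C0 + 8 ≤ (Lam w).re := fun w h1 h2 =>
    hLam w h1 (e3.trans h2)
  have hmain : ∀ w : ℂ, a ≤ w.re → w.re ≤ 3 → t0 ≤ w.im → 0 ≤ (f w).re := by
    apply strip_min (by rw [ha]; linarith) (by rw [ha]; linarith)
    · intro w hw
      obtain ⟨h1, h2, h3⟩ := hw
      have hwi : 0 < w.im := by linarith
      have hne : riemannZeta w ≠ 0 := zeta_ne h (by linarith) hwi (by linarith [hT0.2])
      have hA : AnalyticAt ℂ (logDeriv riemannZeta) w :=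
        (zeta_analyticAt hwi).deriv.div (zeta_analyticAt hwi) hne
      have hE : AnalyticAt ℂ (fun w : ℂ => Complex.exp (Complex.I * (w - m) + t0)) w := by
        fun_prop
      exact (hA.add (analyticAt_const.mul (Lam_analytic hwi))).add (analyticAt_const.mul hE)
    · intro t ht
      rw [hre]
      have h1 := hnear t (e2.trans ht) a (by rw [ha]; linarith) le_rfl
      have h2 := hbar (pt a t) le_rfl (by rw [pt_re, ha]; linarith)
      linarith
    · intro t ht
      rw [hre]
      have h1 := hdef (pt 3 t) (by rw [pt_re]; norm_num)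
      have h2 := (abs_le.1 ((Complex.abs_re_le_norm _).trans h1)).1
      have h3 := hLam0 (pt 3 t) (by rw [pt_re]; norm_num) ht
      have h4 := hbar (pt 3 t) (by rw [pt_re, ha]; linarith) le_rfl
      linarith
    · intro σ h1 h2
      rw [hre]
      have h3 := hlow t0 e1 σ (by linarith) h2
      have h4 := hLam0 (pt σ t0) (by rw [pt_re]; linarith) le_rfl
      have h5 : Real.exp (t0 - (pt σ t0).im) = 1 := by simp
      rw [h5, one_mul, pt_re]
      have h6 := hcos σ h1 h2
      have h7 : K ≤ 4 * K * Real.cos (σ - m) := by nlinarith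
      linarith
    · intro T
      refine ⟨max T (max T4 t0), le_max_left _ _, fun σ h1 h2 => ?_⟩
      set t := max T (max T4 t0) with ht
      have ht4 : T4 ≤ t := (le_max_left _ _).trans (le_max_right _ _)
      have ht5 : t0 ≤ t := (le_max_right _ _).trans (le_max_right _ _)
      rw [hre]
      have h3 := hlow t (e1.trans ht5) σ (by linarith) h2
      have h4 := hLam0 (pt σ t) (by rw [pt_re]; linarith) ht5
      have h5 := hbar (pt σ t) h1 h2
      have h6 := hexp t ht4
      linarith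
  refine ⟨t0 + Real.log (4 * K + 1), fun w hw hT => ?_⟩
  have hlogK : 0 ≤ Real.log (4 * K + 1) := Real.log_nonneg (by linarith)
  have hwt : t0 ≤ w.im := by linarith
  have hwi : 0 < w.im := by linarith
  refine ⟨zeta_ne h hw hwi (by linarith [hT0.2]), ?_⟩
  rw [Complex.add_re]
  have hL := hLam0 w hw.le hwt
  have hwpt : pt w.re w.im = w := rfl
  rcases le_or_gt w.re 3 with h3 | h3
  · rcases le_or_gt a w.re with h1 | h1
    · have h4 := hmain w h1 h3 hwt
      rw [hre] at h4
      have h5 : Real.exp (t0 - w.im) ≤ 1 / (4 * K + 1) := by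
        rw [← Real.exp_log (show (0 : ℝ) < 1 / (4 * K + 1) by positivity)]
        apply Real.exp_le_exp.2
        rw [one_div, Real.log_inv]
        linarith
      have h6 : 4 * K * (Real.exp (t0 - w.im) * Real.cos (w.re - m)) ≤ 1 := by
        have h7 : Real.exp (t0 - w.im) * Real.cos (w.re - m) ≤ 1 / (4 * K + 1) := by
          calc Real.exp (t0 - w.im) * Real.cos (w.re - m) ≤ Real.exp (t0 - w.im) * 1 := by
                gcongr; exact Real.cos_le_one _
            _ ≤ 1 / (4 * K + 1) := by rw [mul_one]; exact h5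
        calc 4 * K * (Real.exp (t0 - w.im) * Real.cos (w.re - m)) ≤ 4 * K * (1 / (4 * K + 1)) := by
              gcongr
          _ ≤ 1 := by
              rw [mul_one_div, div_le_one (by positivity)]
              linarith
      linarith
    · have h4 := hnear w.im (e2.trans hwt) w.re hw h1.le
      rw [hwpt] at h4
      linarith
  · have h1 := hdef w (by linarith)
    have h2 := (abs_le.1 ((Complex.abs_re_le_norm _).trans h1)).1
    linarith

end D1

theorem dh_of_rh {T0 : ℝ} (h : RH T0) : ∃ T1 : ℝ, DH T1 := by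
  obtain ⟨T1, hpos⟩ := D1.pos_right h
  obtain ⟨T2, hLam⟩ := Lam_lower 1
  refine ⟨max (max T1 T2) (max T0 1), fun ρ hρ hT => ?_⟩
  have h1 : T1 < ρ.im := ((le_max_left _ _).trans (le_max_left _ _)).trans_lt hT
  have h2 : T2 < ρ.im := ((le_max_right _ _).trans (le_max_left _ _)).trans_lt hT
  have h3 : T0 < ρ.im := ((le_max_left _ _).trans (le_max_right _ _)).trans_lt hT
  have h4 : 1 < ρ.im := ((le_max_right _ _).trans (le_max_right _ _)).trans_lt hT
  have hi : 0 < ρ.im := by linarith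
  by_contra hcon
  push Not at hcon
  rw [deriv_zero_iff hi] at hρ
  set w : ℂ := 1 - (starRingEnd ℂ) ρ with hw
  have hwre : w.re = 1 - ρ.re := by rw [hw]; simp
  have hwim : w.im = ρ.im := by rw [hw]; simp
  have key : riemannZeta w ≠ 0 → 0 < (logDeriv riemannZeta w + Lam w).re → False := by
    intro hne hp
    have e : EE w = riemannZeta w * (logDeriv riemannZeta w + Lam w) := by
      rw [EE, logDeriv_apply]
      field_simp
    rw [e] at hρ
    have h0 : logDeriv riemannZeta w + Lam w = 0 := (mul_eq_zero.1 hρ).resolve_left hne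
    rw [h0] at hp
    simp at hp
  rcases eq_or_lt_of_le hcon with he | hlt
  · -- on the line
    have hwpt : w = pt (1 / 2) ρ.im := by
      apply Complex.ext
      · rw [hwre, pt_re, he]; norm_num
      · rw [hwim, pt_im]
    by_cases hz : riemannZeta w = 0
    · have h5 : IsUpperZero w := ⟨hz, by rw [hwre, he]; norm_num, by rw [hwre, he]; norm_num,
        by rw [hwim]; exact hi⟩
      have h6 := (h w h5 (by rw [hwim]; exact h3)).2
      rw [EE, hz, mul_zero, add_zero] at hρ
      exact h6 hρ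
    · refine key hz ?_
      have h5 := re_logDeriv_line hi (by rw [← hwpt]; exact hz)
      have h6 := hLam w (by rw [hwre]; linarith) (by rw [hwim]; exact h2.le)
      rw [← hwpt] at h5
      rw [Complex.add_re]
      linarith
  · obtain ⟨h5, h6⟩ := hpos w (by rw [hwre]; linarith) (by rw [hwim]; exact h1)
    exact key h5 h6

end Pool.Agent.ZP
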