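import Pool.Agent.Lib.MP_af3d17_nt_h98.Near
import Pool.Agent.Lib.MP_af3d17_nt_h98.Strip

/-!
If all zeros of `ζ'` of large height are to the right of the critical line, then all zeros of `ζ`
of large height are on the line and simple.
-/

set_option autoImplicit false

namespace Pool.Agent.ZP

open Filter Topology Metric

namespace D2

lemma re_W (m t0 κ : ℝ) (w : ℂ) :
    (-Complex.I * Complex.exp (Complex.I * (w - m - Complex.I * t0) * κ)).re =
      Real.exp (-(w.im - t0) * κ) * Real.sin ((w.re - m) * κ) := by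
  have h1 : (Complex.I * (w - m - Complex.I * t0) * κ).re = -(w.im - t0) * κ := by
    simp
  have h2 : (Complex.I * (w - m - Complex.I * t0) * κ).im = (w.re - m) * κ := by
    simp
  have h3 : ∀ z : ℂ, (-Complex.I * z).re = z.im := fun z => by simp
  rw [h3, Complex.exp_im, h1, h2]

lemma sin_lower {x : ℝ} (h0 : 0 ≤ x) (h1 : x ≤ 5 / 2) : x / 10 ≤ Real.sin x := by
  have hpi := Real.pi_gt_d2
  have hpi' := Real.pi_lt_d2
  rcases le_or_gt x (Real.pi / 2) with h | h
  · have h2 := Real.mul_le_sin h0 h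
    have h3 : x / 10 ≤ 2 / Real.pi * x := by
      have : 1 / 10 ≤ 2 / Real.pi := by
        rw [div_le_div_iff₀ (by norm_num) Real.pi_pos]
        linarith
      nlinarith
    linarith
  · have h2 := Real.mul_le_sin (x := Real.pi - x) (by linarith) (by linarith)
    rw [Real.sin_pi_sub] at h2
    have h3 : 1 / 4 ≤ 2 / Real.pi * (Real.pi - x) := by
      have e : 2 / Real.pi * (Real.pi - x) = 2 - 2 * x / Real.pi := by
        field_simp
      rw [e]
      have : 2 * x / Real.pi ≤ 7 / 4 := by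
        rw [div_le_iff₀ Real.pi_pos]
        linarith
      linarith
    linarith

lemma EE_ne {T0 : ℝ} (h : DH T0) {w : ℂ} (h1 : 1 / 2 ≤ w.re) (h2 : 0 < w.im) (h3 : T0 < w.im) :
    EE w ≠ 0 := by
  intro h4
  have h5 := deriv_zero_iff (s := 1 - (starRingEnd ℂ) w) (by simpa using h2)
  have h6 : 1 - (starRingEnd ℂ) (1 - (starRingEnd ℂ) w) = w := by simp
  rw [h6] at h5
  have h7 := h _ (h5.2 h4) (by simpa using h3)
  simp at h7
  linarith

/-- the function `ζ / EE` -/
noncomputable def V (w : ℂ) : ℂ := riemannZeta w / EE w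

lemma V_analyticAt {T0 : ℝ} (h : DH T0) {w : ℂ} (h1 : 1 / 2 ≤ w.re) (h2 : 0 < w.im)
    (h3 : T0 < w.im) : AnalyticAt ℂ V w :=
  (zeta_analyticAt h2).div (EE_analyticAt h2) (EE_ne h h1 h2 h3)

lemma V_eq {w : ℂ} (h : riemannZeta w ≠ 0) : V w = (logDeriv riemannZeta w + Lam w)⁻¹ := by
  have e : EE w = riemannZeta w * (logDeriv riemannZeta w + Lam w) := by
    rw [EE, logDeriv_apply]
    field_simp
  rw [V, e]
  by_cases h0 : logDeriv riemannZeta w + Lam w = 0
  · rw [h0]; simp
  · field_simp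

/-- on the critical line the real part is nonnegative -/
lemma V_line : ∃ T : ℝ, ∀ t ≥ T, 0 ≤ (V (pt (1 / 2) t)).re := by
  obtain ⟨T2, hT2, hlam⟩ := Lam_line
  refine ⟨T2, fun t ht => ?_⟩
  have ht0 : 100 ≤ t := hT2.trans ht
  rcases eq_or_ne (riemannZeta (pt (1 / 2) t)) 0 with h | h
  · rw [V, h, zero_div, Complex.zero_re]
  · have h1 := re_logDeriv_line (by linarith) h
    have h2 := (hlam t ht).1
    have h3 : 0 ≤ Real.log t := Real.log_nonneg (by linarith)
    rw [V_eq h, Complex.inv_re, Complex.add_re]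
    exact div_nonneg (by linarith) (Complex.normSq_nonneg _)

/-- on `Re = 3` -/
lemma V_right : ∃ T : ℝ, 100 ≤ T ∧ ∀ t ≥ T, 1 / (8 * Real.log t) ≤ (V (pt 3 t)).re := by
  obtain ⟨C0, hC0, hld⟩ := logDeriv_bound
  obtain ⟨C2, T2, hT2, hLam⟩ := Lam_strip 3 3
  obtain ⟨T3, hT3⟩ := (Real.tendsto_log_atTop.eventually_ge_atTop
    (2 * (C0 + |C2| + Real.log (2 * Real.pi)))).exists_forall_of_atTop
  refine ⟨max 100 (max T2 T3), le_max_left _ _, fun t ht => ?_⟩
  have ht1 : 100 ≤ t := (le_max_left _ _).trans ht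
  have ht2 : T2 ≤ t := ((le_max_left _ _).trans (le_max_right _ _)).trans ht
  have ht3 : T3 ≤ t := ((le_max_right _ _).trans (le_max_right _ _)).trans ht
  have ht0 : 0 < t := by linarith
  have hlog : 0 < Real.log t := Real.log_pos (by linarith)
  have hne : riemannZeta (pt 3 t) ≠ 0 :=
    riemannZeta_ne_zero_of_one_le_re (by rw [pt_re]; norm_num)
  have h1 := hld (pt 3 t) (by rw [pt_re]; norm_num)
  have h2 := hLam (pt 3 t) (by rw [pt_re]) (by rw [pt_re]) ht2
  rw [pt_im] at h2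
  have h3 : C2 / t ≤ |C2| := by
    calc C2 / t ≤ |C2| / t := by gcongr; exact le_abs_self _
      _ ≤ |C2| := div_le_self (abs_nonneg _) (by linarith)
  have h4 := hT3 t ht3
  have hLt : Lt t = Real.log t - Real.log (2 * Real.pi) := by
    rw [Lt, Real.log_div ht0.ne' (by positivity)]
  have h2pi : 0 ≤ Real.log (2 * Real.pi) := Real.log_nonneg (by linarith [Real.pi_gt_three])
  set z : ℂ := logDeriv riemannZeta (pt 3 t) + Lam (pt 3 t) with hz
  have e : z - (Lt t : ℂ) = logDeriv riemannZeta (pt 3 t) + (Lam (pt 3 t) - (Lt t : ℂ)) := by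
    rw [hz]; ring
  have h5 : ‖z - (Lt t : ℂ)‖ ≤ C0 + |C2| := by
    rw [e]
    exact (norm_add_le _ _).trans (add_le_add h1 (h2.trans h3))
  have h6 := (Complex.abs_re_le_norm _).trans h5
  rw [Complex.sub_re, Complex.ofReal_re, abs_le, hLt] at h6
  have h7 : Real.log t / 2 ≤ z.re := by linarith [h6.1]
  have h8 : ‖z‖ ≤ 2 * Real.log t := by
    have : z = (z - (Lt t : ℂ)) + (Lt t : ℂ) := by ring
    rw [this]
    refine (norm_add_le _ _).trans ?_
    rw [Complex.norm_real, Real.norm_eq_abs, abs_of_nonneg (by rw [hLt]; linarith [abs_nonneg C2])]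
    linarith
  rw [V_eq hne, Complex.inv_re, Complex.normSq_eq_norm_sq]
  have hz0 : 0 < ‖z‖ := lt_of_lt_of_le (by linarith) (Complex.re_le_norm z)
  rw [div_le_div_iff₀ (by positivity) (by positivity)]
  nlinarith [norm_nonneg z]

/-- growth at special heights -/
lemma V_top : ∀ c : ℝ, ∀ T : ℝ, ∃ t ≥ T, ∀ σ : ℝ, 1 / 2 ≤ σ → σ ≤ 3 →
    ‖V (pt σ t)‖ + c ≤ Real.exp (t / 2) := by
  intro c T
  obtain ⟨T1, hT1, hE⟩ := EE_lower
  obtain ⟨C, hC, hz⟩ := zeta_growth
  have hlim : ∀ᶠ t : ℝ in atTop, C * t ^ 2 * Real.exp ((Real.log t) ^ 2) + c ≤ Real.exp (t / 2) := by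
    have h1 : ∀ᶠ t : ℝ in atTop, 2 * Real.log t + Real.log t ^ 2 ≤ t / 4 := by
      have h2 := (isLittleO_log_rpow_atTop (show (0 : ℝ) < 1 / 2 by norm_num)).def
        (show (0 : ℝ) < 1 / 4 by norm_num)
      filter_upwards [h2, eventually_ge_atTop 4096] with t ht ht1
      rw [Real.norm_eq_abs, Real.norm_eq_abs, abs_of_nonneg (Real.log_nonneg (by linarith)),
        abs_of_nonneg (Real.rpow_nonneg (by linarith) _), ← Real.sqrt_eq_rpow] at ht
      have h3 : √t ^ 2 = t := Real.sq_sqrt (by linarith)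
      have h4 : 0 ≤ Real.log t := Real.log_nonneg (by linarith)
      have h5 : Real.log t ^ 2 ≤ t / 16 := by nlinarith
      have h6 : 64 ≤ √t := by
        rw [show (64 : ℝ) = √(64 ^ 2) by rw [Real.sqrt_sq (by norm_num)]]
        exact Real.sqrt_le_sqrt (by linarith)
      nlinarith
    have h3 : ∀ᶠ t : ℝ in atTop, 2 * C + 2 * |c| ≤ Real.exp (t / 4) :=
      (Real.tendsto_exp_atTop.comp (tendsto_id.atTop_div_const (by norm_num : (0 : ℝ) < 4))).eventually_ge_atTop _
    filter_upwards [h1, h3, eventually_gt_atTop 0] with t ht1 ht2 ht3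
    have e1 : t ^ 2 * Real.exp ((Real.log t) ^ 2) = Real.exp (2 * Real.log t + Real.log t ^ 2) := by
      rw [Real.exp_add]
      congr 1
      rw [mul_comm, Real.exp_mul, Real.exp_log ht3]
      norm_cast
    have e2 : Real.exp (t / 2) = Real.exp (t / 4) * Real.exp (t / 4) := by
      rw [← Real.exp_add]; congr 1; ring
    have e3 : 1 ≤ Real.exp (t / 4) := Real.one_le_exp (by linarith)
    rw [mul_assoc, e1, e2]
    have e4 : C * Real.exp (2 * Real.log t + Real.log t ^ 2) ≤ C * Real.exp (t / 4) := by gcongr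
    have e5 := le_abs_self c
    have e6 := abs_nonneg c
    nlinarith
  obtain ⟨T2, hT2⟩ := hlim.exists_forall_of_atTop
  obtain ⟨t, ht1, ht2, ht3⟩ := hE (max T (max T1 (max T2 1)))
    ((le_max_left _ _).trans (le_max_right _ _))
  have g1 : T ≤ t := (le_max_left _ _).trans ht1
  have g2 : T2 ≤ t := (((le_max_left _ _).trans (le_max_right _ _)).trans (le_max_right _ _)).trans ht1
  have g3 : 1 ≤ t := (((le_max_right _ _).trans (le_max_right _ _)).trans (le_max_right _ _)).trans ht1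
  refine ⟨t, g1, fun σ h1 h2 => ?_⟩
  have h3 := ht3 σ h1 h2
  have h4 := hz (pt σ t) (by rw [pt_re]; linarith) (by rw [pt_re]; linarith) (by rw [pt_im]; exact g3)
  rw [pt_im] at h4
  refine le_trans ?_ (hT2 t g2)
  have h5 : ‖V (pt σ t)‖ ≤ C * t ^ 2 * Real.exp (Real.log t ^ 2) := by
    rw [V, norm_div]
    have h6 : 0 < Real.exp (-(Real.log t) ^ 2) := Real.exp_pos _
    calc ‖riemannZeta (pt σ t)‖ / ‖EE (pt σ t)‖ ≤ (C * t ^ 2) / Real.exp (-(Real.log t) ^ 2) := by
          gcongr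
      _ = C * t ^ 2 * Real.exp (Real.log t ^ 2) := by
          rw [Real.exp_neg, div_inv_eq_mul]
  linarith

/-- Lipschitz bound on the bottom segment -/
lemma V_bottom {T0 : ℝ} (h : DH T0) {t0 : ℝ} (ht0 : 0 < t0) (hT : T0 < t0)
    (hl : 0 ≤ (V (pt (1 / 2) t0)).re) : ∃ K : ℝ, 0 ≤ K ∧ ∀ σ : ℝ, 1 / 2 ≤ σ → σ ≤ 3 →
    -(K * (σ - 1 / 2)) ≤ (V (pt σ t0)).re := by
  have hS : segment ℝ (pt (1 / 2) t0) (pt 3 t0) = (fun σ => pt σ t0) '' Set.Icc (1 / 2) 3 := by
    ext z
    constructor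
    · rintro ⟨a, b, ha, hb, hab, rfl⟩
      refine ⟨a * (1 / 2) + b * 3, ⟨by nlinarith, by nlinarith⟩, ?_⟩
      apply Complex.ext
      · simp [pt]
      · simp only [Complex.add_im, Complex.smul_im, pt_im, smul_eq_mul]
        rw [← add_mul, hab, one_mul]
    · rintro ⟨σ, ⟨h1, h2⟩, rfl⟩
      refine ⟨(3 - σ) / (5 / 2), (σ - 1 / 2) / (5 / 2), by apply div_nonneg <;> linarith,
        by apply div_nonneg <;> linarith, by ring, ?_⟩
      apply Complex.ext
      · simp only [Complex.add_re, Complex.smul_re, pt_re, smul_eq_mul]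
        ring
      · simp only [Complex.add_im, Complex.smul_im, pt_im, smul_eq_mul]
        ring
  set S : Set ℂ := segment ℝ (pt (1 / 2) t0) (pt 3 t0) with hSdef
  have hSc : IsCompact S := by
    rw [hS]
    refine isCompact_Icc.image ?_
    have : (fun σ : ℝ => pt σ t0) = fun σ : ℝ => (σ : ℂ) + (t0 : ℂ) * Complex.I := by
      funext σ
      apply Complex.ext <;> simp
    rw [this]
    fun_prop
  have hSm : ∀ z ∈ S, 1 / 2 ≤ z.re ∧ z.im = t0 := by
    intro z hz
    rw [hS] at hz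
    obtain ⟨σ, ⟨h1, -⟩, rfl⟩ := hz
    exact ⟨h1, rfl⟩
  have hVa : ∀ z ∈ S, AnalyticAt ℂ V z := fun z hz => by
    obtain ⟨h1, h2⟩ := hSm z hz
    exact V_analyticAt h h1 (by rw [h2]; exact ht0) (by rw [h2]; exact hT)
  obtain ⟨K, hK⟩ := hSc.exists_bound_of_continuousOn (f := deriv V)
    (fun z hz => (hVa z hz).deriv.continuousAt.continuousWithinAt)
  have h0S : pt (1 / 2) t0 ∈ S := by rw [hS]; exact ⟨1 / 2, ⟨le_rfl, by norm_num⟩, rfl⟩
  have hK0 : 0 ≤ K := (norm_nonneg _).trans (hK _ h0S)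
  refine ⟨K, hK0, fun σ h1 h2 => ?_⟩
  have hσS : pt σ t0 ∈ S := by rw [hS]; exact ⟨σ, ⟨h1, h2⟩, rfl⟩
  have h3 := (convex_segment (𝕜 := ℝ) (pt (1 / 2) t0) (pt 3 t0)).norm_image_sub_le_of_norm_hasDerivWithin_le
    (f := V) (f' := deriv V) (C := K)
    (fun z hz => (hVa z hz).differentiableAt.hasDerivAt.hasDerivWithinAt) hK h0S hσS
  rw [A.norm_pt_sub, abs_of_nonneg (by linarith : 0 ≤ σ - 1 / 2)] at h3
  have h4 := (Complex.abs_re_le_norm _).trans h3
  rw [Complex.sub_re, abs_le] at h4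
  linarith [h4.1]

lemma log_le_exp {t0 t : ℝ} (h0 : 100 ≤ t0) (h : t0 ≤ t) :
    Real.log t ≤ Real.log t0 * Real.exp ((t - t0) / 2) := by
  have ht0 : 0 < t0 := by linarith
  have ht : 0 < t := by linarith
  have h1 : Real.log t = Real.log t0 + Real.log (t / t0) := by
    rw [Real.log_div (by linarith) (by linarith)]; ring
  have h2 : Real.log (t / t0) ≤ (t - t0) / 2 := by
    have h3 := Real.log_le_sub_one_of_pos (show 0 < t / t0 by positivity)
    have h4 : t / t0 - 1 = (t - t0) / t0 := by field_simp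
    have h5 : (t - t0) / t0 ≤ (t - t0) / 2 := by
      apply div_le_div_of_nonneg_left <;> linarith
    linarith
  have h6 : 1 ≤ Real.log t0 := by
    rw [Real.le_log_iff_exp_le ht0]
    linarith [Real.exp_one_lt_d9]
  have h7 := Real.add_one_le_exp ((t - t0) / 2)
  nlinarith [mul_le_mul_of_nonneg_left h7 (show 0 ≤ Real.log t0 by linarith)]

/-- zero-free region to the right of the line -/
lemma zeta_ne_right {T0 : ℝ} (h : DH T0) : ∃ T : ℝ, ∀ w : ℂ, 1 / 2 < w.re → w.re < 3 →
    T < w.im → riemannZeta w ≠ 0 := by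
  obtain ⟨T1, hline⟩ := V_line
  obtain ⟨T2, hT2, hright⟩ := V_right
  set t0 : ℝ := max (max T1 T2) (|T0| + 1) with ht0def
  have g1 : T1 ≤ t0 := (le_max_left _ _).trans (le_max_left _ _)
  have g2 : T2 ≤ t0 := (le_max_right _ _).trans (le_max_left _ _)
  have g3 : T0 < t0 := by
    have := le_max_right (max T1 T2) (|T0| + 1)
    linarith [le_abs_self T0]
  have ht100 : 100 ≤ t0 := hT2.trans g2
  have ht0 : 0 < t0 := by linarith
  have hlog0 : 0 < Real.log t0 := Real.log_pos (by linarith)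
  obtain ⟨K', hK', hbot⟩ := V_bottom h ht0 g3 (hline t0 g1)
  set c : ℝ := 1 / (8 * Real.log t0) with hc
  have hc0 : 0 < c := by positivity
  set K : ℝ := 10 * (K' + c) with hK
  have hK0 : 0 < K := by positivity
  have hpi := Real.pi_gt_d2
  set f : ℂ → ℂ := fun w => V w
    - c * (-Complex.I * Complex.exp (Complex.I * (w - (1 / 2 : ℝ) - Complex.I * t0) * (1 / 2 : ℝ)))
    + K * (-Complex.I * Complex.exp (Complex.I * (w - (1 / 2 : ℝ) - Complex.I * t0) * (1 : ℝ)))
    with hf
  have hre : ∀ w : ℂ, (f w).re = (V w).re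
      - c * (Real.exp (-(w.im - t0) * (1 / 2)) * Real.sin ((w.re - 1 / 2) * (1 / 2)))
      + K * (Real.exp (-(w.im - t0) * 1) * Real.sin ((w.re - 1 / 2) * 1)) := by
    intro w
    rw [hf]
    simp only [Complex.add_re, Complex.sub_re, Complex.re_ofReal_mul, re_W]
  have hmain : ∀ w : ℂ, 1 / 2 ≤ w.re → w.re ≤ 3 → t0 ≤ w.im → 0 ≤ (f w).re := by
    apply strip_min (by norm_num) (by norm_num)
    · intro w hw
      obtain ⟨h1, h2, h3⟩ := hw
      have hVw : AnalyticAt ℂ V w := V_analyticAt h h1 (by linarith) (by linarith)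
      have hE : ∀ κ : ℝ, AnalyticAt ℂ (fun w : ℂ =>
          -Complex.I * Complex.exp (Complex.I * (w - (1 / 2 : ℝ) - Complex.I * t0) * κ)) w := by
        intro κ
        fun_prop
      exact (hVw.sub (analyticAt_const.mul (hE _))).add (analyticAt_const.mul (hE _))
    · intro t ht
      rw [hre]
      simp only [pt_re, pt_im, sub_self, zero_mul, Real.sin_zero, mul_zero, sub_zero, add_zero]
      exact hline t (g1.trans ht)
    · intro t ht
      rw [hre]
      simp only [pt_re, pt_im]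
      have h1 := hright t (g2.trans ht)
      have h2 : 0 ≤ Real.sin ((3 - 1 / 2) * 1) :=
        Real.sin_nonneg_of_nonneg_of_le_pi (by norm_num) (by linarith)
      have h3 : c * (Real.exp (-(t - t0) * (1 / 2)) * Real.sin ((3 - 1 / 2) * (1 / 2))) ≤
          1 / (8 * Real.log t) := by
        have h4 := log_le_exp ht100 ht
        have hlogt : 0 < Real.log t := Real.log_pos (by linarith)
        have h5 : Real.exp (-(t - t0) * (1 / 2)) * Real.sin ((3 - 1 / 2) * (1 / 2)) ≤
            Real.exp (-(t - t0) * (1 / 2)) := by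
          have := Real.sin_le_one ((3 - 1 / 2 : ℝ) * (1 / 2))
          nlinarith [Real.exp_pos (-(t - t0) * (1 / 2))]
        have h6 : Real.exp (-(t - t0) * (1 / 2)) = (Real.exp ((t - t0) / 2))⁻¹ := by
          rw [← Real.exp_neg]; congr 1; ring
        calc c * (Real.exp (-(t - t0) * (1 / 2)) * Real.sin ((3 - 1 / 2) * (1 / 2)))
            ≤ c * (Real.exp ((t - t0) / 2))⁻¹ := by rw [← h6]; gcongr
          _ = 1 / (8 * (Real.log t0 * Real.exp ((t - t0) / 2))) := by
              rw [hc]; field_simp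
          _ ≤ 1 / (8 * Real.log t) := by
              apply one_div_le_one_div_of_le (by positivity)
              linarith
      have h7 : 0 ≤ K * (Real.exp (-(t - t0) * 1) * Real.sin ((3 - 1 / 2) * 1)) := by positivity
      linarith
    · intro σ h1 h2
      rw [hre]
      simp only [pt_re, pt_im, sub_self, neg_zero, zero_mul, Real.exp_zero, one_mul, mul_one]
      have h3 := hbot σ h1 h2
      have h4 := Real.sin_le (show 0 ≤ (σ - 1 / 2) * (1 / 2) by nlinarith)
      have h5 := sin_lower (show 0 ≤ σ - 1 / 2 by linarith) (by linarith)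
      have h6 : c * Real.sin ((σ - 1 / 2) * (1 / 2)) ≤ c * ((σ - 1 / 2) * (1 / 2)) := by gcongr
      have h7 : (K' + c) * (σ - 1 / 2) ≤ K * Real.sin (σ - 1 / 2) := by
        rw [hK]
        nlinarith [mul_le_mul_of_nonneg_left h5 (show 0 ≤ 10 * (K' + c) by positivity)]
      nlinarith
    · intro T
      obtain ⟨t, ht, htop⟩ := V_top c (max T t0)
      refine ⟨t, (le_max_left _ _).trans ht, fun σ h1 h2 => ?_⟩
      have ht' : t0 ≤ t := (le_max_right _ _).trans ht
      rw [hre]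
      simp only [pt_re, pt_im]
      have h3 := htop σ h1 h2
      have h4 := (abs_le.1 (Complex.abs_re_le_norm (V (pt σ t)))).1
      have h5 : Real.exp (-(t - t0) * (1 / 2)) ≤ 1 := Real.exp_le_one_iff.2 (by nlinarith)
      have h6 := Real.sin_le_one ((σ - 1 / 2) * (1 / 2))
      have h6' : 0 ≤ Real.sin ((σ - 1 / 2) * (1 / 2)) :=
        Real.sin_nonneg_of_nonneg_of_le_pi (by nlinarith) (by nlinarith)
      have h7 : c * (Real.exp (-(t - t0) * (1 / 2)) * Real.sin ((σ - 1 / 2) * (1 / 2))) ≤ c := by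
        have : Real.exp (-(t - t0) * (1 / 2)) * Real.sin ((σ - 1 / 2) * (1 / 2)) ≤ 1 :=
          mul_le_one₀ h5 h6' h6
        nlinarith
      have h8 : 0 ≤ Real.sin ((σ - 1 / 2) * 1) :=
        Real.sin_nonneg_of_nonneg_of_le_pi (by linarith) (by linarith)
      have h9 : 0 ≤ K * (Real.exp (-(t - t0) * 1) * Real.sin ((σ - 1 / 2) * 1)) := by positivity
      linarith
  refine ⟨t0 + 2 * |Real.log (2 * K / c)|, fun w h1 h2 h3 hz => ?_⟩
  have habs := abs_nonneg (Real.log (2 * K / c))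
  have h4 := hmain w h1.le h2.le (by linarith)
  rw [hre, V, hz, zero_div, Complex.zero_re] at h4
  set x : ℝ := w.re - 1 / 2 with hx
  have hx0 : 0 < x := by linarith
  set e : ℝ := Real.exp (-(w.im - t0) * (1 / 2)) with he
  have he0 : 0 < e := Real.exp_pos _
  have he2 : Real.exp (-(w.im - t0) * 1) = e * e := by
    rw [he, ← Real.exp_add]; congr 1; ring
  have hs : 0 < Real.sin (x * (1 / 2)) := Real.sin_pos_of_pos_of_lt_pi (by linarith) (by linarith)
  have hs2 : Real.sin (x * 1) ≤ 2 * Real.sin (x * (1 / 2)) := by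
    have : x * 1 = 2 * (x * (1 / 2)) := by ring
    rw [this, Real.sin_two_mul]
    nlinarith [Real.cos_le_one (x * (1 / 2))]
  have he1 : 2 * K * e < c := by
    have h5 : e < c / (2 * K) := by
      rw [he, ← Real.lt_log_iff_exp_lt (by positivity)]
      have h6 : Real.log (c / (2 * K)) = -Real.log (2 * K / c) := by
        rw [← Real.log_inv, inv_div]
      rw [h6]
      have := le_abs_self (Real.log (2 * K / c))
      linarith
    rw [lt_div_iff₀ (by positivity)] at h5
    linarith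
  rw [he2] at h4
  have h8 : K * (e * e * Real.sin (x * 1)) ≤ K * (e * e * (2 * Real.sin (x * (1 / 2)))) := by
    gcongr
  have h9 : K * (e * e * (2 * Real.sin (x * (1 / 2)))) = (2 * K * e) * (e * Real.sin (x * (1 / 2))) := by
    ring
  have h10 : (2 * K * e) * (e * Real.sin (x * (1 / 2))) < c * (e * Real.sin (x * (1 / 2))) :=
    mul_lt_mul_of_pos_right he1 (by positivity)
  linarith

end D2

theorem rh_of_dh {T0 : ℝ} (h : DH T0) : ∃ T1 : ℝ, RH T1 := by
  obtain ⟨T, hT⟩ := D2.zeta_ne_right h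
  refine ⟨max T T0, fun ρ hρ hi => ?_⟩
  obtain ⟨h1, h2, h3, h4⟩ := hρ
  have hT1 : T < ρ.im := (le_max_left _ _).trans_lt hi
  have hT2 : T0 < ρ.im := (le_max_right _ _).trans_lt hi
  have hre : ρ.re = 1 / 2 := by
    rcases lt_trichotomy ρ.re (1 / 2) with h5 | h5 | h5
    · exfalso
      have h6 := (zeta_zero_iff h4).1 h1
      refine hT (1 - (starRingEnd ℂ) ρ) ?_ ?_ ?_ h6
      · simp; linarith
      · simp; linarith
      · simpa using hT1
    · exact h5
    · exact absurd h1 (hT ρ h5 (by linarith) hT1)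
  refine ⟨hre, fun h5 => ?_⟩
  have := h ρ h5 hT2
  linarith

end Pool.Agent.ZP
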